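import Pool.Agent.Run7.h954.CP.Cnt
import Pool.Agent.R410.EP.Loc
import Pool.Agent.R410.EP.Sum

/-!
# The points of the fibres over the extensions of the residue fields
-/

set_option autoImplicit false
set_option linter.all false
set_option maxHeartbeats 1000000

open Polynomial

namespace Pool.Agent.Run7.h954.CP

open Pool.Agent.R410.EP (range_eq)
open Pool.Agent.TH958.An

section
variable {k : Type} [Field k]

/-- the number of the points of `H = 0` over the algebraic closure which are fixed by the `n`-th power -/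
noncomputable def pts2 (k : Type) [Field k] (H : k[X][X]) (n : ℕ) : ℕ :=
  Nat.card {P : AlgebraicClosure k × AlgebraicClosure k // P.1 ^ n = P.1 ∧ P.2 ^ n = P.2 ∧
    evalEval P.1 P.2 (H.map (mapRingHom (algebraMap k (AlgebraicClosure k)))) = 0}

theorem evalEval_map {R S : Type} [CommRing R] [CommRing S] (φ : R →+* S) (x y : R) (H : R[X][X]) :
    evalEval (φ x) (φ y) (H.map (mapRingHom φ)) = φ (evalEval x y H) := by
  rw [← eval₂_eval₂RingHom_apply]
  have h : (eval₂RingHom φ (φ x)) = φ.comp (evalRingHom x) := by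
    apply Polynomial.ringHom_ext
    · intro a
      rw [coe_eval₂RingHom, eval₂_C, RingHom.comp_apply, coe_evalRingHom, eval_C]
    · rw [coe_eval₂RingHom, eval₂_X, RingHom.comp_apply, coe_evalRingHom, eval_X]
  rw [h]
  have h2 := hom_eval₂ H (evalRingHom x) φ y
  rw [← h2]
  congr 1
  have h3 := eval₂_eval₂RingHom_apply (RingHom.id R) x y H
  have h4 : eval₂RingHom (RingHom.id R) x = evalRingHom x := by
    apply Polynomial.ringHom_ext
    · intro a
      rw [coe_eval₂RingHom, eval₂_C, RingHom.id_apply, coe_evalRingHom, eval_C]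
    · rw [coe_eval₂RingHom, eval₂_X, coe_evalRingHom, eval_X]
  rw [h4, mapRingHom_id, Polynomial.map_id] at h3
  exact h3

/-- **The points over an extension.** -/
theorem pts2_eq {F : Type} [Field F] [Finite F] (σ : k →+* F) (H : k[X][X]) :
    ((Nat.card F : ℕ) : ℝ) - pts2 k H (Nat.card F) = trc2 F (H.map (mapRingHom σ)) := by
  classical
  have hfin := Fintype.ofFinite F
  let _ : Algebra k F := σ.toAlgebra
  have : Finite k := Finite.of_injective σ σ.injective
  have hint : Algebra.IsAlgebraic k F := by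
    have : Module.Finite k F := Module.Finite.of_finite
    infer_instance
  let τ : F →ₐ[k] AlgebraicClosure k := IsAlgClosed.lift
  have hrange : ∀ x : AlgebraicClosure k, x ^ Nat.card F = x ↔ ∃ z : F, τ z = x := by
    intro x
    rw [Nat.card_eq_fintype_card]
    exact range_eq (τ : F →+* AlgebraicClosure k) x
  have hτσ : (τ : F →+* AlgebraicClosure k).comp σ = algebraMap k (AlgebraicClosure k) := by
    refine RingHom.ext fun a => ?_
    exact τ.commutes a
  have hev : ∀ x y : F, evalEval (τ x) (τ y) (H.map (mapRingHom (algebraMap k (AlgebraicClosure k)))) =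
      τ (evalEval x y (H.map (mapRingHom σ))) := by
    intro x y
    have h1 := evalEval_map (τ : F →+* AlgebraicClosure k) x y (H.map (mapRingHom σ))
    rw [Polynomial.map_map, mapRingHom_comp, hτσ] at h1
    exact h1
  unfold trc2 pts2
  congr 2
  refine (Nat.card_congr (Equiv.ofBijective (fun P : {P : F × F // evalEval P.1 P.2
      (H.map (mapRingHom σ)) = 0} =>
    (⟨(τ P.1.1, τ P.1.2), (hrange _).2 ⟨_, rfl⟩, (hrange _).2 ⟨_, rfl⟩, by
      show evalEval (τ P.1.1) (τ P.1.2) _ = 0
      rw [hev, P.2, map_zero]⟩ : {P : AlgebraicClosure k × AlgebraicClosure k //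
    P.1 ^ Nat.card F = P.1 ∧ P.2 ^ Nat.card F = P.2 ∧
      evalEval P.1 P.2 (H.map (mapRingHom (algebraMap k (AlgebraicClosure k)))) = 0})) ⟨?_, ?_⟩)).symm
  · intro P P' h
    have h1 := congrArg (fun w => w.1) h
    have h2 := Prod.ext_iff.1 h1
    exact Subtype.ext (Prod.ext (τ.injective h2.1) (τ.injective h2.2))
  · rintro ⟨⟨x, y⟩, h1, h2, h3⟩
    obtain ⟨x, rfl⟩ := (hrange _).1 h1
    obtain ⟨y, rfl⟩ := (hrange _).1 h2
    refine ⟨⟨(x, y), ?_⟩, rfl⟩
    apply τ.injective
    show τ (evalEval x y (H.map (mapRingHom σ))) = τ 0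
    rw [map_zero, ← hev]
    exact h3

end

section
variable {R : Type} [CommRing R] [hR : Algebra.FiniteType ℤ R] (G : R[X][X])

/-- `n` minus the number of the points of the fibre -/
noncomputable def tr2 (y : Pt R) (n : ℕ) : ℝ :=
  (n : ℝ) - pts2 (Res y) (G.map (mapRingHom (Ideal.Quotient.mk y.asIdeal))) n

omit hR in
theorem tr2_eq {F : Type} [Field F] [Finite F] (φ : R →+* F) :
    tr2 G (ptOf φ) (Nat.card F) = trc2 F (G.map (mapRingHom φ)) := by
  let ψ : Res (ptOf φ) →+* F := fiberEquiv (F := F) (ptOf φ) ⟨φ, rfl⟩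
  have hψ : ψ.comp (Ideal.Quotient.mk (ptOf φ).asIdeal) = φ := by
    ext x
    rfl
  unfold tr2
  rw [pts2_eq ψ, Polynomial.map_map, mapRingHom_comp, hψ]

end

end Pool.Agent.Run7.h954.CP
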