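import Pool.Agent.Run7.h954.CP.Mdl
import Pool.Agent.Run7.h954.CP.Fin2
import Pool.Agent.Run7.h954.CP.Gen2

/-!
# The Euler product, and the smooth models
-/

set_option autoImplicit false
set_option linter.all false
set_option maxHeartbeats 1000000

open Polynomial

namespace Pool.Agent.Run7.h954.CP

open Pool.Agent.R410.NG (Asy Ff)
open Pool.Agent.R410.EP (ZG)
open Pool.Agent.R410.BS (hom_le)
open Pool.Agent.R410.LW (ft_int FG)
open Pool.Agent.TH958.An

/-- **The Euler product of a model.** -/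
theorem euler_cab {R K : Type} [CommRing R] [IsDomain R] [Field K] [CharZero K] [Algebra R K]
    [IsFractionRing R K] [Algebra.FiniteType ℤ R] {n m : ℕ} (hn : 0 < n) (hm : 0 < m)
    (hcop : n.Coprime m) {e : ℕ} (he : Algebra.trdeg ℚ K ≤ e) {G : R[X][X]} (hG : IsCab n m G) {N : R}
    {ρ : ℕ} (hasy : Asy (fun F _ _ => sC G N F) e (-(ρ : ℝ))) :
    ∃ Φ : ℂ → ℂ,
      (∀ s : ℂ, (e : ℝ) + 3 / 2 < s.re → HasProd (fun y : {y : Pt R // N ∉ y.asIdeal} =>
        ZG (tr2 G) y.1 ((qy y.1 : ℂ) ^ (-s))) (Φ s)) ∧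
      DifferentiableOn ℂ Φ {s : ℂ | (e : ℝ) + 1 < s.re} ∧
      MeromorphicAt Φ ((e : ℂ) + 1) ∧ meromorphicOrderAt Φ ((e : ℂ) + 1) = ((ρ : ℤ) : WithTop ℤ) := by
  obtain ⟨c, hc0, hc⟩ := weil_map hn hm hcop
  obtain ⟨C, hC0, hC⟩ := hom_le (R := R) (K := K) (IsFractionRing.injective R K) he
  have h1 : Asy (fun F _ _ => ∑ᶠ φ : {φ : R →+* F // φ N ≠ 0}, tr2 G (ptOf φ.1) (Nat.card F)) e
      ((-(ρ : ℤ) : ℤ) : ℝ) := by
    rw [Int.cast_neg, Int.cast_natCast]
    refine hasy.congr 1 one_ne_zero fun F _ _ _ => ?_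
    unfold sC
    exact finsum_congr fun φ => tr2_eq G φ.1
  have h2 := euler_gen2 (τ := tr2 G) (N := N) (D := c) hc0 (fun F _ _ φ => by
    rw [tr2_eq]
    exact hc R G hG F φ) hC0 (fun F _ _ => hC F) h1
  rw [neg_neg] at h2
  exact h2

section
variable {R S : Type} [CommRing R] [CommRing S]

theorem dx_coeff (H : R[X][X]) (i j : ℕ) :
    ((dx H).coeff j).coeff i = (H.coeff j).coeff (i + 1) * ((i : R) + 1) := by
  unfold dx
  rw [swap_coeff, coeff_derivative]
  have h1 : ((i : R[X]) + 1) = C ((i : R) + 1) := by simp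
  rw [h1, coeff_mul_C, swap_coeff]

theorem dx_map (φ : R →+* S) (H : R[X][X]) : (dx H).map (mapRingHom φ) = dx (H.map (mapRingHom φ)) := by
  ext j i
  rw [coeff_map, coe_mapRingHom, coeff_map, dx_coeff, dx_coeff, coeff_map, coe_mapRingHom, coeff_map,
    map_mul, map_add, map_natCast, map_one]

theorem isSmooth_iff (H : R[X][X]) : IsSmooth H ↔ ∃ a b c : R[X][X],
    a * H + b * derivative H + c * dx H = 1 := by
  unfold IsSmooth
  rw [Ideal.eq_top_iff_one, Ideal.mem_span_insert]
  constructor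
  · rintro ⟨a, z, hz, h⟩
    rw [Ideal.mem_span_insert] at hz
    obtain ⟨b, z', hz', rfl⟩ := hz
    obtain ⟨c, rfl⟩ := Ideal.mem_span_singleton'.1 hz'
    exact ⟨a, b, c, by rw [h]; ring⟩
  · rintro ⟨a, b, c, h⟩
    refine ⟨a, b * derivative H + c * dx H, ?_, by rw [← h]; ring⟩
    rw [Ideal.mem_span_insert]
    exact ⟨b, c * dx H, Ideal.mem_span_singleton'.2 ⟨c, rfl⟩, rfl⟩

end

section
variable {R K : Type} [CommRing R] [IsDomain R] [Field K] [Algebra R K] [IsFractionRing R K]

/-- the coefficients -/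
noncomputable def cfs (H : K[X][X]) : Finset K := by
  classical
  exact H.support.biUnion fun j => (H.coeff j).support.image (H.coeff j).coeff

theorem mem_cfs (H : K[X][X]) {i j : ℕ} (h : (H.coeff j).coeff i ≠ 0) : (H.coeff j).coeff i ∈ cfs H := by
  classical
  unfold cfs
  rw [Finset.mem_biUnion]
  refine ⟨j, ?_, ?_⟩
  · rw [mem_support_iff]
    intro h2
    rw [h2, coeff_zero] at h
    exact h rfl
  · rw [Finset.mem_image]
    exact ⟨i, mem_support_iff.2 h, rfl⟩

/-- the fibres outside a closed subset are smooth -/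
theorem exists_good {G : R[X][X]} (hs : IsSmooth (G.map (mapRingHom (algebraMap R K)))) :
    ∃ N : R, N ≠ 0 ∧ ∀ (F : Type) [Field F] (φ : R →+* F), φ N ≠ 0 → IsSmooth (G.map (mapRingHom φ)) := by
  classical
  obtain ⟨a, b, c, habc⟩ := (isSmooth_iff _).1 hs
  have hloc : IsLoc (nonZeroDivisors R) (algebraMap R K) := isLoc_iff.2 inferInstance
  have hi : Function.Injective (algebraMap R K) := IsFractionRing.injective R K
  obtain ⟨l, hl, hden⟩ := exists_den hloc (cfs a ∪ cfs b ∪ cfs c)
  have hlift : ∀ P : K[X][X], cfs P ⊆ cfs a ∪ cfs b ∪ cfs c →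
      ∃ P₀ : R[X][X], P₀.map (mapRingHom (algebraMap R K)) = C (C (algebraMap R K l)) * P := by
    intro P hP
    apply exists_lift
    intro i j
    rw [coeff_C_mul, coeff_C_mul]
    by_cases h0 : (P.coeff j).coeff i = 0
    · exact ⟨0, by rw [h0, mul_zero, map_zero]⟩
    · exact hden _ (hP (mem_cfs P h0))
  obtain ⟨a', ha'⟩ := hlift a (Finset.subset_union_left.trans Finset.subset_union_left)
  obtain ⟨b', hb'⟩ := hlift b (Finset.subset_union_right.trans Finset.subset_union_left)
  obtain ⟨c', hc'⟩ := hlift c Finset.subset_union_right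
  have hinj2 : Function.Injective (Polynomial.map (mapRingHom (algebraMap R K))) :=
    Polynomial.map_injective _ (Polynomial.map_injective _ hi)
  have key : a' * G + b' * derivative G + c' * dx G = C (C l) := by
    apply hinj2
    rw [Polynomial.map_add, Polynomial.map_add, Polynomial.map_mul, Polynomial.map_mul,
      Polynomial.map_mul, ha', hb', hc', dx_map, ← derivative_map, map_C, coe_mapRingHom, map_C]
    linear_combination (C (C (algebraMap R K l))) * habc
  refine ⟨l, hl, ?_⟩
  intro F _ φ hφ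
  rw [isSmooth_iff]
  have h1 := congrArg (Polynomial.map (mapRingHom φ)) key
  rw [Polynomial.map_add, Polynomial.map_add, Polynomial.map_mul, Polynomial.map_mul,
      Polynomial.map_mul, dx_map, ← derivative_map, map_C, coe_mapRingHom, map_C] at h1
  have h2 : (C (C (φ l)⁻¹) : F[X][X]) * C (C (φ l)) = 1 := by
    rw [← C_mul, ← C_mul, inv_mul_cancel₀ hφ, C_1, C_1]
  refine ⟨C (C (φ l)⁻¹) * a'.map (mapRingHom φ), C (C (φ l)⁻¹) * b'.map (mapRingHom φ),
    C (C (φ l)⁻¹) * c'.map (mapRingHom φ), ?_⟩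
  rw [← h2, ← h1]
  ring

/-- a smooth model exists -/
theorem exists_smooth (hK : FG K) {H : K[X][X]} (hs : IsSmooth H) :
    ∃ (R : Subalgebra ℤ K) (G : R[X][X]), Algebra.FiniteType ℤ R ∧ IsFractionRing R K ∧
      G.map (mapRingHom (algebraMap R K)) = H ∧ IsSmooth G := by
  classical
  obtain ⟨a, b, c, habc⟩ := (isSmooth_iff _).1 hs
  obtain ⟨A, hA, hft, hfr⟩ := Pool.Agent.R410.BA.exists_ring hK (cfs H ∪ cfs a ∪ cfs b ∪ cfs c)
  have hlift : ∀ P : K[X][X], cfs P ⊆ cfs H ∪ cfs a ∪ cfs b ∪ cfs c →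
      ∃ P₀ : A[X][X], P₀.map (mapRingHom (algebraMap A K)) = P := by
    intro P hP
    apply exists_lift
    intro i j
    by_cases h0 : (P.coeff j).coeff i = 0
    · exact ⟨0, by rw [h0, map_zero]⟩
    · exact ⟨⟨_, hA _ (hP (mem_cfs P h0))⟩, rfl⟩
  obtain ⟨G, hG⟩ := hlift H ((Finset.subset_union_left.trans Finset.subset_union_left).trans
    Finset.subset_union_left)
  obtain ⟨a', ha'⟩ := hlift a ((Finset.subset_union_right.trans Finset.subset_union_left).trans
    Finset.subset_union_left)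
  obtain ⟨b', hb'⟩ := hlift b (Finset.subset_union_right.trans Finset.subset_union_left)
  obtain ⟨c', hc'⟩ := hlift c Finset.subset_union_right
  have hi : Function.Injective (algebraMap A K) := Subtype.val_injective
  have hinj2 : Function.Injective (Polynomial.map (mapRingHom (algebraMap A K))) :=
    Polynomial.map_injective _ (Polynomial.map_injective _ hi)
  refine ⟨A, G, hft, hfr, hG, ?_⟩
  rw [isSmooth_iff]
  refine ⟨a', b', c', ?_⟩
  apply hinj2
  rw [Polynomial.map_add, Polynomial.map_add, Polynomial.map_mul, Polynomial.map_mul,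
      Polynomial.map_mul, ha', hb', hc', dx_map, ← derivative_map, hG, Polynomial.map_one]
  exact habc

end

/-- the field of rational functions is finitely generated -/
theorem fg_rat {M K : Type} [Field M] [Field K] [Algebra M K] (hM : FG M) {k : ℕ} {w : Fin k → K}
    (hK : IntermediateField.adjoin M (Set.range w) = ⊤) : FG K := by
  classical
  obtain ⟨S, hS⟩ := hM
  refine ⟨S.image (algebraMap M K) ∪ Finset.univ.image w, ?_⟩
  set Cf := Subfield.closure ((S.image (algebraMap M K) ∪ Finset.univ.image w : Finset K) : Set K) with hCf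
  have h1 : ∀ a : M, algebraMap M K a ∈ Cf := by
    intro a
    have h2 : Subfield.closure (S : Set M) ≤ Cf.comap (algebraMap M K) := by
      rw [Subfield.closure_le]
      intro s hs
      show algebraMap M K s ∈ Cf
      apply Subfield.subset_closure
      rw [Finset.coe_union]
      exact Or.inl (Finset.mem_coe.2 (Finset.mem_image_of_mem _ hs))
    rw [hS] at h2
    exact h2 (Subfield.mem_top a)
  have h2 : ∀ i, w i ∈ Cf := by
    intro i
    apply Subfield.subset_closure
    rw [Finset.coe_union]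
    exact Or.inr (Finset.mem_coe.2 (Finset.mem_image_of_mem _ (Finset.mem_univ i)))
  let Ci : IntermediateField M K := { Cf with algebraMap_mem' := h1 }
  have h3 : IntermediateField.adjoin M (Set.range w) ≤ Ci := by
    rw [IntermediateField.adjoin_le_iff]
    rintro _ ⟨i, rfl⟩
    exact h2 i
  rw [hK] at h3
  rw [eq_top_iff]
  intro z _
  exact h3 (show z ∈ (⊤ : IntermediateField M K) from trivial)

end Pool.Agent.Run7.h954.CP
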