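import Pool.Agent.Run7.h954.CP.Def

/-!
# Piece DED (helper690): the coordinate ring of a smooth curve `C_ab` is a Dedekind domain
-/

set_option autoImplicit false
set_option linter.all false

open Polynomial

namespace Pool.Agent.Run7.h954.CP

section
variable {K : Type} [Field K] [CharZero K]

/-- the derivative with respect to `y` multiplies the integral closure into the ring -/
theorem deriv_mul_mem {H : K[X][X]} (hmon : H.Monic) (hpr : Prime H) {L : Type} [Field L]
    [Algebra (AdjoinRoot H) L] [IsFractionRing (AdjoinRoot H) L] (z : L)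
    (hz : IsIntegral (AdjoinRoot H) z) :
    ∃ a : AdjoinRoot H, algebraMap (AdjoinRoot H) L a =
      algebraMap (AdjoinRoot H) L (AdjoinRoot.mk H (derivative H)) * z := by
  classical
  haveI hdom : IsDomain (AdjoinRoot H) := AdjoinRoot.isDomain_of_prime hpr
  haveI hfin : Module.Finite K[X] (AdjoinRoot H) := hmon.finite_adjoinRoot
  letI alg : Algebra K[X] L :=
    ((algebraMap (AdjoinRoot H) L).comp (algebraMap K[X] (AdjoinRoot H))).toAlgebra
  haveI tow : IsScalarTower K[X] (AdjoinRoot H) L := IsScalarTower.of_algebraMap_eq fun _ => rfl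
  have hdeg : H.degree ≠ 0 := by
    intro h0
    have h1 : H = 1 := by
      have := eq_C_of_degree_eq_zero h0
      have h2 := hmon
      rw [this, Monic.def, leadingCoeff_C] at h2
      rw [this, h2, C_1]
    exact hpr.not_unit (h1 ▸ isUnit_one)
  have hinjA : Function.Injective (algebraMap K[X] (AdjoinRoot H)) :=
    AdjoinRoot.of.injective_of_degree_ne_zero hdeg
  have hinjL : Function.Injective (algebraMap K[X] L) :=
    (IsFractionRing.injective (AdjoinRoot H) L).comp hinjA
  haveI : FaithfulSMul K[X] L := (faithfulSMul_iff_algebraMap_injective _ _).2 hinjL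
  letI : Algebra (FractionRing K[X]) L := FractionRing.liftAlgebra K[X] L
  haveI : IsScalarTower K[X] (FractionRing K[X]) L := inferInstance
  haveI : CharZero (FractionRing K[X]) := inferInstance
  set x : L := algebraMap (AdjoinRoot H) L (AdjoinRoot.root H) with hx
  have hHx : aeval x H = 0 := by
    rw [hx, aeval_algebraMap_apply, AdjoinRoot.aeval_eq, AdjoinRoot.mk_self, map_zero]
  have hAx : IsIntegral K[X] x := ⟨H, hmon, by rw [← aeval_def]; exact hHx⟩
  have halg : Algebra.IsAlgebraic (FractionRing K[X]) L := by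
    have h1 : Algebra.IsAlgebraic K[X] (AdjoinRoot H) := inferInstance
    have h2 : Algebra.IsAlgebraic K[X] L := (IsFractionRing.isAlgebraic_iff' K[X] (AdjoinRoot H) L).1 h1
    exact (IsFractionRing.comap_isAlgebraic_iff (A := K[X]) (K := FractionRing K[X]) (C := L)).1 h2
  have hmkA : ∀ a : AdjoinRoot H, algebraMap (AdjoinRoot H) L a ∈ Algebra.adjoin K[X] {x} := by
    intro a
    obtain ⟨P, rfl⟩ := AdjoinRoot.mk_surjective a
    rw [← AdjoinRoot.aeval_eq, ← aeval_algebraMap_apply, ← hx]
    exact aeval_mem_adjoin_singleton _ _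
  have hadj : Algebra.adjoin (FractionRing K[X]) {x} = ⊤ := by
    rw [eq_top_iff]
    intro w _
    obtain ⟨a, b, hb, rfl⟩ := IsFractionRing.div_surjective (A := AdjoinRoot H) w
    have hle : ∀ a : AdjoinRoot H, algebraMap (AdjoinRoot H) L a ∈
        Algebra.adjoin (FractionRing K[X]) {x} := by
      intro a
      have h1 := hmkA a
      have h2 : Algebra.adjoin K[X] {x} ≤
          (Algebra.adjoin (FractionRing K[X]) {x}).restrictScalars K[X] :=
        Algebra.adjoin_le (Algebra.subset_adjoin)
      exact h2 h1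
    rw [div_eq_mul_inv]
    refine Subalgebra.mul_mem _ (hle a) ?_
    exact Subalgebra.inv_mem_of_algebraic _ (x := ⟨_, hle b⟩) (Algebra.IsAlgebraic.isAlgebraic _)
  haveI : FiniteDimensional (FractionRing K[X]) L := by
    have h1 : (Algebra.adjoin (FractionRing K[X]) {x}).toSubmodule.FG :=
      (Algebra.IsIntegral.isIntegral x : IsIntegral (FractionRing K[X]) x).fg_adjoin_singleton
    rw [hadj, Algebra.top_toSubmodule] at h1
    exact ⟨h1⟩
  haveI : Algebra.IsSeparable (FractionRing K[X]) L := inferInstance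
  have hirr : Irreducible (H.map (algebraMap K[X] (FractionRing K[X]))) :=
    (hmon.irreducible_iff_irreducible_map_fraction_map (K := FractionRing K[X])).1 hpr.irreducible
  have hmin : minpoly (FractionRing K[X]) x = H.map (algebraMap K[X] (FractionRing K[X])) := by
    refine (minpoly.eq_of_irreducible_of_monic hirr ?_ (hmon.map _)).symm
    rw [aeval_map_algebraMap]
    exact hHx
  have key := traceForm_dualSubmodule_adjoin K[X] (FractionRing K[X]) hadj hAx
  have hzA : IsIntegral K[X] z := isIntegral_trans z hz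
  have hmem : z ∈ (Algebra.traceForm (FractionRing K[X]) L).dualSubmodule
      (Subalgebra.toSubmodule (Algebra.adjoin K[X] {x})) := by
    rw [LinearMap.BilinForm.mem_dualSubmodule]
    intro y hy
    rw [Algebra.traceForm_apply, Submodule.mem_one]
    have hyI : IsIntegral K[X] y := by
      have h1 : Algebra.adjoin K[X] {x} ≤ integralClosure K[X] L :=
        Algebra.adjoin_le (Set.singleton_subset_iff.2 hAx)
      exact h1 hy
    have h2 : IsIntegral K[X] (Algebra.trace (FractionRing K[X]) L (z * y)) :=
      Algebra.isIntegral_trace (hzA.mul hyI)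
    exact IsIntegrallyClosed.isIntegral_iff.1 h2
  rw [key] at hmem
  have hne : (aeval x (derivative (minpoly (FractionRing K[X]) x)) : L) ≠ 0 :=
    (Algebra.IsSeparable.isSeparable _ _).aeval_derivative_ne_zero (minpoly.aeval _ _)
  have hd : (aeval x (derivative (minpoly (FractionRing K[X]) x)) : L) =
      algebraMap (AdjoinRoot H) L (AdjoinRoot.mk H (derivative H)) := by
    rw [hmin, derivative_map, aeval_map_algebraMap, hx, aeval_algebraMap_apply, AdjoinRoot.aeval_eq]
  rw [hd] at hmem hne
  obtain ⟨w, hw, hwz⟩ := hmem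
  have hw2 : algebraMap (AdjoinRoot H) L (AdjoinRoot.mk H (derivative H)) * z = w := by
    have h3 : z = (algebraMap (AdjoinRoot H) L (AdjoinRoot.mk H (derivative H)))⁻¹ * w := by
      rw [← hwz]; rfl
    rw [h3, mul_inv_cancel_left₀ hne]
  rw [hw2]
  have h4 : Algebra.adjoin K[X] {x} ≤ (IsScalarTower.toAlgHom K[X] (AdjoinRoot H) L).range :=
    Algebra.adjoin_le (Set.singleton_subset_iff.2 ⟨AdjoinRoot.root H, rfl⟩)
  obtain ⟨a, ha⟩ := h4 hw
  exact ⟨a, ha⟩

end

section
variable {R : Type*} [CommRing R]

theorem swap_coeff (P : R[X][X]) (i j : ℕ) :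
    ((Bivariate.swap P).coeff i).coeff j = (P.coeff j).coeff i := by
  induction P using Polynomial.induction_on' with
  | add p q hp hq => rw [map_add]; simp only [coeff_add]; rw [hp, hq]
  | monomial a p =>
    induction p using Polynomial.induction_on' with
    | add p q hp hq => rw [map_add, map_add]; simp only [coeff_add]; rw [hp, hq]
    | monomial b r =>
      rw [Bivariate.swap_monomial_monomial]
      simp only [coeff_monomial]
      by_cases h1 : a = j <;> by_cases h2 : b = i <;> simp [h1, h2, coeff_monomial]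

theorem swap_EE (n m : ℕ) : -Bivariate.swap (EE R n m) = EE R m n := by
  unfold EE
  rw [map_sub, map_pow, Bivariate.swap_Y, Bivariate.swap_C, Polynomial.map_pow, map_X, C_pow]
  ring

theorem IsLow.swap_neg {n m : ℕ} {P : R[X][X]} (h : IsLow n m P) :
    IsLow m n (-Bivariate.swap P) := by
  intro i j hc
  rw [coeff_neg, coeff_neg, swap_coeff] at hc
  have := h j i (fun h0 => hc (by rw [h0, neg_zero]))
  rw [mul_comm m n]
  omega

/-- the two variables may be interchanged -/
theorem IsCab.swap_neg {n m : ℕ} {P : R[X][X]} (h : IsCab n m P) :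
    IsCab m n (-Bivariate.swap P) := by
  have h1 := IsLow.swap_neg h
  unfold IsCab
  rw [← swap_EE]
  rw [map_sub] at h1
  convert h1 using 1
  ring

end

section
variable {K : Type} [Field K] [CharZero K]

theorem span_swap (H : K[X][X]) : (Ideal.span {-Bivariate.swap H} : Ideal K[X][X]) =
    Ideal.map ((Bivariate.swap (R := K)).toRingEquiv : K[X][X] →+* K[X][X]) (Ideal.span {H}) := by
  rw [Ideal.map_span, Set.image_singleton]
  exact Ideal.span_singleton_neg _

/-- interchanging the variables -/
noncomputable def swE (H : K[X][X]) : AdjoinRoot H ≃+* AdjoinRoot (-Bivariate.swap H) :=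
  Ideal.quotientEquiv (Ideal.span {H}) (Ideal.span {-Bivariate.swap H})
    (Bivariate.swap (R := K)).toRingEquiv (span_swap H)

theorem swE_mk (H P : K[X][X]) :
    swE H (AdjoinRoot.mk H P) = AdjoinRoot.mk (-Bivariate.swap H) (Bivariate.swap P) := rfl

theorem swE_symm_mk (H P : K[X][X]) :
    (swE H).symm (AdjoinRoot.mk (-Bivariate.swap H) (Bivariate.swap P)) = AdjoinRoot.mk H P := by
  rw [← swE_mk, RingEquiv.symm_apply_apply]

theorem int_closed {n m : ℕ} (hn : 0 < n) (hm : 0 < m)
    (hcop : n.Coprime m) {H : K[X][X]} (hH : IsCab n m H) (hs : IsSmooth H) {L L' : Type} [Field L]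
    [Field L'] [Algebra (AdjoinRoot H) L] [Algebra (AdjoinRoot (-Bivariate.swap H)) L']
    [IsFractionRing (AdjoinRoot H) L] [IsFractionRing (AdjoinRoot (-Bivariate.swap H)) L']
    (z : L) (hz : IsIntegral (AdjoinRoot H) z) : ∃ y, algebraMap (AdjoinRoot H) L y = z := by
  have hmon := (hH.monic hn).1
  have hpr : Prime H := cab_prime hn hcop hH
  have hH' : IsCab m n (-Bivariate.swap H) := hH.swap_neg
  have hmon' := (hH'.monic hm).1
  have hpr' : Prime (-Bivariate.swap H) := cab_prime hm hcop.symm hH'
  haveI hdom : IsDomain (AdjoinRoot H) := AdjoinRoot.isDomain_of_prime hpr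
  haveI hdom' : IsDomain (AdjoinRoot (-Bivariate.swap H)) := AdjoinRoot.isDomain_of_prime hpr'
  let E : L ≃+* L' := IsFractionRing.ringEquivOfRingEquiv (swE H)
  have hE : ∀ a, E (algebraMap _ L a) = algebraMap _ L' (swE H a) :=
    fun a => IsFractionRing.ringEquivOfRingEquiv_algebraMap (swE H) a
  have hEs : ∀ a, E.symm (algebraMap _ L' a) = algebraMap _ L ((swE H).symm a) := by
    intro a
    rw [RingEquiv.symm_apply_eq, hE, RingEquiv.apply_symm_apply]
  obtain ⟨a1, h1⟩ := deriv_mul_mem hmon hpr z hz
  have hz' : IsIntegral (AdjoinRoot (-Bivariate.swap H)) (E z) := by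
    refine hz.map_of_comp_eq (swE H).toRingHom E.toRingHom ?_
    exact RingHom.ext fun a => (hE a).symm
  obtain ⟨a2, h2⟩ := deriv_mul_mem hmon' hpr' (E z) hz'
  have h3 := congrArg E.symm h2
  rw [map_mul, hEs, hEs, RingEquiv.symm_apply_apply] at h3
  have h4 : derivative (-Bivariate.swap H) = Bivariate.swap (-dx H) := by
    rw [derivative_neg, map_neg, dx, Bivariate.swap_swap_apply]
  rw [h4, swE_symm_mk] at h3
  unfold IsSmooth at hs
  have h5 : (1 : K[X][X]) ∈ Ideal.span {H, derivative H, dx H} := by rw [hs]; trivial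
  obtain ⟨u, v, w, h6⟩ := Submodule.mem_span_triple.1 h5
  have h7 : AdjoinRoot.mk H v * AdjoinRoot.mk H (derivative H) +
      AdjoinRoot.mk H w * AdjoinRoot.mk H (dx H) = 1 := by
    have := congrArg (AdjoinRoot.mk H) h6
    simp only [smul_eq_mul, map_add, map_mul, AdjoinRoot.mk_self, mul_zero, zero_add, map_one] at this
    exact this
  refine ⟨AdjoinRoot.mk H v * a1 - AdjoinRoot.mk H w * (swE H).symm a2, ?_⟩
  rw [map_sub, map_mul, map_mul, h1, h3, map_neg, map_neg]
  have h8 := congrArg (algebraMap (AdjoinRoot H) L) h7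
  rw [map_add, map_mul, map_mul, map_one] at h8
  linear_combination z * h8

theorem dedekind_cab {n m : ℕ} (hn : 0 < n) (hm : 0 < m)
    (hcop : n.Coprime m) {H : K[X][X]} (hH : IsCab n m H) (hs : IsSmooth H) :
    IsDedekindDomain (AdjoinRoot H) := by
  have hmon := (hH.monic hn).1
  have hpr : Prime H := cab_prime hn hcop hH
  have hH' : IsCab m n (-Bivariate.swap H) := hH.swap_neg
  have hpr' : Prime (-Bivariate.swap H) := cab_prime hm hcop.symm hH'
  haveI hdom : IsDomain (AdjoinRoot H) := AdjoinRoot.isDomain_of_prime hpr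
  haveI hdom' : IsDomain (AdjoinRoot (-Bivariate.swap H)) := AdjoinRoot.isDomain_of_prime hpr'
  haveI hfin : Module.Finite K[X] (AdjoinRoot H) := hmon.finite_adjoinRoot
  rw [isDedekindDomain_iff (AdjoinRoot H) (FractionRing (AdjoinRoot H))]
  refine ⟨hdom, ?_, ?_, ?_⟩
  · exact isNoetherianRing_of_surjective _ _ (AdjoinRoot.mk H) AdjoinRoot.mk_surjective
  · exact Ring.DimensionLEOne.of_isIntegral K[X] (AdjoinRoot H)
  · intro z hz
    exact int_closed (L' := FractionRing (AdjoinRoot (-Bivariate.swap H))) hn hm hcop hH hs z hz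

end

end Pool.Agent.Run7.h954.CP
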