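import Mathlib

/-!
# Localisations of rings of polynomials and of their quotients
-/

set_option autoImplicit false
set_option linter.all false

open Polynomial

namespace Pool.Agent.Run7.h954.CP

/-- the ring homomorphism is a localisation -/
def IsLoc {R₀ R : Type} [CommRing R₀] [CommRing R] (S : Submonoid R₀) (φ : R₀ →+* R) : Prop :=
  @IsLocalization R₀ _ S R _ φ.toAlgebra

section
variable {R₀ R : Type} [CommRing R₀] [CommRing R] {S : Submonoid R₀} {φ : R₀ →+* R}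

theorem IsLoc.unit (h : IsLoc S φ) {s : R₀} (hs : s ∈ S) : IsUnit (φ s) := by
  letI : Algebra R₀ R := φ.toAlgebra
  have h' : IsLocalization S R := h
  exact IsLocalization.map_units R ⟨s, hs⟩

theorem IsLoc.den (h : IsLoc S φ) (x : R) : ∃ s ∈ S, ∃ y, x * φ s = φ y := by
  letI : Algebra R₀ R := φ.toAlgebra
  have h' : IsLocalization S R := h
  obtain ⟨⟨y, s⟩, hy⟩ := IsLocalization.surj S x
  exact ⟨s.1, s.2, y, hy⟩

theorem isLoc_of (hi : Function.Injective φ) (hu : ∀ s ∈ S, IsUnit (φ s))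
    (hd : ∀ x : R, ∃ s ∈ S, ∃ y, x * φ s = φ y) : IsLoc S φ := by
  letI : Algebra R₀ R := φ.toAlgebra
  show IsLocalization S R
  refine { map_units := fun s => hu s.1 s.2, surj := fun x => ?_, exists_of_eq := fun {x y} hxy => ?_ }
  · obtain ⟨s, hs, y, hy⟩ := hd x
    exact ⟨⟨y, ⟨s, hs⟩⟩, hy⟩
  · exact ⟨1, by rw [hi hxy]⟩

theorem IsLoc.inj (h : IsLoc S φ) (hS : S ≤ nonZeroDivisors R₀) : Function.Injective φ := by
  letI : Algebra R₀ R := φ.toAlgebra
  have h' : IsLocalization S R := h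
  exact IsLocalization.injective R hS

theorem IsLoc.poly (h : IsLoc S φ) : IsLoc (S.map (C : R₀ →+* R₀[X])) (mapRingHom φ) := by
  letI : Algebra R₀ R := φ.toAlgebra
  have h' : IsLocalization S R := h
  exact Polynomial.isLocalization S R

theorem IsLoc.mv (h : IsLoc S φ) (σ : Type) :
    IsLoc (S.map (MvPolynomial.C : R₀ →+* MvPolynomial σ R₀)) (MvPolynomial.map φ) := by
  letI : Algebra R₀ R := φ.toAlgebra
  have h' : IsLocalization S R := h
  exact MvPolynomial.isLocalization S R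

/-- the homomorphism of the quotients -/
noncomputable def rootMap (φ : R₀ →+* R) (p₀ : R₀[X]) (p : R[X]) (hp : p₀.map φ = p) :
    AdjoinRoot p₀ →+* AdjoinRoot p :=
  AdjoinRoot.lift ((AdjoinRoot.of p).comp φ) (AdjoinRoot.root p) (by
    rw [← eval₂_map, hp]
    exact AdjoinRoot.eval₂_root p)

theorem rootMap_mk (φ : R₀ →+* R) (p₀ : R₀[X]) (p : R[X]) (hp : p₀.map φ = p) (Z : R₀[X]) :
    rootMap φ p₀ p hp (AdjoinRoot.mk p₀ Z) = AdjoinRoot.mk p (Z.map φ) := by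
  unfold rootMap
  rw [AdjoinRoot.lift_mk, ← eval₂_map, ← AdjoinRoot.algebraMap_eq, ← aeval_def, AdjoinRoot.aeval_eq]

theorem rootMap_of (φ : R₀ →+* R) (p₀ : R₀[X]) (p : R[X]) (hp : p₀.map φ = p) (a : R₀) :
    rootMap φ p₀ p hp (AdjoinRoot.of p₀ a) = AdjoinRoot.of p (φ a) := by
  unfold rootMap
  rw [AdjoinRoot.lift_of]
  rfl

theorem rootMap_inj (φ : R₀ →+* R) (hφ : Function.Injective φ) (p₀ : R₀[X]) (hm : p₀.Monic) (p : R[X])
    (hp : p₀.map φ = p) : Function.Injective (rootMap φ p₀ p hp) := by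
  rw [injective_iff_map_eq_zero]
  intro b hb
  obtain ⟨Z, rfl⟩ := AdjoinRoot.mk_surjective b
  rw [rootMap_mk, AdjoinRoot.mk_eq_zero, ← hp] at hb
  rw [AdjoinRoot.mk_eq_zero]
  exact (Polynomial.map_dvd_map _ hφ hm).1 hb

theorem IsLoc.root (h : IsLoc S φ) (hS : S ≤ nonZeroDivisors R₀) (p₀ : R₀[X]) (hm : p₀.Monic) (p : R[X])
    (hp : p₀.map φ = p) : IsLoc (S.map (AdjoinRoot.of p₀)) (rootMap φ p₀ p hp) := by
  refine isLoc_of (rootMap_inj φ (h.inj hS) p₀ hm p hp) ?_ ?_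
  · rintro _ ⟨s, hs, rfl⟩
    rw [rootMap_of]
    exact (h.unit hs).map _
  · intro x
    obtain ⟨Z, rfl⟩ := AdjoinRoot.mk_surjective x
    obtain ⟨s', ⟨s, hs, rfl⟩, Z₀, hZ⟩ := h.poly.den Z
    refine ⟨_, ⟨s, hs, rfl⟩, AdjoinRoot.mk p₀ Z₀, ?_⟩
    rw [rootMap_mk, ← coe_mapRingHom, ← hZ, map_mul, rootMap_of, coe_mapRingHom, map_C, AdjoinRoot.mk_C]

end

end Pool.Agent.Run7.h954.CP
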