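import Pool.Agent.Run7.h954.CP.Def
import Pool.Agent.Run7.h954.CP.Lc

/-!
# Constants in the coordinate ring of a family of curves
-/

set_option autoImplicit false
set_option linter.all false

open Polynomial

namespace Pool.Agent.Run7.h954.CP

section
variable {P : Type} [CommRing P]

/-- the constants -/
noncomputable def cst (H : P[X][X]) : P →+* AdjoinRoot H := (AdjoinRoot.of H).comp C

theorem cst_mk (H : P[X][X]) (q : P) : cst H q = AdjoinRoot.mk H (C (C q)) := by
  rw [AdjoinRoot.mk_C]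
  rfl

theorem cc_dvd (q : P) (Z : P[X][X]) : C (C q) ∣ Z ↔ ∀ i j, q ∣ (Z.coeff j).coeff i := by
  rw [C_dvd_iff_dvd_coeff]
  constructor
  · intro h i j
    exact (C_dvd_iff_dvd_coeff q _).1 (h j) i
  · intro h j
    exact (C_dvd_iff_dvd_coeff q _).2 fun i => h i j

variable {n m : ℕ} {H : P[X][X]}

theorem exists_red [Nontrivial P] (hn : 0 < n) (hH : IsCab n m H) (c : AdjoinRoot H) :
    ∃ Z : P[X][X], Z.natDegree < n ∧ AdjoinRoot.mk H Z = c := by
  obtain ⟨hm, hdeg⟩ := hH.monic hn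
  obtain ⟨Z, rfl⟩ := AdjoinRoot.mk_surjective c
  refine ⟨Z %ₘ H, ?_, ?_⟩
  · have h1 := natDegree_modByMonic_lt Z hm (by
      intro h3
      rw [h3, natDegree_one] at hdeg
      omega)
    rwa [hdeg] at h1
  · rw [AdjoinRoot.mk_eq_mk]
    have e1 := modByMonic_add_div Z H
    exact ⟨-(Z /ₘ H), by linear_combination e1⟩

theorem red_zero [Nontrivial P] (hn : 0 < n) (hH : IsCab n m H) {Z : P[X][X]} (hZ : Z.natDegree < n)
    (h : AdjoinRoot.mk H Z = 0) : Z = 0 := by
  obtain ⟨hm, hdeg⟩ := hH.monic hn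
  rw [AdjoinRoot.mk_eq_zero] at h
  by_contra h0
  exact (hm.not_dvd_of_natDegree_lt h0 (by rw [hdeg]; exact hZ)) h

theorem red_inj [Nontrivial P] (hn : 0 < n) (hH : IsCab n m H) {Z W : P[X][X]} (hZ : Z.natDegree < n)
    (hW : W.natDegree < n) (h : AdjoinRoot.mk H Z = AdjoinRoot.mk H W) : Z = W := by
  rw [← sub_eq_zero, ← map_sub] at h
  have h1 : (Z - W).natDegree < n := lt_of_le_of_lt (natDegree_sub_le _ _) (max_lt hZ hW)
  exact sub_eq_zero.1 (red_zero hn hH h1 h)

theorem cst_inj [Nontrivial P] (hn : 0 < n) (hH : IsCab n m H) : Function.Injective (cst H) := by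
  intro a b h
  rw [cst_mk, cst_mk] at h
  have h1 := red_inj hn hH (by rw [natDegree_C]; exact hn) (by rw [natDegree_C]; exact hn) h
  exact C_injective (C_injective h1)

theorem cst_dvd_iff [Nontrivial P] (hn : 0 < n) (hH : IsCab n m H) (q : P) {Z : P[X][X]}
    (hZ : Z.natDegree < n) : cst H q ∣ AdjoinRoot.mk H Z ↔ C (C q) ∣ Z := by
  constructor
  · rintro ⟨c, hc⟩
    obtain ⟨W, hW, rfl⟩ := exists_red hn hH c
    rw [cst_mk, ← map_mul] at hc
    have h1 : (C (C q) * W).natDegree < n := lt_of_le_of_lt (natDegree_C_mul_le _ _) hW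
    exact ⟨W, red_inj hn hH hZ h1 hc⟩
  · rintro ⟨W, rfl⟩
    rw [map_mul, cst_mk]
    exact Dvd.intro _ rfl

theorem cst_dvd [Nontrivial P] (hn : 0 < n) (hH : IsCab n m H) {q p : P} (h : cst H q ∣ cst H p) :
    q ∣ p := by
  rw [cst_mk H p, cst_dvd_iff hn hH q (by rw [natDegree_C]; exact hn), cc_dvd] at h
  have := h 0 0
  rwa [coeff_C_zero, coeff_C_zero] at this

theorem cab_domain [IsDomain P] (hn : 0 < n) (hcop : n.Coprime m) (hH : IsCab n m H) :
    IsDomain (AdjoinRoot H) := AdjoinRoot.isDomain_of_prime (cab_prime hn hcop hH)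

theorem cst_prime [IsDomain P] (hn : 0 < n) (hcop : n.Coprime m) (hH : IsCab n m H) {q : P}
    (hq : Prime q) : Prime (cst H q) := by
  have hI : (Ideal.span {q}).IsPrime := (Ideal.span_singleton_prime hq.ne_zero).2 hq
  let φ : P →+* P ⧸ Ideal.span {q} := Ideal.Quotient.mk _
  have hH' : IsCab n m (H.map (mapRingHom φ)) := hH.map φ
  have hdom := cab_domain hn hcop hH'
  let ψ := rootMap (mapRingHom φ) H (H.map (mapRingHom φ)) rfl
  have hker : ∀ c, ψ c = 0 ↔ cst H q ∣ c := by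
    intro c
    obtain ⟨Z, hZ, rfl⟩ := exists_red hn hH c
    rw [cst_dvd_iff hn hH q hZ]
    show rootMap _ _ _ _ _ = 0 ↔ _
    rw [rootMap_mk, cc_dvd]
    constructor
    · intro h i j
      have h1 := red_zero hn hH' (lt_of_le_of_lt natDegree_map_le hZ) h
      have h2 := congrArg (fun W : (P ⧸ Ideal.span {q})[X][X] => (W.coeff j).coeff i) h1
      simp only [coeff_map, coe_mapRingHom, coeff_zero] at h2
      exact Ideal.mem_span_singleton.1 (Ideal.Quotient.eq_zero_iff_mem.1 h2)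
    · intro h
      have h1 : Z.map (mapRingHom φ) = 0 := by
        ext j i
        rw [coeff_map, coe_mapRingHom, coeff_map, coeff_zero, coeff_zero]
        exact Ideal.Quotient.eq_zero_iff_mem.2 (Ideal.mem_span_singleton.2 (h i j))
      rw [h1, map_zero]
  refine ⟨(map_ne_zero_iff _ (cst_inj hn hH)).2 hq.ne_zero, ?_, ?_⟩
  · intro hu
    have h1 : ψ 1 = 0 := (hker 1).2 (hu.dvd)
    rw [map_one] at h1
    exact one_ne_zero h1
  · intro a b h
    rw [← hker, map_mul] at h
    rcases mul_eq_zero.1 h with h1 | h1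
    · exact Or.inl ((hker a).1 h1)
    · exact Or.inr ((hker b).1 h1)

/-- a nonzero coefficient -/
theorem exists_coeff [Nontrivial P] (hn : 0 < n) (hH : IsCab n m H) {f : AdjoinRoot H} (hf : f ≠ 0) :
    ∃ r : P, r ≠ 0 ∧ ∀ (P' : Type) [CommRing P'] [Nontrivial P'] (φ : P →+* P') (H' : P'[X][X])
      (hH' : H.map (mapRingHom φ) = H') (q : P'), cst H' q ∣ rootMap (mapRingHom φ) H H' hH' f →
        q ∣ φ r := by
  obtain ⟨Z, hZ, rfl⟩ := exists_red hn hH f
  have hZ0 : Z ≠ 0 := by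
    rintro rfl
    rw [map_zero] at hf
    exact hf rfl
  obtain ⟨j, i, hij⟩ : ∃ j i, (Z.coeff j).coeff i ≠ 0 := by
    by_contra h
    push Not at h
    apply hZ0
    ext j i
    exact h j i
  refine ⟨_, hij, ?_⟩
  intro P' _ _ φ H' hH' q h
  subst hH'
  rw [rootMap_mk, cst_dvd_iff hn (hH.map φ) q (lt_of_le_of_lt natDegree_map_le hZ), cc_dvd] at h
  have h1 := h i j
  rwa [coeff_map, coe_mapRingHom, coeff_map] at h1

end

end Pool.Agent.Run7.h954.CP
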