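import Pool.Agent.Run7.h954.CP.Cnt
import Pool.Agent.Run7.h954.CP.Lc
import Pool.Agent.Run7.h954.CP.Cc

/-!
# Scaling of the polynomials `y^n - x^m + ...`
-/

set_option autoImplicit false
set_option linter.all false
set_option maxHeartbeats 1000000

open Polynomial

namespace Pool.Agent.Run7.h954.CP

section
variable {R S : Type} [CommRing R] [CommRing S]

/-- the substitution `x ↦ a x`, `y ↦ b y` -/
noncomputable def sbs (a b : R) : R[X][X] →+* R[X][X] :=
  (compRingHom (C (C b) * X)).comp (mapRingHom (compRingHom (C a * X)))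

theorem sbs_coeff (a b : R) (H : R[X][X]) (i j : ℕ) :
    ((sbs a b H).coeff j).coeff i = a ^ i * b ^ j * (H.coeff j).coeff i := by
  unfold sbs
  rw [RingHom.comp_apply, coe_compRingHom_apply, comp_C_mul_X_coeff, coe_mapRingHom, coeff_map,
    coe_compRingHom_apply, ← C_pow, coeff_mul_C, comp_C_mul_X_coeff]
  ring

theorem sbs_C (a b : R) (κ : R) : sbs a b (C (C κ)) = C (C κ) := by
  ext j i
  rw [sbs_coeff, coeff_C]
  split_ifs with h
  · subst h
    rw [coeff_C]
    split_ifs with h'
    · subst h'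
      ring
    · ring
  · rw [coeff_zero, mul_zero]

theorem sbs_sbs (a b a' b' : R) (H : R[X][X]) : sbs a b (sbs a' b' H) = sbs (a * a') (b * b') H := by
  ext j i
  rw [sbs_coeff, sbs_coeff, sbs_coeff, mul_pow, mul_pow]
  ring

theorem sbs_one (H : R[X][X]) : sbs (1 : R) 1 H = H := by
  ext j i
  rw [sbs_coeff, one_pow, one_pow, one_mul, one_mul]

/-- the substitution as an isomorphism -/
noncomputable def sbsE (a b a' b' : R) (ha : a * a' = 1) (hb : b * b' = 1) : R[X][X] ≃+* R[X][X] where
  toFun := sbs a b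
  invFun := sbs a' b'
  left_inv H := by
    rw [sbs_sbs, mul_comm a' a, mul_comm b' b, ha, hb, sbs_one]
  right_inv H := by
    rw [sbs_sbs, ha, hb, sbs_one]
  map_mul' := map_mul _
  map_add' := map_add _

theorem sbs_map (φ : R →+* S) (a b : R) (H : R[X][X]) :
    (sbs a b H).map (mapRingHom φ) = sbs (φ a) (φ b) (H.map (mapRingHom φ)) := by
  ext j i
  rw [coeff_map, coe_mapRingHom, coeff_map, sbs_coeff, sbs_coeff, coeff_map, coe_mapRingHom, coeff_map,
    map_mul, map_mul, map_pow, map_pow]

theorem eval_sbs (a b x y : R) (H : R[X][X]) : evalEval x y (sbs a b H) = evalEval (a * x) (b * y) H := by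
  have h : (evalEvalRingHom x y).comp (sbs a b) = evalEvalRingHom (a * x) (b * y) := by
    apply Polynomial.ringHom_ext
    · intro p
      have h1 : ((evalEvalRingHom x y).comp (sbs a b)).comp C = (evalEvalRingHom (a * x) (b * y)).comp C := by
        apply Polynomial.ringHom_ext
        · intro κ
          show evalEval x y (sbs a b (C (C κ))) = evalEval (a * x) (b * y) (C (C κ))
          rw [sbs_C, evalEval_C, evalEval_C, eval_C, eval_C]
        · show evalEval x y (sbs a b (C X)) = evalEval (a * x) (b * y) (C X)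
          have h2 : sbs a b (C X) = C (C a * X) := by
            unfold sbs
            rw [RingHom.comp_apply, coe_mapRingHom, map_C, coe_compRingHom_apply, C_comp,
              coe_compRingHom_apply, X_comp]
          rw [h2, evalEval_C, evalEval_C, eval_mul, eval_C, eval_X, eval_X]
      exact congrArg (fun f : R[X] →+* R => f p) h1
    · show evalEval x y (sbs a b X) = evalEval (a * x) (b * y) X
      have h2 : sbs a b X = C (C b) * X := by
        unfold sbs
        rw [RingHom.comp_apply, coe_mapRingHom, map_X, coe_compRingHom_apply, X_comp]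
      rw [h2, evalEval_mul, evalEval_C, eval_C, evalEval_X, evalEval_X]
  exact congrArg (fun f : R[X][X] →+* R => f H) h

variable (n m : ℕ)

/-- the scaling; `l'` is the inverse of `l` -/
noncomputable def scl (l l' : R) (H : R[X][X]) : R[X][X] := C (C (l ^ (n * m))) * sbs (l' ^ n) (l' ^ m) H

variable {n m}

theorem scl_coeff (l l' : R) (H : R[X][X]) (i j : ℕ) :
    ((scl n m l l' H).coeff j).coeff i = l ^ (n * m) * l' ^ (n * i + m * j) * (H.coeff j).coeff i := by
  unfold scl
  rw [coeff_C_mul, coeff_C_mul, sbs_coeff, ← pow_mul, ← pow_mul, pow_add]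
  ring

theorem scl_map (φ : R →+* S) (l l' : R) (H : R[X][X]) :
    (scl n m l l' H).map (mapRingHom φ) = scl n m (φ l) (φ l') (H.map (mapRingHom φ)) := by
  ext j i
  rw [coeff_map, coe_mapRingHom, coeff_map, scl_coeff, scl_coeff, coeff_map, coe_mapRingHom, coeff_map,
    map_mul, map_mul, map_pow, map_pow]

theorem scl_EE (hn : 0 < n) {l l' : R} (h : l * l' = 1) : scl n m l l' (EE R n m) = EE R n m := by
  ext j i
  rw [scl_coeff]
  by_cases h1 : ((EE R n m).coeff j).coeff i = 0
  · rw [h1, mul_zero]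
  · rw [EE_coeff hn i j h1, ← mul_pow, h, one_pow, one_mul]

theorem scl_sub (l l' : R) (H H' : R[X][X]) : scl n m l l' (H - H') = scl n m l l' H - scl n m l l' H' := by
  unfold scl
  rw [map_sub, mul_sub]

theorem scl_add (l l' : R) (H H' : R[X][X]) : scl n m l l' (H + H') = scl n m l l' H + scl n m l l' H' := by
  unfold scl
  rw [map_add, mul_add]

theorem IsLow.scl {H : R[X][X]} (h : IsLow n m H) (l l' : R) : IsLow n m (scl n m l l' H) := by
  intro i j hc
  rw [scl_coeff] at hc
  exact h i j (right_ne_zero_of_mul hc)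

theorem IsCab.scl (hn : 0 < n) {H : R[X][X]} (h : IsCab n m H) {l l' : R} (hl : l * l' = 1) :
    IsCab n m (scl n m l l' H) := by
  have h1 := IsLow.scl h l l'
  rw [scl_sub, scl_EE hn hl] at h1
  exact h1

end

section
variable {F : Type} [Field F]

/-- the number of the points does not change -/
theorem trc2_scl {n m : ℕ} {l l' : F} (hl : l * l' = 1) (H : F[X][X]) :
    trc2 F (scl n m l l' H) = trc2 F H := by
  unfold trc2
  congr 2
  have hl0 : l ≠ 0 := left_ne_zero_of_mul_eq_one hl
  have hl0' : l' ≠ 0 := right_ne_zero_of_mul_eq_one hl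
  have hev : ∀ x y : F, evalEval x y (scl n m l l' H) = 0 ↔ evalEval (l' ^ n * x) (l' ^ m * y) H = 0 := by
    intro x y
    unfold scl
    rw [evalEval_mul, evalEval_C, eval_C, eval_sbs]
    constructor
    · intro h
      exact (mul_eq_zero.1 h).resolve_left (pow_ne_zero _ hl0)
    · intro h
      rw [h, mul_zero]
  refine Nat.card_congr
    { toFun := fun z => ⟨(l' ^ n * z.1.1, l' ^ m * z.1.2), (hev _ _).1 z.2⟩
      invFun := fun z => ⟨(l ^ n * z.1.1, l ^ m * z.1.2), by
        rw [hev, ← mul_assoc, ← mul_assoc, ← mul_pow, ← mul_pow, mul_comm l' l, hl, one_pow, one_pow,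
          one_mul, one_mul]
        exact z.2⟩
      left_inv := fun z => by
        apply Subtype.ext
        refine Prod.ext ?_ ?_
        · show l ^ n * (l' ^ n * z.1.1) = z.1.1
          rw [← mul_assoc, ← mul_pow, hl, one_pow, one_mul]
        · show l ^ m * (l' ^ m * z.1.2) = z.1.2
          rw [← mul_assoc, ← mul_pow, hl, one_pow, one_mul]
      right_inv := fun z => by
        apply Subtype.ext
        refine Prod.ext ?_ ?_
        · show l' ^ n * (l ^ n * z.1.1) = z.1.1
          rw [← mul_assoc, ← mul_pow, mul_comm l' l, hl, one_pow, one_mul]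
        · show l' ^ m * (l ^ m * z.1.2) = z.1.2
          rw [← mul_assoc, ← mul_pow, mul_comm l' l, hl, one_pow, one_mul] }

end

section
variable {K : Type} [Field K] {n m : ℕ}

theorem span_scl {l l' : K} (hl : l * l' = 1) (H : K[X][X]) :
    (Ideal.span {scl n m l l' H} : Ideal K[X][X]) = (Ideal.span {H}).map
      ((sbsE (l' ^ n) (l' ^ m) (l ^ n) (l ^ m) (by rw [← mul_pow, mul_comm l' l, hl, one_pow])
        (by rw [← mul_pow, mul_comm l' l, hl, one_pow]) : K[X][X] ≃+* K[X][X]) : K[X][X] →+* K[X][X]) := by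
  rw [Ideal.map_span, Set.image_singleton]
  have hu : IsUnit (C (C (l ^ (n * m))) : K[X][X]) :=
    ((isUnit_iff_ne_zero.2 (pow_ne_zero _ (left_ne_zero_of_mul_eq_one hl))).map C).map C
  exact Ideal.span_singleton_mul_left_unit hu _

/-- the isomorphism of the coordinate rings -/
noncomputable def sclE {l l' : K} (hl : l * l' = 1) (H : K[X][X]) :
    AdjoinRoot H ≃+* AdjoinRoot (scl n m l l' H) :=
  Ideal.quotientEquiv (Ideal.span {H}) (Ideal.span {scl n m l l' H})
    (sbsE (l' ^ n) (l' ^ m) (l ^ n) (l ^ m) (by rw [← mul_pow, mul_comm l' l, hl, one_pow])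
        (by rw [← mul_pow, mul_comm l' l, hl, one_pow])) (span_scl hl H)

theorem sclE_C {l l' : K} (hl : l * l' = 1) (H : K[X][X]) (κ : K) :
    sclE (n := n) (m := m) hl H (cst H κ) = cst (scl n m l l' H) κ := by
  show Ideal.quotientEquiv _ _ _ _ (Ideal.Quotient.mk (Ideal.span {H}) (C (C κ))) = _
  rw [Ideal.quotientEquiv_mk]
  show Ideal.Quotient.mk _ (sbs _ _ (C (C κ))) = _
  rw [sbs_C]
  rfl

end

section
variable {P K : Type} [CommRing P] [IsDomain P] [Field K] {φ : P →+* K}

/-- a common denominator -/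
theorem exists_den (hφ : IsLoc (nonZeroDivisors P) φ) (s : Finset K) :
    ∃ l : P, l ≠ 0 ∧ ∀ z ∈ s, ∃ y, φ y = φ l * z := by
  classical
  induction s using Finset.induction_on with
  | empty => exact ⟨1, one_ne_zero, fun z hz => absurd hz (Finset.notMem_empty z)⟩
  | insert a s ha ih =>
    obtain ⟨l, hl, h⟩ := ih
    obtain ⟨t, ht, y, hy⟩ := hφ.den a
    refine ⟨t * l, mul_ne_zero (nonZeroDivisors.ne_zero ht) hl, ?_⟩
    intro z hz
    rcases Finset.mem_insert.1 hz with rfl | hz
    · exact ⟨y * l, by rw [map_mul, ← hy, map_mul]; ring⟩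
    · obtain ⟨y', hy'⟩ := h z hz
      exact ⟨t * y', by rw [map_mul, hy', map_mul]; ring⟩

/-- the lift of a polynomial -/
theorem exists_lift (f : P →+* K) (L : K[X][X]) (h : ∀ i j, ∃ y, f y = (L.coeff j).coeff i) :
    ∃ L₀ : P[X][X], L₀.map (mapRingHom f) = L := by
  have h1 : L ∈ lifts (mapRingHom f) := by
    rw [lifts_iff_coeff_lifts]
    intro j
    have h2 : L.coeff j ∈ lifts f := by
      rw [lifts_iff_coeff_lifts]
      intro i
      exact h i j
    exact h2
  exact h1

/-- **Integral models.** -/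
theorem exists_int {n m : ℕ} (hn : 0 < n) (hφ : IsLoc (nonZeroDivisors P) φ) (hi : Function.Injective φ)
    {H : K[X][X]} (hH : IsCab n m H) : ∃ (l : P) (H₀ : P[X][X]), l ≠ 0 ∧ IsCab n m H₀ ∧
      H₀.map (mapRingHom φ) = scl n m (φ l) (φ l)⁻¹ H := by
  classical
  set L := H - EE K n m with hL
  obtain ⟨l, hl, hden⟩ := exists_den hφ
    (L.support.biUnion fun j => (L.coeff j).support.image (L.coeff j).coeff)
  have hl0 : φ l ≠ 0 := (map_ne_zero_iff _ hi).2 hl
  have hlow : IsLow n m L := hH
  obtain ⟨L₀, hL₀⟩ := exists_lift φ (scl n m (φ l) (φ l)⁻¹ L) (by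
    intro i j
    rw [scl_coeff]
    by_cases h0 : (L.coeff j).coeff i = 0
    · exact ⟨0, by rw [h0, mul_zero, map_zero]⟩
    · have h1 := hlow i j h0
      obtain ⟨y, hy⟩ := hden ((L.coeff j).coeff i) (by
        rw [Finset.mem_biUnion]
        refine ⟨j, ?_, ?_⟩
        · rw [mem_support_iff]
          intro h2
          rw [h2, coeff_zero] at h0
          exact h0 rfl
        · rw [Finset.mem_image]
          exact ⟨i, mem_support_iff.2 h0, rfl⟩)
      refine ⟨l ^ (n * m - (n * i + m * j) - 1) * y, ?_⟩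
      rw [map_mul, map_pow, hy, ← mul_assoc, ← pow_succ]
      congr 1
      have h2 : n * m - (n * i + m * j) - 1 + 1 = n * m - (n * i + m * j) := by omega
      rw [h2, inv_pow]
      rw [eq_mul_inv_iff_mul_eq₀ (pow_ne_zero _ hl0), ← pow_add]
      congr 1
      omega)
  refine ⟨l, EE P n m + L₀, hl, ?_, ?_⟩
  · show IsLow n m (EE P n m + L₀ - EE P n m)
    rw [add_sub_cancel_left]
    apply IsLow.of_map φ hi
    rw [hL₀]
    exact hlow.scl _ _
  · rw [Polynomial.map_add, EE_map, hL₀, hL, scl_sub, scl_EE hn (mul_inv_cancel₀ hl0)]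
    ring

end

end Pool.Agent.Run7.h954.CP
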