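import Pool.Agent.Run7.h954.CP.Cnt
import Pool.Agent.R410.NG.Asy
import Pool.Agent.R410.NG.Tr2
import Pool.Agent.R410.BS.Cod2
import Pool.Agent.TH958.An.Pts

/-!
# The sums of the traces for two models
-/

set_option autoImplicit false
set_option linter.all false
set_option maxHeartbeats 1000000

open Polynomial

namespace Pool.Agent.Run7.h954.CP

open Pool.Agent.R410.NG (Asy Ff finsum_sub)
open Pool.Agent.R410.BS (transfer_equiv good_le hom_le)

section
variable {R : Type} [CommRing R] [Algebra.FiniteType ℤ R]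

open Classical in
theorem sC_sum (G : R[X][X]) (N : R) (F : Type) [Field F] [Fintype (R →+* F)] :
    sC G N F = ∑ φ : R →+* F, if φ N ≠ 0 then trc2 F (G.map (mapRingHom φ)) else 0 :=
  finsum_sub (fun φ : R →+* F => φ N ≠ 0) (fun φ => trc2 F (G.map (mapRingHom φ)))

/-- the points outside a closed subset -/
theorem part_le {G : R[X][X]} {c : ℝ} (hc : ∀ (F : Type) [Field F] [Finite F] (φ : R →+* F),
      |trc2 F (G.map (mapRingHom φ))| ≤ c * √(Nat.card F : ℝ)) {N r : R} (hN : N ∣ r)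
    (F : Type) [Field F] [Finite F] :
    |sC G N F - sC G r F| ≤ Nat.card {φ : R →+* F // φ r = 0} * (c * √(Nat.card F : ℝ)) := by
  classical
  let _ : Fintype (R →+* F) := Fintype.ofFinite _
  rw [sC_sum, sC_sum, ← Finset.sum_sub_distrib]
  refine (Finset.abs_sum_le_sum_abs _ _).trans ?_
  have h2 : ∀ φ : R →+* F, |(if φ N ≠ 0 then trc2 F (G.map (mapRingHom φ)) else 0) -
      (if φ r ≠ 0 then trc2 F (G.map (mapRingHom φ)) else 0)| ≤
      if φ r = 0 then c * √(Nat.card F : ℝ) else 0 := by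
    intro φ
    have h0 := hc F φ
    have hcs : 0 ≤ c * √(Nat.card F : ℝ) := (abs_nonneg _).trans h0
    by_cases hr : φ r = 0
    · rw [if_pos hr, if_neg (not_not.2 hr), sub_zero]
      split_ifs
      · exact h0
      · rw [abs_zero]
        exact hcs
    · have hNn : φ N ≠ 0 := by
        obtain ⟨t, ht⟩ := hN
        intro h
        apply hr
        rw [ht, map_mul, h, zero_mul]
      rw [if_neg hr, if_pos hr, if_pos hNn, sub_self, abs_zero]
  refine (Finset.sum_le_sum fun φ _ => h2 φ).trans (le_of_eq ?_)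
  rw [← Finset.sum_filter, Finset.sum_const, nsmul_eq_mul, ← Fintype.card_subtype,
    ← Nat.card_eq_fintype_card]

end

section
variable {R B K : Type} [CommRing R] [IsDomain R] [CommRing B] [IsDomain B] [Field K]
  [CharZero K] [Algebra R K] [IsFractionRing R K] [Algebra B K] [IsFractionRing B K]
  [Algebra.FiniteType ℤ R] [Algebra.FiniteType ℤ B]

/-- **The sums of the traces for two models of the same curve.** -/
theorem transfer_sC {e : ℕ} (he : Algebra.trdeg ℚ K ≤ e) {G : R[X][X]} {G' : B[X][X]}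
    (hgg : G.map (mapRingHom (algebraMap R K)) = G'.map (mapRingHom (algebraMap B K))) {c c' : ℝ}
    (hc0 : 0 ≤ c) (hc0' : 0 ≤ c')
    (hc : ∀ (F : Type) [Field F] [Finite F] (φ : R →+* F),
      |trc2 F (G.map (mapRingHom φ))| ≤ c * √(Nat.card F : ℝ))
    (hc' : ∀ (F : Type) [Field F] [Finite F] (φ : B →+* F),
      |trc2 F (G'.map (mapRingHom φ))| ≤ c' * √(Nat.card F : ℝ))
    {N : R} (hN : N ≠ 0) {N' : B} (hN' : N' ≠ 0) :
    ∃ (C : ℝ) (m : ℕ), 0 ≤ C ∧ m ≠ 0 ∧ ∀ (F : Type) [Field F] [Finite F], ((m : ℕ) : F) ≠ 0 →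
      |sC G N F - sC G' N' F| * √(Nat.card F : ℝ) ≤ C * (Nat.card F : ℝ) ^ e := by
  classical
  have hiR : Function.Injective (algebraMap R K) := IsFractionRing.injective R K
  have hiB : Function.Injective (algebraMap B K) := IsFractionRing.injective B K
  let v : ℕ × ℕ → R := fun z => (G.coeff z.2).coeff z.1
  let v' : ℕ × ℕ → B := fun z => (G'.coeff z.2).coeff z.1
  have hv : ∀ i, algebraMap R K (v i) = algebraMap B K (v' i) := by
    intro z
    have h1 := congrArg (fun p : K[X][X] => (p.coeff z.2).coeff z.1) hgg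
    simp only [coeff_map, coe_mapRingHom] at h1
    exact h1
  obtain ⟨u, b, hu0, hb0, hNu, hNb, hbij⟩ := transfer_equiv v v' hv N hN N' hN'
  obtain ⟨C1, N1, hC1, hN1, g1⟩ := good_le (R := R) (K := K) hiR he hu0
  obtain ⟨C2, N2, hC2, hN2, g2⟩ := good_le (R := B) (K := K) hiB he hb0
  refine ⟨c * C1 + c' * C2, N1 * N2, add_nonneg (mul_nonneg hc0 hC1) (mul_nonneg hc0' hC2),
    mul_ne_zero hN1 hN2, ?_⟩
  intro F _ _ hm
  rw [Nat.cast_mul] at hm
  have c1 := (g1 F (left_ne_zero_of_mul hm)).2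
  have c2 := (g2 F (right_ne_zero_of_mul hm)).2
  obtain ⟨E, hE⟩ := hbij F
  have hpoly : ∀ (φ : {φ : R →+* F // φ u ≠ 0}), G.map (mapRingHom φ.1) = G'.map (mapRingHom (E φ).1) := by
    intro φ
    ext j i
    rw [coeff_map, coeff_map, coe_mapRingHom, coe_mapRingHom, coeff_map, coeff_map]
    exact hE φ (i, j)
  have hS : sC G u F = sC G' b F := by
    unfold sC
    let _ : Fintype {φ : R →+* F // φ u ≠ 0} := Fintype.ofFinite _
    let _ : Fintype {φ : B →+* F // φ b ≠ 0} := Fintype.ofFinite _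
    rw [finsum_eq_sum_of_fintype, finsum_eq_sum_of_fintype]
    refine Fintype.sum_equiv E _ _ fun φ => ?_
    rw [hpoly φ]
  have p1 := part_le hc hNu F
  have p2 := part_le hc' hNb F
  rw [hS] at p1
  set q : ℝ := (Nat.card F : ℝ) with hq
  have hs0 : 0 ≤ √q := Real.sqrt_nonneg _
  have hss : √q * √q = q := Real.mul_self_sqrt (Nat.cast_nonneg _)
  calc |sC G N F - sC G' N' F| * √q
      ≤ (|sC G N F - sC G' b F| + |sC G' N' F - sC G' b F|) * √q := by
        refine mul_le_mul_of_nonneg_right ?_ hs0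
        rw [abs_sub_comm (sC G' N' F)]
        exact abs_sub_le _ _ _
    _ ≤ (Nat.card {φ : R →+* F // φ u = 0} * (c * √q) +
        Nat.card {φ : B →+* F // φ b = 0} * (c' * √q)) * √q :=
        mul_le_mul_of_nonneg_right (add_le_add p1 p2) hs0
    _ = c * (Nat.card {φ : R →+* F // φ u = 0} * (√q * √q)) +
        c' * (Nat.card {φ : B →+* F // φ b = 0} * (√q * √q)) := by ring
    _ ≤ c * (C1 * q ^ e) + c' * (C2 * q ^ e) := by
        rw [hss]
        exact add_le_add (mul_le_mul_of_nonneg_left c1 hc0) (mul_le_mul_of_nonneg_left c2 hc0')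
    _ = (c * C1 + c' * C2) * q ^ e := by ring

end

end Pool.Agent.Run7.h954.CP
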