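import Pool.Agent.Run7.h954.CP.Wt
import Pool.Agent.R410.PW.Weil

/-!
# Piece WEIL (helper690): the Weil bound for the curves `C_ab` over finite fields
-/

set_option autoImplicit false
set_option linter.all false

open Polynomial

namespace Pool.Agent.Run7.h954.CP

namespace WeilC

theorem det_natDegree {A : Type} [CommRing A] {n B : ℕ} (M : Matrix (Fin n) (Fin n) A[X])
    (hM : ∀ i j, (M i j).natDegree ≤ B) : M.det.natDegree ≤ n * B := by
  rw [Matrix.det_apply]
  refine natDegree_sum_le_of_forall_le _ _ fun σ _ => ?_
  refine (natDegree_smul_le _ _).trans ?_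
  refine (natDegree_prod_le _ _).trans ?_
  refine (Finset.sum_le_card_nsmul _ _ B fun i _ => hM _ _).trans ?_
  simp

theorem weil_one {n m : ℕ} (hn : 0 < n) (hm : 0 < m) (hcop : n.Coprime m) (F : Type) [Field F] [Finite F]
    (H : F[X][X]) (hH : IsCab n m H) (hnF : (n : F) ≠ 0) :
    |(Nat.card F : ℝ) - Nat.card {z : F × F // evalEval z.1 z.2 H = 0}| ≤
      (R410.PW.WC n m (2 * n * m) : ℝ) * √(Nat.card F : ℝ) := by
  classical
  obtain ⟨hfm, hfd⟩ := hH.monic hn
  set φ := algebraMap F[X] (RatFunc F) with hφ
  have hφi : Function.Injective φ := IsFractionRing.injective F[X] (RatFunc F)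
  have hirr : Irreducible (H.map (mapRingHom (algebraMap F (AlgebraicClosure F)))) :=
    (cab_prime hn hcop (hH.map _)).irreducible
  have hirrk : Irreducible H := (cab_prime hn hcop hH).irreducible
  have hirrK : Irreducible (H.map φ) :=
    (hfm.irreducible_iff_irreducible_map_fraction_map (K := RatFunc F)).1 hirrk
  have hco0 : ∀ j, (H.coeff j).natDegree ≤ m := by
    intro j
    rw [natDegree_le_iff_coeff_eq_zero]
    intro i hi
    by_contra h0
    have h1 := hH.le hn h0
    have h2 : n * m < n * i := Nat.mul_lt_mul_of_pos_left hi hn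
    omega
  have hder : derivative H ≠ 0 := by
    intro h0
    have h1 := congrArg (fun p => coeff p (n - 1)) h0
    simp only [coeff_derivative, coeff_zero] at h1
    rw [show n - 1 + 1 = n by omega] at h1
    have h3 : H.coeff n = 1 := by
      have := hfm.leadingCoeff
      rwa [leadingCoeff, hfd] at this
    rw [h3, one_mul] at h1
    have h2 : ((n : ℕ) : F[X]) = 0 := by
      rw [← h1]
      push_cast [Nat.cast_sub (show 1 ≤ n from hn)]
      ring
    rw [← C_eq_natCast, C_eq_zero] at h2
    exact hnF h2
  have hsep : (H.map φ).Separable := by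
    rw [separable_iff_derivative_ne_zero hirrK, derivative_map]
    rw [Ne, Polynomial.map_eq_zero_iff hφi]
    exact hder
  set e := (derivative H).natDegree with he
  have heD : e ≤ n := (natDegree_derivative_le H).trans (by omega)
  obtain ⟨δ, hδ⟩ : ∃ δ, δ = resultant H (derivative H) n e := ⟨_, rfl⟩
  have hδ0 : δ ≠ 0 := by
    intro h0
    have h1 := resultant_ne_zero (H.map φ) ((derivative H).map φ) (by
      rw [← derivative_map]; exact hsep)
    rw [natDegree_map_eq_of_injective hφi, natDegree_map_eq_of_injective hφi, hfd, ← he,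
      resultant_map_map, ← hδ, h0, map_zero] at h1
    exact h1 rfl
  obtain ⟨p, q, -, -, hpq⟩ := exists_mul_add_mul_eq_C_resultant (m := n) (n := e) H (derivative H)
    hfd.le le_rfl (Or.inl (by omega))
  rw [← hδ] at hpq
  have hco : ∀ j, ((derivative H).coeff j).natDegree ≤ m := by
    intro j
    rw [coeff_derivative]
    have : ((j : F[X]) + 1) = C ((j : F) + 1) := by simp
    rw [this]
    exact (natDegree_mul_C_le _ _).trans (hco0 _)
  have hδd : δ.natDegree ≤ 2 * n * m := by
    rw [hδ, resultant]
    refine (det_natDegree (B := m) _ ?_).trans ?_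
    · intro i j
      rw [sylvester, Matrix.of_apply]
      refine Fin.addCases (fun j => ?_) (fun j => ?_) j
      · rw [Fin.addCases_left]
        split_ifs
        · exact hco _
        · simp
      · rw [Fin.addCases_right]
        split_ifs
        · exact hco0 _
        · simp
    · exact Nat.mul_le_mul_right _ (by omega)
  have hAB : p * H + q * derivative H = C δ := by rw [← hpq]; ring
  have hw := R410.PW.weil (AlgebraicClosure F) hfm (by omega) hAB hδ0 hδd (d := m) hco0 hirr
  rw [hfd] at hw
  have hc : Nat.card {z : F × F // evalEval z.1 z.2 H = 0} =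
      {z : F × F | evalEval z.1 z.2 H = 0}.ncard := rfl
  rw [hc, abs_sub_comm]
  exact hw

end WeilC

theorem swap_coeff' {R : Type*} [CommRing R] (P : R[X][X]) (i j : ℕ) :
    ((Bivariate.swap P).coeff i).coeff j = (P.coeff j).coeff i := by
  induction P using Polynomial.induction_on' with
  | add p q hp hq => rw [map_add]; simp only [coeff_add]; rw [hp, hq]
  | monomial a p =>
    induction p using Polynomial.induction_on' with
    | add p q hp hq => rw [map_add, map_add]; simp only [coeff_add]; rw [hp, hq]
    | monomial b r =>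
      rw [Bivariate.swap_monomial_monomial]
      simp only [coeff_monomial]
      by_cases h1 : a = j <;> by_cases h2 : b = i <;> simp [h1, h2, coeff_monomial]

theorem swap_EE' {R : Type*} [CommRing R] (n m : ℕ) : -Bivariate.swap (EE R n m) = EE R m n := by
  unfold EE
  rw [map_sub, map_pow, Bivariate.swap_Y, Bivariate.swap_C, Polynomial.map_pow, map_X, C_pow]
  ring

theorem IsCab.swap_neg' {R : Type*} [CommRing R] {n m : ℕ} {P : R[X][X]} (h : IsCab n m P) :
    IsCab m n (-Bivariate.swap P) := by
  have h1 : IsLow m n (-Bivariate.swap (P - EE R n m)) := by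
    intro i j hc
    rw [coeff_neg, coeff_neg, swap_coeff'] at hc
    have := h j i (fun h0 => hc (by rw [h0, neg_zero]))
    rw [mul_comm m n]
    omega
  unfold IsCab
  rw [← swap_EE']
  rw [map_sub] at h1
  convert h1 using 1
  ring

theorem evalEval_swap {R : Type*} [CommRing R] (x y : R) (P : R[X][X]) :
    evalEval x y (Bivariate.swap P) = evalEval y x P := by
  induction P using Polynomial.induction_on' with
  | add p q hp hq => rw [map_add, evalEval_add, evalEval_add, hp, hq]
  | monomial a p =>
    induction p using Polynomial.induction_on' with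
    | add p q hp hq => rw [map_add, map_add, evalEval_add, evalEval_add, hp, hq]
    | monomial b r =>
      rw [Bivariate.swap_monomial_monomial]
      simp only [evalEval, eval_monomial, eval_mul, eval_pow, eval_C]
      ring

theorem weil_cab {n m : ℕ} (hn : 0 < n) (hm : 0 < m) (hcop : n.Coprime m) :
    ∃ c : ℝ, 0 ≤ c ∧ ∀ (F : Type) [Field F] [Finite F] (H : F[X][X]), IsCab n m H →
      |(Nat.card F : ℝ) - Nat.card {z : F × F // evalEval z.1 z.2 H = 0}| ≤ c * √(Nat.card F : ℝ) := by
  refine ⟨(R410.PW.WC n m (2 * n * m) : ℝ) + R410.PW.WC m n (2 * m * n), by positivity, ?_⟩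
  intro F _ _ H hH
  have hs : 0 ≤ √(Nat.card F : ℝ) := Real.sqrt_nonneg _
  by_cases hnF : (n : F) = 0
  · have hmF : (m : F) ≠ 0 := by
      intro hmF
      have h1 : ringChar F ∣ n := (ringChar.spec F n).1 hnF
      have h2 : ringChar F ∣ m := (ringChar.spec F m).1 hmF
      have h3 : ringChar F ∣ 1 := by rw [← hcop.gcd_eq_one]; exact Nat.dvd_gcd h1 h2
      have h4 : ringChar F = 1 := Nat.dvd_one.1 h3
      exact CharP.ringChar_ne_one h4
    have h1 := WeilC.weil_one hm hn hcop.symm F (-Bivariate.swap H) hH.swap_neg' hmF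
    have h2 : Nat.card {z : F × F // evalEval z.1 z.2 (-Bivariate.swap H) = 0} =
        Nat.card {z : F × F // evalEval z.1 z.2 H = 0} := by
      refine Nat.card_congr ((Equiv.prodComm F F).subtypeEquiv ?_)
      rintro ⟨a, b⟩
      simp only [Equiv.prodComm_apply, Prod.fst_swap, Prod.snd_swap]
      rw [evalEval_neg, neg_eq_zero, evalEval_swap]
    rw [h2] at h1
    refine h1.trans (mul_le_mul_of_nonneg_right ?_ hs)
    have : (0 : ℝ) ≤ R410.PW.WC n m (2 * n * m) := by positivity
    linarith
  · have h1 := WeilC.weil_one hn hm hcop F H hH hnF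
    refine h1.trans (mul_le_mul_of_nonneg_right ?_ hs)
    have : (0 : ℝ) ≤ R410.PW.WC m n (2 * m * n) := by positivity
    linarith

end Pool.Agent.Run7.h954.CP
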