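import Pool.Agent.Run7.h954.CP.Core
import Pool.Agent.Run7.h954.CP.Scl
import Pool.Agent.Run7.h954.CP.Trf
import Pool.Agent.Run7.h954.CP.Ded
import Pool.Agent.Run7.h954.CP.WeilC
import Pool.Agent.R410.BA.Fin

/-!
# The rank and the sums of the traces for every model
-/

set_option autoImplicit false
set_option linter.all false
set_option maxHeartbeats 1000000

open Polynomial

namespace Pool.Agent.Run7.h954.CP

open Pool.Agent.R410.NG (Asy Ff)
open Pool.Agent.R410.LW (ft_int FG)

/-- a model which contains two models and finitely many elements -/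
theorem exists_top {R B K : Type} [CommRing R] [CommRing B] [Field K] [Algebra R K]
    [IsFractionRing R K] [Algebra B K] [Algebra.FiniteType ℤ R] [Algebra.FiniteType ℤ B]
    (T : Finset K) : ∃ (C : Type) (_ : CommRing C) (_ : IsDomain C) (_ : Algebra C K)
      (_ : IsFractionRing C K) (_ : Algebra.FiniteType ℤ C) (ι : R →+* C) (κ : B →+* C),
      (∀ x, algebraMap C K (ι x) = algebraMap R K x) ∧ (∀ y, algebraMap C K (κ y) = algebraMap B K y) ∧
      ∀ t ∈ T, ∃ c : C, algebraMap C K c = t := by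
  classical
  let fR : R →ₐ[ℤ] K := (algebraMap R K).toIntAlgHom
  let fB : B →ₐ[ℤ] K := (algebraMap B K).toIntAlgHom
  let C : Subalgebra ℤ K := (fR.range ⊔ fB.range) ⊔ Algebra.adjoin ℤ (T : Set K)
  have hRfg : fR.range.FG := by
    rw [← Algebra.map_top]
    exact ((Algebra.FiniteType.out : (⊤ : Subalgebra ℤ R).FG)).map fR
  have hBfg : fB.range.FG := by
    rw [← Algebra.map_top]
    exact ((Algebra.FiniteType.out : (⊤ : Subalgebra ℤ B).FG)).map fB
  have hCfg : C.FG := (hRfg.sup hBfg).sup ⟨T, rfl⟩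
  have hCft : Algebra.FiniteType ℤ C := C.fg_iff_finiteType.1 hCfg
  have hR : ∀ x : R, algebraMap R K x ∈ C := fun x =>
    (le_sup_left.trans le_sup_left : fR.range ≤ C) ⟨x, rfl⟩
  have hB : ∀ x : B, algebraMap B K x ∈ C := fun x =>
    (le_sup_right.trans le_sup_left : fB.range ≤ C) ⟨x, rfl⟩
  have hT : ∀ t ∈ T, t ∈ C := fun t ht =>
    (le_sup_right : Algebra.adjoin ℤ (T : Set K) ≤ C) (Algebra.subset_adjoin ht)
  have hfrac : IsFractionRing C K := by
    refine IsFractionRing.of_field C K fun z => ?_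
    obtain ⟨a, b, -, rfl⟩ := IsFractionRing.div_surjective (A := R) z
    exact ⟨⟨algebraMap R K a, hR a⟩, ⟨algebraMap R K b, hR b⟩, rfl⟩
  refine ⟨C, inferInstance, inferInstance, inferInstance, hfrac, ft_int _ hCft,
    (algebraMap R K).codRestrict C.toSubring hR, (algebraMap B K).codRestrict C.toSubring hB,
    fun x => rfl, fun x => rfl, fun t ht => ⟨⟨t, hT t ht⟩, rfl⟩⟩

/-- the bound for the traces -/
theorem weil_map {n m : ℕ} (hn : 0 < n) (hm : 0 < m) (hcop : n.Coprime m) : ∃ c : ℝ, 0 ≤ c ∧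
    ∀ (R : Type) [CommRing R] (G : R[X][X]), IsCab n m G → ∀ (F : Type) [Field F] [Finite F]
      (φ : R →+* F), |trc2 F (G.map (mapRingHom φ))| ≤ c * √(Nat.card F : ℝ) := by
  obtain ⟨c, hc, h⟩ := weil_cab hn hm hcop
  exact ⟨c, hc, fun R _ G hG F _ _ φ => h F _ (hG.map φ)⟩

/-- the ring for a finitely generated field -/
theorem exists_A {M : Type} [Field M] (hM : FG M) : ∃ (A₀ : Type) (_ : CommRing A₀) (_ : IsDomain A₀)
    (_ : Algebra A₀ M) (_ : IsFractionRing A₀ M), Algebra.FiniteType ℤ A₀ := by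
  obtain ⟨A, -, hft, hfr⟩ := Pool.Agent.R410.BA.exists_ring hM ∅
  exact ⟨A, inferInstance, inferInstance, inferInstance, hfr, ft_int _ hft⟩

/-- **The rank and the sums of the traces for every model.** -/
theorem rank_asy {M K E : Type} [Field M] [CharZero M] [Field K] [CharZero K] [Field E] [Algebra M K]
    [Algebra K E] [Algebra M E] [IsScalarTower M K E] (hM : FG M)
    {d k : ℕ} {w : Fin (k + 1) → K} {z : Fin (k + 2) → E} {n m : ℕ} {H : K[X][X]}
    (hd : Algebra.trdeg ℚ M = d) (hw : AlgebraicIndependent M w)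
    (hK : IntermediateField.adjoin M (Set.range w) = ⊤)
    (hz : AlgebraicIndependent M z) (hE : IntermediateField.adjoin M (Set.range z) = ⊤)
    (hn : 0 < n) (hm : 0 < m) (hcop : n.Coprime m) (hH : IsCab n m H)
    [IsDedekindDomain (AdjoinRoot H)]
    [Algebra (AdjoinRoot H) E] [IsFractionRing (AdjoinRoot H) E] [IsScalarTower K (AdjoinRoot H) E] :
    ∃ ρ : ℕ, Module.rank ℤ (Additive (ClassGroup (AdjoinRoot H))) = ρ ∧
      ∀ (R : Type) [CommRing R] [IsDomain R] [Algebra R K] [IsFractionRing R K]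
        [Algebra.FiniteType ℤ R] (G : R[X][X]), G.map (mapRingHom (algebraMap R K)) = H →
        ∀ N : R, N ≠ 0 → Asy (fun F _ _ => sC G N F) (d + (k + 1)) (-(ρ : ℝ)) := by
  classical
  obtain ⟨A₀, iA1, iA2, iA3, iA4, hft⟩ := exists_A hM
  have hA : Function.Injective (algebraMap A₀ M) := IsFractionRing.injective A₀ M
  have hφ := evw_loc (A₀ := A₀) hw hK
  have hi : Function.Injective (evw A₀ M w) := evw_inj hA hw
  obtain ⟨l, H₀, hl, hH₀, hHm⟩ := exists_int hn hφ hi hH
  obtain ⟨lK, hlK⟩ : ∃ lK, lK = evw A₀ M w l := ⟨_, rfl⟩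
  rw [← hlK] at hHm
  have hl0 : lK ≠ 0 := by
    rw [hlK]
    exact (map_ne_zero_iff _ hi).2 hl
  have hll : lK * lK⁻¹ = 1 := mul_inv_cancel₀ hl0
  have hdomH' : IsDomain (AdjoinRoot (scl n m lK lK⁻¹ H)) := cab_domain hn hcop (hH.scl hn hll)
  let ε : AdjoinRoot H ≃+* AdjoinRoot (scl n m lK lK⁻¹ H) := sclE hll H
  have hεC : ∀ κ : K, ε (cst H κ) = cst (scl n m lK lK⁻¹ H) κ := sclE_C hll H
  -- the scaled curve
  have hded' : IsDedekindDomain (AdjoinRoot (scl n m lK lK⁻¹ H)) := by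
    letI : Algebra (AdjoinRoot H) (AdjoinRoot (scl n m lK lK⁻¹ H)) := (ε : AdjoinRoot H →+* AdjoinRoot (scl n m lK lK⁻¹ H)).toAlgebra
    have h1 : IsLoc (⊥ : Submonoid (AdjoinRoot H)) (ε : AdjoinRoot H →+* AdjoinRoot (scl n m lK lK⁻¹ H)) := by
      refine isLoc_of ε.injective ?_ ?_
      · intro s hs
        rw [Submonoid.mem_bot] at hs
        rw [hs, map_one]
        exact isUnit_one
      · intro x
        obtain ⟨y, rfl⟩ := ε.surjective x
        exact ⟨1, Submonoid.mem_bot.2 rfl, y, by rw [map_one, mul_one]; rfl⟩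
    have h2 : IsLocalization (⊥ : Submonoid (AdjoinRoot H)) (AdjoinRoot (scl n m lK lK⁻¹ H)) := h1
    exact IsLocalization.isDedekindDomain (AdjoinRoot H) bot_le _
  letI aE : Algebra (AdjoinRoot (scl n m lK lK⁻¹ H)) E :=
    ((algebraMap (AdjoinRoot H) E).comp (ε.symm : AdjoinRoot (scl n m lK lK⁻¹ H) →+* AdjoinRoot H)).toAlgebra
  have hfrE : IsFractionRing (AdjoinRoot (scl n m lK lK⁻¹ H)) E := by
    have h1 : IsLoc (⊥ : Submonoid (AdjoinRoot (scl n m lK lK⁻¹ H))) (ε.symm : AdjoinRoot (scl n m lK lK⁻¹ H) →+* AdjoinRoot H) := by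
      refine isLoc_of ε.symm.injective ?_ ?_
      · intro s hs
        rw [Submonoid.mem_bot] at hs
        rw [hs, map_one]
        exact isUnit_one
      · intro x
        obtain ⟨y, rfl⟩ := ε.symm.surjective x
        exact ⟨1, Submonoid.mem_bot.2 rfl, y, by rw [map_one, mul_one]; rfl⟩
    exact loc_frac h1 ε.symm.injective
  have htow : IsScalarTower K (AdjoinRoot (scl n m lK lK⁻¹ H)) E := by
    refine IsScalarTower.of_algebraMap_eq fun κ => ?_
    show _ = algebraMap (AdjoinRoot H) E (ε.symm (cst (scl n m lK lK⁻¹ H) κ))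
    rw [← hεC, RingEquiv.symm_apply_apply, IsScalarTower.algebraMap_apply K (AdjoinRoot H) E]
    rfl
  obtain ⟨ρ, N₀, hN₀, hρ, hasy⟩ := core hd hw hK hz hE hn hm hcop hH₀ hHm
  refine ⟨ρ, ?_, ?_⟩
  · rw [← hρ]
    let e1 : Additive (ClassGroup (AdjoinRoot H)) ≃+ Additive (ClassGroup (AdjoinRoot (scl n m lK lK⁻¹ H))) :=
      MulEquiv.toAdditive (ClassGroup.mulEquiv ε)
    exact e1.toIntLinearEquiv.rank_eq
  · intro R _ _ _ _ _ G hG N hN
    have hiR : Function.Injective (algebraMap R K) := IsFractionRing.injective R K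
    have hGcab : IsCab n m G := IsCab.of_map (algebraMap R K) hiR (by rw [hG]; exact hH)
    have he : Algebra.trdeg ℚ K ≤ (d + (k + 1) : ℕ) := (trdeg_rat hw hK hd).le
    obtain ⟨c, hc0, hc⟩ := weil_map hn hm hcop
    letI aP : Algebra (MvPolynomial (Fin (k + 1)) A₀) K := (evw A₀ M w).toAlgebra
    have hfrP : IsFractionRing (MvPolynomial (Fin (k + 1)) A₀) K := hφ
    have hftP : @Algebra.FiniteType ℤ (MvPolynomial (Fin (k + 1)) A₀) _ _ (Ring.toIntAlgebra _) := by
      have h1 : Algebra.FiniteType A₀ (MvPolynomial (Fin (k + 1)) A₀) := inferInstance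
      exact ft_int _ (Algebra.FiniteType.trans (inferInstance : Algebra.FiniteType ℤ A₀) h1)
    obtain ⟨C₃, i1, i2, i3, i4, i5, ι, κ, hι, hκ, hT⟩ := exists_top (R := R)
      (B := MvPolynomial (Fin (k + 1)) A₀) (K := K) {lK, lK⁻¹}
    obtain ⟨lC, hlC⟩ := hT lK (by simp)
    obtain ⟨lC', hlC'⟩ := hT lK⁻¹ (by simp)
    have hiC : Function.Injective (algebraMap C₃ K) := IsFractionRing.injective C₃ K
    have hlC1 : lC * lC' = 1 := by
      apply hiC
      rw [map_mul, hlC, hlC', map_one, hll]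
    have hιc : (algebraMap C₃ K).comp ι = algebraMap R K := RingHom.ext hι
    have hκc : (algebraMap C₃ K).comp κ = algebraMap (MvPolynomial (Fin (k + 1)) A₀) K := RingHom.ext hκ
    have hinj2 : Function.Injective (Polynomial.map (mapRingHom (algebraMap C₃ K))) :=
      Polynomial.map_injective _ (Polynomial.map_injective _ hiC)
    have hGC : (G.map (mapRingHom ι)).map (mapRingHom (algebraMap C₃ K)) = H := by
      rw [Polynomial.map_map, mapRingHom_comp, hιc, hG]
    have hHC : (H₀.map (mapRingHom κ)).map (mapRingHom (algebraMap C₃ K)) = scl n m lK lK⁻¹ H := by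
      rw [Polynomial.map_map, mapRingHom_comp, hκc]
      exact hHm
    have hrel : H₀.map (mapRingHom κ) = scl n m lC lC' (G.map (mapRingHom ι)) := by
      apply hinj2
      show (H₀.map (mapRingHom κ)).map (mapRingHom (algebraMap C₃ K)) =
        (scl n m lC lC' (G.map (mapRingHom ι))).map (mapRingHom (algebraMap C₃ K))
      rw [hHC, scl_map, hlC, hlC', hGC]
    have hGCcab : IsCab n m (G.map (mapRingHom ι)) := hGcab.map ι
    have hHCcab : IsCab n m (H₀.map (mapRingHom κ)) := hH₀.map κ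
    -- the first transfer
    have a1 : Asy (fun F _ _ => sC (H₀.map (mapRingHom κ)) 1 F) (d + (k + 1)) (-(ρ : ℝ)) := by
      refine hasy.near ?_
      exact transfer_sC (R := C₃) (B := MvPolynomial (Fin (k + 1)) A₀) (K := K) he (by
        rw [hHC]
        exact hHm.symm) hc0 hc0 (fun F _ _ φ => hc _ _ hHCcab F φ) (fun F _ _ φ => hc _ _ hH₀ F φ)
        one_ne_zero hN₀
    have a2 : Asy (fun F _ _ => sC (G.map (mapRingHom ι)) 1 F) (d + (k + 1)) (-(ρ : ℝ)) := by
      refine a1.congr 1 one_ne_zero fun F _ _ _ => ?_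
      unfold sC
      refine finsum_congr fun φ => ?_
      rw [hrel, scl_map, trc2_scl]
      rw [← map_mul, hlC1, map_one]
    refine a2.near ?_
    exact transfer_sC (R := R) (B := C₃) (K := K) he (by rw [hG, hGC]) hc0 hc0
      (fun F _ _ φ => hc _ _ hGcab F φ) (fun F _ _ φ => hc _ _ hGCcab F φ) hN one_ne_zero

end Pool.Agent.Run7.h954.CP
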