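import Pool.Agent.Run7.h954.CP.Bir
import Pool.Agent.R410.NG.Asy

/-!
# The points of two birational rings
-/

set_option autoImplicit false
set_option linter.all false

namespace Pool.Agent.Run7.h954.CP

theorem card_split {H : Type} [Finite H] (p q : H → Prop) :
    Nat.card {x : H // p x} = Nat.card {x : H // p x ∧ q x} + Nat.card {x : H // p x ∧ ¬ q x} := by
  classical
  let _ := Fintype.ofFinite H
  rw [Nat.card_eq_fintype_card, Nat.card_eq_fintype_card, Nat.card_eq_fintype_card, Fintype.card_subtype,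
    Fintype.card_subtype, Fintype.card_subtype, ← Finset.filter_filter, ← Finset.filter_filter]
  exact (Finset.card_filter_add_card_filter_not (s := Finset.univ.filter fun x => p x) q).symm

theorem count_abs {A₀ P₀ T₀ C₀ E : Type} [CommRing A₀] [CommRing P₀] [CommRing T₀] [CommRing C₀] [Field E]
    [Algebra.FiniteType ℤ T₀] [Algebra.FiniteType ℤ C₀] [Algebra C₀ E] [Algebra T₀ E]
    (iC : Function.Injective (algebraMap C₀ E)) (iT : Function.Injective (algebraMap T₀ E))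
    (aP : A₀ →+* P₀) (aT : A₀ →+* T₀) (cP : P₀ →+* C₀) {f : C₀} {r : P₀} {g : T₀}
    (hfr : f * cP r ≠ 0) (hg : g ≠ 0) (haw : aw E (f * cP r) = aw E g)
    (hcomp : ∀ a, algebraMap C₀ E (cP (aP a)) = algebraMap T₀ E (aT a)) (s : A₀) (F : Type) [Field F]
    [Finite F] :
    Nat.card {ψ : C₀ →+* F // ψ (cP (r * aP s)) ≠ 0} +
      Nat.card {χ : T₀ →+* F // χ (aT s) ≠ 0 ∧ χ g = 0} =
    Nat.card {χ : T₀ →+* F // χ (aT s) ≠ 0} +
      Nat.card {ψ : C₀ →+* F // ψ (cP (r * aP s)) ≠ 0 ∧ ψ f = 0} := by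
  have h1 : Finite (C₀ →+* F) := Pool.Agent.TH958.An.finite_hom F
  have h2 : Finite (T₀ →+* F) := Pool.Agent.TH958.An.finite_hom F
  rw [card_split (fun ψ : C₀ →+* F => ψ (cP (r * aP s)) ≠ 0) (fun ψ => ψ f = 0),
    card_split (fun χ : T₀ →+* F => χ (aT s) ≠ 0) (fun χ => χ g = 0)]
  obtain ⟨e, he⟩ := hom_bij iC iT hfr hg haw F
  have h3 : Nat.card {ψ : C₀ →+* F // ψ (cP (r * aP s)) ≠ 0 ∧ ¬ ψ f = 0} =
      Nat.card {χ : T₀ →+* F // χ (aT s) ≠ 0 ∧ ¬ χ g = 0} := by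
    have key : ∀ ψ : C₀ →+* F, (ψ (cP (r * aP s)) ≠ 0 ∧ ¬ ψ f = 0) ↔
        (ψ (f * cP r) ≠ 0 ∧ ψ (cP (aP s)) ≠ 0) := by
      intro ψ
      rw [map_mul cP, map_mul ψ (cP r), map_mul ψ f, mul_ne_zero_iff, mul_ne_zero_iff]
      tauto
    have e1 : {ψ : C₀ →+* F // ψ (cP (r * aP s)) ≠ 0 ∧ ¬ ψ f = 0} ≃
        {φ : {ψ : C₀ →+* F // ψ (f * cP r) ≠ 0} // φ.1 (cP (aP s)) ≠ 0} :=
      (Equiv.subtypeEquivRight key).trans (Equiv.subtypeSubtypeEquivSubtypeInter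
        (fun ψ : C₀ →+* F => ψ (f * cP r) ≠ 0) (fun ψ => ψ (cP (aP s)) ≠ 0)).symm
    have e2 : {φ : {ψ : C₀ →+* F // ψ (f * cP r) ≠ 0} // φ.1 (cP (aP s)) ≠ 0} ≃
        {φ : {χ : T₀ →+* F // χ g ≠ 0} // φ.1 (aT s) ≠ 0} := by
      refine e.subtypeEquiv fun φ => ?_
      rw [he φ (cP (aP s)) (aT s) (hcomp s)]
    have e3 : {φ : {χ : T₀ →+* F // χ g ≠ 0} // φ.1 (aT s) ≠ 0} ≃
        {χ : T₀ →+* F // χ (aT s) ≠ 0 ∧ ¬ χ g = 0} :=
      { toFun := fun φ => ⟨φ.1.1, φ.2, φ.1.2⟩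
        invFun := fun χ => ⟨⟨χ.1, χ.2.2⟩, χ.2.1⟩
        left_inv := fun φ => rfl
        right_inv := fun χ => rfl }
    exact Nat.card_congr ((e1.trans e2).trans e3)
  rw [h3]
  ring

end Pool.Agent.Run7.h954.CP
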