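import Pool.Agent.Run7.h954.CP.Def
import Pool.Agent.R410.NG.Asy

/-!
# Counting the points of families of plane curves
-/

set_option autoImplicit false
set_option linter.all false

open Polynomial

namespace Pool.Agent.Run7.h954.CP

/-- the number of elements of the field minus the number of points of the affine plane curve -/
noncomputable def trc2 (F : Type) [Field F] (H : F[X][X]) : ℝ :=
  (Nat.card F : ℝ) - Nat.card {z : F × F // evalEval z.1 z.2 H = 0}

/-- the sum over the points of the base -/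
noncomputable def sC {R : Type} [CommRing R] (G : R[X][X]) (N : R) (F : Type) [Field F] : ℝ :=
  ∑ᶠ φ : {φ : R →+* F // φ N ≠ 0}, trc2 F (G.map (mapRingHom φ.1))

section
variable {A : Type} [CommRing A] {F : Type} [Field F] {k : ℕ}

/-- the points of an affine space over a scheme -/
noncomputable def mvEquiv : (MvPolynomial (Fin k) A →+* F) ≃ (A →+* F) × (Fin k → F) where
  toFun φ := (φ.comp MvPolynomial.C, fun i => φ (MvPolynomial.X i))
  invFun w := MvPolynomial.eval₂Hom w.1 w.2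
  left_inv φ := by
    apply MvPolynomial.ringHom_ext
    · intro a
      rw [MvPolynomial.coe_eval₂Hom, MvPolynomial.eval₂_C]
      rfl
    · intro i
      rw [MvPolynomial.coe_eval₂Hom, MvPolynomial.eval₂_X]
  right_inv w := by
    refine Prod.ext ?_ ?_
    · refine RingHom.ext fun a => ?_
      show MvPolynomial.eval₂Hom w.1 w.2 (MvPolynomial.C a) = w.1 a
      rw [MvPolynomial.coe_eval₂Hom, MvPolynomial.eval₂_C]
    · funext i
      show MvPolynomial.eval₂Hom w.1 w.2 (MvPolynomial.X i) = w.2 i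
      rw [MvPolynomial.coe_eval₂Hom, MvPolynomial.eval₂_X]

theorem card_mv (s : A) : Nat.card {φ : MvPolynomial (Fin k) A →+* F // φ (MvPolynomial.C s) ≠ 0} =
    Nat.card {φ : A →+* F // φ s ≠ 0} * Nat.card F ^ k := by
  have e1 : {φ : MvPolynomial (Fin k) A →+* F // φ (MvPolynomial.C s) ≠ 0} ≃
      {w : (A →+* F) × (Fin k → F) // w.1 s ≠ 0} := by
    refine (mvEquiv (A := A) (F := F) (k := k)).subtypeEquiv fun φ => ?_
    rfl
  have e2 : {w : (A →+* F) × (Fin k → F) // w.1 s ≠ 0} ≃ {φ : A →+* F // φ s ≠ 0} × (Fin k → F) :=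
    { toFun := fun w => (⟨w.1.1, w.2⟩, w.1.2)
      invFun := fun w => ⟨(w.1.1, w.2), w.1.2⟩
      left_inv := fun w => rfl
      right_inv := fun w => rfl }
  rw [Nat.card_congr (e1.trans e2), Nat.card_prod, Nat.card_fun, Nat.card_fin]

end

section
variable {P : Type} [CommRing P] {F : Type} [Field F]

theorem eval₂_bi (φ : P →+* F) (x y : F) (Q : P[X][X]) :
    eval₂ (eval₂RingHom φ x) y Q = evalEval x y (Q.map (mapRingHom φ)) :=
  eval₂_eval₂RingHom_apply φ x y Q

/-- the points of a family of plane curves -/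
noncomputable def rootEquiv (H : P[X][X]) : (AdjoinRoot H →+* F) ≃
    Σ φ : P →+* F, {z : F × F // evalEval z.1 z.2 (H.map (mapRingHom φ)) = 0} where
  toFun ψ := ⟨(ψ.comp (AdjoinRoot.of H)).comp C, (ψ (AdjoinRoot.of H X), ψ (AdjoinRoot.root H)), by
    rw [← eval₂_bi]
    have h1 : eval₂RingHom ((ψ.comp (AdjoinRoot.of H)).comp C) (ψ (AdjoinRoot.of H X)) =
        ψ.comp (AdjoinRoot.of H) := by
      apply Polynomial.ringHom_ext
      · intro a
        rw [coe_eval₂RingHom, eval₂_C]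
        rfl
      · rw [coe_eval₂RingHom, eval₂_X]
        rfl
    simp only
    rw [h1]
    have h2 : eval₂ (ψ.comp (AdjoinRoot.of H)) (ψ (AdjoinRoot.root H)) H = ψ (AdjoinRoot.mk H H) := by
      rw [← AdjoinRoot.aeval_eq H, aeval_def, hom_eval₂]
      rfl
    rw [h2, AdjoinRoot.mk_self, map_zero]⟩
  invFun w := AdjoinRoot.lift (eval₂RingHom w.1 w.2.1.1) w.2.1.2 (by
    rw [eval₂_bi]
    exact w.2.2)
  left_inv ψ := by
    apply AdjoinRoot.ringHom_ext
    · apply Polynomial.ringHom_ext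
      · intro a
        rw [RingHom.comp_apply, AdjoinRoot.lift_of, coe_eval₂RingHom, eval₂_C]
        rfl
      · rw [RingHom.comp_apply, AdjoinRoot.lift_of, coe_eval₂RingHom, eval₂_X]
        rfl
    · rw [AdjoinRoot.lift_root]
  right_inv w := by
    rcases w with ⟨φ, ⟨x, y⟩, h⟩
    have gen : ∀ (φ' : P →+* F) (z' : F × F) (h' : evalEval z'.1 z'.2 (H.map (mapRingHom φ')) = 0),
        φ' = φ → z' = (x, y) →
        (⟨φ', z', h'⟩ : Σ φ : P →+* F, {z : F × F // evalEval z.1 z.2 (H.map (mapRingHom φ)) = 0}) =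
          ⟨φ, ⟨(x, y), h⟩⟩ := by
      rintro φ' z' h' rfl rfl
      rfl
    refine gen _ _ _ ?_ ?_
    · refine RingHom.ext fun a => ?_
      rw [RingHom.comp_apply, RingHom.comp_apply, AdjoinRoot.lift_of, coe_eval₂RingHom, eval₂_C]
    · refine Prod.ext ?_ ?_
      · show AdjoinRoot.lift _ _ _ (AdjoinRoot.of H X) = x
        rw [AdjoinRoot.lift_of, coe_eval₂RingHom, eval₂_X]
      · exact AdjoinRoot.lift_root _

theorem rootEquiv_of (H : P[X][X]) (ψ : AdjoinRoot H →+* F) (a : P) :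
    (rootEquiv H ψ).1 a = ψ (AdjoinRoot.of H (C a)) := rfl

theorem sC_eq (H : P[X][X]) (N : P) [Finite F] [Finite (P →+* F)] :
    sC H N F = (Nat.card F : ℝ) * Nat.card {φ : P →+* F // φ N ≠ 0} -
      Nat.card {ψ : AdjoinRoot H →+* F // ψ (AdjoinRoot.of H (C N)) ≠ 0} := by
  classical
  let _ : Fintype {φ : P →+* F // φ N ≠ 0} := Fintype.ofFinite _
  unfold sC trc2
  rw [finsum_eq_sum_of_fintype, Finset.sum_sub_distrib, Finset.sum_const, Finset.card_univ,
    nsmul_eq_mul, ← Nat.card_eq_fintype_card]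
  congr 1
  · ring
  · have e1 : {ψ : AdjoinRoot H →+* F // ψ (AdjoinRoot.of H (C N)) ≠ 0} ≃
        {w : Σ φ : P →+* F, {z : F × F // evalEval z.1 z.2 (H.map (mapRingHom φ)) = 0} // w.1 N ≠ 0} :=
      (rootEquiv H).subtypeEquiv fun ψ => by rw [rootEquiv_of]
    have e2 : {w : Σ φ : P →+* F, {z : F × F // evalEval z.1 z.2 (H.map (mapRingHom φ)) = 0} //
        w.1 N ≠ 0} ≃ Σ φ : {φ : P →+* F // φ N ≠ 0},
          {z : F × F // evalEval z.1 z.2 (H.map (mapRingHom φ.1)) = 0} :=
      { toFun := fun w => ⟨⟨w.1.1, w.2⟩, w.1.2⟩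
        invFun := fun w => ⟨⟨w.1.1, w.2⟩, w.1.2⟩
        left_inv := fun w => rfl
        right_inv := fun w => rfl }
    rw [Nat.card_congr (e1.trans e2), Nat.card_sigma]
    push_cast
    rfl

end

end Pool.Agent.Run7.h954.CP
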