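import Pool.Agent.Run7.h954.CP.Cc

/-!
# The components of a divisor which do not dominate the base
-/

set_option autoImplicit false
set_option linter.all false

open Polynomial

namespace Pool.Agent.Run7.h954.CP

theorem exists_irr {P C : Type} [CommRing P] [IsDomain P] [UniqueFactorizationMonoid P] [CommRing C]
    (φ : P →+* C) (𝔮 : Ideal C) (hp : 𝔮.IsPrime) {p : P} (hp0 : p ≠ 0) (h : φ p ∈ 𝔮) :
    ∃ q : P, Irreducible q ∧ q ∣ p ∧ φ q ∈ 𝔮 := by
  classical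
  obtain ⟨f, hf, u, hu⟩ := WfDvdMonoid.exists_factors p hp0
  have hcp : (𝔮.comap φ).IsPrime := Ideal.IsPrime.comap φ
  have h2 : f.prod ∈ 𝔮.comap φ := by
    have h1 : f.prod * (u : P) ∈ 𝔮.comap φ := by rw [hu]; exact h
    exact (hcp.mem_or_mem h1).resolve_right fun h => hcp.ne_top (Ideal.eq_top_of_isUnit_mem _ h u.isUnit)
  obtain ⟨q, h3, h4⟩ := (Ideal.IsPrime.multiset_prod_mem_iff_exists_mem hcp f).1 h2
  exact ⟨q, hf q h3, (Multiset.dvd_prod h3).trans ⟨u, hu.symm⟩, h4⟩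

theorem prime_dis {P₀ P : Type} [CommRing P₀] [IsDomain P₀] [CommRing P] [IsDomain P]
    [UniqueFactorizationMonoid P] [IsNoetherianRing P] {S : Submonoid P₀} {μ : P₀ →+* P}
    (hμ : IsLoc S μ) (hS : S ≤ nonZeroDivisors P₀) {n m : ℕ} (hn : 0 < n) (hcop : n.Coprime m)
    {H₀ : P₀[X][X]} (hH₀ : IsCab n m H₀) {H' : P[X][X]} (hH' : H₀.map (mapRingHom μ) = H')
    {f : AdjoinRoot H₀} {r : P₀}
    (hr : ∀ q : P, cst H' q ∣ rootMap (mapRingHom μ) H₀ H' hH' f → q ∣ μ r) (𝔭 : Ideal (AdjoinRoot H₀))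
    (h𝔭 : 𝔭 ∈ (Ideal.span {f}).minimalPrimes) (hA : ∀ a ∈ S, cst H₀ a ∉ 𝔭) (hr' : cst H₀ r ∉ 𝔭) :
    ∀ p : P₀, p ≠ 0 → cst H₀ p ∉ 𝔭 := by
  intro p hp0 hp
  have hC' : IsCab n m H' := by rw [← hH']; exact hH₀.map μ
  have hdom : IsDomain (AdjoinRoot H') := cab_domain hn hcop hC'
  have hNoe : IsNoetherianRing (AdjoinRoot H') :=
    isNoetherianRing_of_surjective P[X][X] _ (AdjoinRoot.mk H') AdjoinRoot.mk_surjective
  have hpr : 𝔭.IsPrime := h𝔭.1.1
  let ι := rootMap (mapRingHom μ) H₀ H' hH'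
  let S' : Submonoid (AdjoinRoot H₀) := (S.map (C : P₀ →+* P₀[X])).map (AdjoinRoot.of H₀)
  have hSC : S.map (C : P₀ →+* P₀[X]) ≤ nonZeroDivisors P₀[X] := by
    rintro _ ⟨s, hs, rfl⟩
    exact mem_nonZeroDivisors_of_ne_zero fun h => nonZeroDivisors.ne_zero (hS hs) (C_eq_zero.1 h)
  have hloc : IsLoc S' ι := (hμ.poly).root hSC H₀ (hH₀.monic hn).1 H' hH'
  letI : Algebra (AdjoinRoot H₀) (AdjoinRoot H') := ι.toAlgebra
  have hloc' : IsLocalization S' (AdjoinRoot H') := hloc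
  have hdis : Disjoint (S' : Set (AdjoinRoot H₀)) 𝔭 := by
    rw [Set.disjoint_left]
    rintro _ ⟨_, ⟨s, hs, rfl⟩, rfl⟩ h
    exact hA s hs h
  let 𝔮 : Ideal (AdjoinRoot H') := 𝔭.map (algebraMap _ _)
  have hq : 𝔮.IsPrime := IsLocalization.isPrime_of_isPrime_disjoint S' _ 𝔭 hpr hdis
  have hund : 𝔮.under (AdjoinRoot H₀) = 𝔭 := IsLocalization.under_map_of_isPrime_disjoint S' _ hpr hdis
  have hmem : ∀ c : AdjoinRoot H₀, ι c ∈ 𝔮 ↔ c ∈ 𝔭 := by
    intro c
    rw [← hund]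
    rfl
  have hmin : 𝔮 ∈ (Ideal.span {ι f}).minimalPrimes := by
    have h1 : Ideal.span {ι f} = (Ideal.span {f}).map (algebraMap _ (AdjoinRoot H')) := by
      rw [Ideal.map_span, Set.image_singleton]
      rfl
    rw [h1, IsLocalization.minimalPrimes_map S']
    show 𝔮.under (AdjoinRoot H₀) ∈ (Ideal.span {f}).minimalPrimes
    rw [hund]
    exact h𝔭
  have hcst : ∀ c : P₀, ι (cst H₀ c) = cst H' (μ c) := by
    intro c
    rw [cst_mk, cst_mk]
    show rootMap _ _ _ _ _ = _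
    rw [rootMap_mk, map_C, coe_mapRingHom, map_C]
  have hinjμ : Function.Injective μ := hμ.inj hS
  obtain ⟨q, hqi, hqp, hqm⟩ := exists_irr (cst H') 𝔮 hq ((map_ne_zero_iff _ hinjμ).2 hp0)
    (by rw [← hcst]; exact (hmem _).2 hp)
  have hqpr : Prime (cst H' q) :=
    cst_prime hn hcop hC' (UniqueFactorizationMonoid.irreducible_iff_prime.1 hqi)
  have hI : (Ideal.span {cst H' q}).IsPrime := (Ideal.span_singleton_prime hqpr.ne_zero).2 hqpr
  have hle : Ideal.span {cst H' q} ≤ 𝔮 := by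
    rw [Ideal.span_singleton_le_iff_mem]
    exact hqm
  rcases hle.eq_or_lt with heq | hlt
  · have h1 : ι f ∈ Ideal.span {cst H' q} := by
      rw [heq]
      exact hmin.1.2 (Ideal.mem_span_singleton_self _)
    obtain ⟨c, hc⟩ := hr q (Ideal.mem_span_singleton.1 h1)
    apply hr'
    rw [← hmem, hcst, hc, map_mul, ← heq]
    exact Ideal.mul_mem_right _ _ (Ideal.mem_span_singleton_self _)
  · have h1 : 𝔮.height ≤ 1 := Ideal.height_le_one_of_isPrincipal_of_mem_minimalPrimes _ 𝔮 hmin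
    have h2 := Ideal.height_add_one_le_of_lt_of_isPrime hlt
    have h3 : (⊥ : Ideal (AdjoinRoot H')) < Ideal.span {cst H' q} := by
      rw [bot_lt_iff_ne_bot, Ne, Ideal.span_singleton_eq_bot]
      exact hqpr.ne_zero
    have hb : (⊥ : Ideal (AdjoinRoot H')).IsPrime := Ideal.isPrime_bot
    have h4 := Ideal.height_add_one_le_of_lt_of_isPrime h3
    have h5 : (0 : ℕ∞) + 1 + 1 ≤ 1 := by
      refine le_trans ?_ (h2.trans h1)
      gcongr
      exact le_trans (by gcongr; exact bot_le) h4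
    exact absurd h5 (by decide)

end Pool.Agent.Run7.h954.CP
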