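import Pool.Agent.R410.NG.Asy

/-!
# The number of the zeros of an element of a ring of finite type
-/

set_option autoImplicit false
set_option linter.all false

namespace Pool.Agent.Run7.h954.CP

open Pool.Agent.R410.NG (Asy Ff asy_hom)
open Pool.Agent.R410.BS (good_le hom_le)
open Pool.Agent.R410.LW (FG frac_of_closure)

/-- the fraction field of a ring of finite type is finitely generated -/
theorem fg_frac {D L : Type} [CommRing D] [Algebra.FiniteType ℤ D] [Field L] [Algebra D L]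
    [IsFractionRing D L] : FG L := by
  classical
  obtain ⟨G, hG⟩ := (inferInstance : Algebra.FiniteType ℤ D).out
  refine ⟨G.image (algebraMap D L), ?_⟩
  set Cf := Subfield.closure ((G.image (algebraMap D L) : Finset L) : Set L) with hCf
  have h1 : ∀ x : D, algebraMap D L x ∈ Cf := by
    intro x
    have hx : x ∈ Algebra.adjoin ℤ (G : Set D) := by rw [hG]; trivial
    induction hx using Algebra.adjoin_induction with
    | mem x hx =>
      apply Subfield.subset_closure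
      rw [Finset.coe_image]
      exact ⟨x, hx, rfl⟩
    | algebraMap n =>
      rw [eq_intCast, map_intCast]
      exact intCast_mem Cf n
    | add x y _ _ h1 h2 =>
      rw [map_add]
      exact add_mem h1 h2
    | mul x y _ _ h1 h2 =>
      rw [map_mul]
      exact mul_mem h1 h2
  rw [eq_top_iff]
  intro z _
  obtain ⟨a, b, -, rfl⟩ := IsFractionRing.div_surjective (A := D) z
  exact div_mem (h1 a) (h1 b)

section
variable {C : Type} [CommRing C]

/-- the homomorphisms which kill an ideal -/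
noncomputable def killEquiv (𝔭 : Ideal C) (F : Type) [Field F] :
    {ψ : C →+* F // 𝔭 ≤ RingHom.ker ψ} ≃ (C ⧸ 𝔭 →+* F) where
  toFun ψ := Ideal.Quotient.lift 𝔭 ψ.1 fun a ha => ψ.2 ha
  invFun φ := ⟨φ.comp (Ideal.Quotient.mk 𝔭), fun a ha => by
    rw [RingHom.mem_ker, RingHom.comp_apply, Ideal.Quotient.eq_zero_iff_mem.2 ha, map_zero]⟩
  left_inv ψ := by
    apply Subtype.ext
    refine RingHom.ext fun a => ?_
    rfl
  right_inv φ := by
    apply Ideal.Quotient.ringHom_ext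
    refine RingHom.ext fun a => ?_
    rfl

theorem killEquiv_mk (𝔭 : Ideal C) (F : Type) [Field F] (ψ : {ψ : C →+* F // 𝔭 ≤ RingHom.ker ψ}) (a : C) :
    killEquiv 𝔭 F ψ (Ideal.Quotient.mk 𝔭 a) = ψ.1 a := rfl

variable [Algebra.FiniteType ℤ C]

/-- **The points of a union of irreducible subschemes.** -/
theorem asy_primes {ι : Type} [Fintype ι] (𝔭 : ι → Ideal C) (hp : ∀ i, (𝔭 i).IsPrime)
    (hinc : ∀ i j, 𝔭 i ≤ 𝔭 j → i = j) {e : ℕ}
    (hd : ∀ i, ∃ (L : Type) (_ : Field L) (_ : CharZero L) (_ : Algebra (C ⧸ 𝔭 i) L)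
      (_ : IsFractionRing (C ⧸ 𝔭 i) L), Algebra.trdeg ℚ L = e) (s : C) (hs : ∀ i, s ∉ 𝔭 i) :
    Asy (fun F _ _ => (Nat.card {ψ : C →+* F // ψ s ≠ 0 ∧ ∃ i, 𝔭 i ≤ RingHom.ker ψ} : ℝ)) e
      (Fintype.card ι) := by
  classical
  have hft : ∀ i, @Algebra.FiniteType ℤ (C ⧸ 𝔭 i) _ _ (Ring.toIntAlgebra _) := fun i =>
    Pool.Agent.R410.LW.ft_int _ (Algebra.FiniteType.of_surjective (Ideal.Quotient.mkₐ ℤ (𝔭 i))
      Ideal.Quotient.mk_surjective)
  have hdom : ∀ i, IsDomain (C ⧸ 𝔭 i) := fun i => by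
    have := hp i
    infer_instance
  -- the separating elements
  have ht : ∀ i j, ∃ t : C, t ∉ 𝔭 i ∧ (j ≠ i → t ∈ 𝔭 j) := by
    intro i j
    by_cases h : j = i
    · exact ⟨1, fun h1 => (hp i).ne_top ((Ideal.eq_top_iff_one _).2 h1), fun h1 => (h1 h).elim⟩
    · have h2 : ¬ 𝔭 j ≤ 𝔭 i := fun h3 => h (hinc j i h3)
      obtain ⟨t, h3, h4⟩ := Set.not_subset.1 h2
      exact ⟨t, h4, fun _ => h3⟩
  choose t ht1 ht2 using ht
  let u : ι → C := fun i => s * ∏ j, t i j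
  have hu : ∀ i, u i ∉ 𝔭 i := by
    intro i h
    have := hp i
    rcases (hp i).mem_or_mem h with h1 | h1
    · exact hs i h1
    · obtain ⟨j, -, hj⟩ := (Ideal.IsPrime.prod_mem_iff (hp := hp i)).1 h1
      exact ht1 i j hj
  -- the sum of the numbers of the points of the components
  have hA : ∀ i ∈ (Finset.univ : Finset ι), Asy (fun F _ _ => (Nat.card (C ⧸ 𝔭 i →+* F) : ℝ)) e 1 := by
    intro i _
    obtain ⟨L, _, _, _, _, hL⟩ := hd i
    have := hdom i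
    have := hft i
    exact asy_hom (M := L) (fg_frac (D := C ⧸ 𝔭 i)) hL (C ⧸ 𝔭 i)
  have hsum := Asy.sum Finset.univ (fun i F _ _ => (Nat.card (C ⧸ 𝔭 i →+* F) : ℝ)) (fun _ => (1 : ℝ)) hA
  rw [Finset.sum_const, Finset.card_univ, nsmul_eq_mul, mul_one] at hsum
  refine hsum.near ?_
  have hg : ∀ i, ∃ (K : ℝ) (N : ℕ), 0 ≤ K ∧ N ≠ 0 ∧ ∀ (F : Type) [Field F] [Finite F],
      ((N : ℕ) : F) ≠ 0 → (Nat.card {φ : C ⧸ 𝔭 i →+* F // φ (Ideal.Quotient.mk (𝔭 i) (u i)) = 0} : ℝ) *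
        Nat.card F ≤ K * (Nat.card F : ℝ) ^ e := by
    intro i
    obtain ⟨L, _, _, _, _, hL⟩ := hd i
    have := hdom i
    have := hft i
    have hne : Ideal.Quotient.mk (𝔭 i) (u i) ≠ 0 := fun h => hu i (Ideal.Quotient.eq_zero_iff_mem.1 h)
    obtain ⟨K, N, h1, h2, h3⟩ := good_le (R := C ⧸ 𝔭 i) (K := L) (IsFractionRing.injective _ L) hL.le hne
    exact ⟨K, N, h1, h2, fun F _ _ hF => (h3 F hF).2⟩
  choose K N hK hN hgood using hg
  refine ⟨∑ i, K i, ∏ i, N i, Finset.sum_nonneg fun i _ => hK i,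
    Finset.prod_ne_zero_iff.2 fun i _ => hN i, ?_⟩
  intro F _ _ hF
  rw [Nat.cast_prod] at hF
  have hNF : ∀ i, ((N i : ℕ) : F) ≠ 0 := fun i => Finset.prod_ne_zero_iff.1 hF i (Finset.mem_univ i)
  have hfin : Finite (C →+* F) := Pool.Agent.TH958.An.finite_hom F
  let _ := Fintype.ofFinite (C →+* F)
  let A : ι → Finset (C →+* F) := fun i => Finset.univ.filter fun ψ => 𝔭 i ≤ RingHom.ker ψ
  let B : ι → Finset (C →+* F) := fun i => (A i).filter fun ψ => ψ (u i) ≠ 0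
  let S : Finset (C →+* F) := Finset.univ.filter fun ψ => ψ s ≠ 0 ∧ ∃ i, 𝔭 i ≤ RingHom.ker ψ
  have hS : Nat.card {ψ : C →+* F // ψ s ≠ 0 ∧ ∃ i, 𝔭 i ≤ RingHom.ker ψ} = S.card := by
    rw [Nat.card_eq_fintype_card, Fintype.card_subtype]
  have hAc : ∀ i, Nat.card (C ⧸ 𝔭 i →+* F) = (A i).card := by
    intro i
    rw [← Nat.card_congr (killEquiv (𝔭 i) F), Nat.card_eq_fintype_card, Fintype.card_subtype]
  have hSA : S.card ≤ ∑ i, (A i).card := by
    refine le_trans (Finset.card_le_card ?_) Finset.card_biUnion_le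
    intro ψ hψ
    obtain ⟨-, i, hi⟩ := (Finset.mem_filter.1 hψ).2
    exact Finset.mem_biUnion.2 ⟨i, Finset.mem_univ i, Finset.mem_filter.2 ⟨Finset.mem_univ _, hi⟩⟩
  have hBS : ∑ i, (B i).card ≤ S.card := by
    rw [← Finset.card_biUnion]
    · refine Finset.card_le_card ?_
      intro ψ hψ
      obtain ⟨i, -, hi⟩ := Finset.mem_biUnion.1 hψ
      obtain ⟨h1, h2⟩ := Finset.mem_filter.1 hi
      refine Finset.mem_filter.2 ⟨Finset.mem_univ _, ?_, i, (Finset.mem_filter.1 h1).2⟩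
      intro h3
      apply h2
      show ψ (s * _) = 0
      rw [map_mul, h3, zero_mul]
    · intro i _ j _ hij
      rw [Function.onFun, Finset.disjoint_left]
      intro ψ hi hj
      obtain ⟨-, h2⟩ := Finset.mem_filter.1 hi
      obtain ⟨h1, -⟩ := Finset.mem_filter.1 hj
      have h3 := (Finset.mem_filter.1 h1).2
      apply h2
      show ψ (s * ∏ j, t i j) = 0
      rw [map_mul, map_prod, Finset.prod_eq_zero (Finset.mem_univ j), mul_zero]
      exact h3 (ht2 i j hij.symm)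
  have hAB : ∀ i, (A i).card = (B i).card +
      Nat.card {φ : C ⧸ 𝔭 i →+* F // φ (Ideal.Quotient.mk (𝔭 i) (u i)) = 0} := by
    intro i
    have h1 : Nat.card {φ : C ⧸ 𝔭 i →+* F // φ (Ideal.Quotient.mk (𝔭 i) (u i)) = 0} =
        ((A i).filter fun ψ => ¬ ψ (u i) ≠ 0).card := by
      rw [Finset.filter_filter, ← Fintype.card_subtype, ← Nat.card_eq_fintype_card]
      refine Nat.card_congr (Equiv.symm ?_)
      refine (Equiv.subtypeSubtypeEquivSubtypeInter (fun ψ : C →+* F => 𝔭 i ≤ RingHom.ker ψ)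
        (fun ψ => ¬ ψ (u i) ≠ 0)).symm.trans ?_
      refine (killEquiv (𝔭 i) F).subtypeEquiv fun ψ => ?_
      rw [killEquiv_mk, not_not]
    rw [h1]
    exact (Finset.card_filter_add_card_filter_not (s := A i) (fun ψ => ψ (u i) ≠ 0)).symm
  have hsumAB : ∑ i, (A i).card = ∑ i, (B i).card +
      ∑ i, Nat.card {φ : C ⧸ 𝔭 i →+* F // φ (Ideal.Quotient.mk (𝔭 i) (u i)) = 0} := by
    rw [← Finset.sum_add_distrib]
    exact Finset.sum_congr rfl fun i _ => hAB i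
  rw [hS]
  have e1 : ∑ i, (Nat.card (C ⧸ 𝔭 i →+* F) : ℝ) = ((∑ i, (A i).card : ℕ) : ℝ) := by
    rw [Nat.cast_sum]
    exact Finset.sum_congr rfl fun i _ => by rw [hAc i]
  rw [e1]
  have h1 : (S.card : ℝ) ≤ ((∑ i, (A i).card : ℕ) : ℝ) := by exact_mod_cast hSA
  have h2 : ((∑ i, (A i).card : ℕ) : ℝ) ≤ S.card +
      ∑ i, (Nat.card {φ : C ⧸ 𝔭 i →+* F // φ (Ideal.Quotient.mk (𝔭 i) (u i)) = 0} : ℝ) := by
    rw [hsumAB]
    push_cast
    have : ((∑ i, (B i).card : ℕ) : ℝ) ≤ S.card := by exact_mod_cast hBS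
    push_cast at this
    linarith
  have h3 : |(S.card : ℝ) - ((∑ i, (A i).card : ℕ) : ℝ)| ≤
      ∑ i, (Nat.card {φ : C ⧸ 𝔭 i →+* F // φ (Ideal.Quotient.mk (𝔭 i) (u i)) = 0} : ℝ) := by
    rw [abs_le]
    constructor
    · linarith
    · have : (0 : ℝ) ≤
        ∑ i, (Nat.card {φ : C ⧸ 𝔭 i →+* F // φ (Ideal.Quotient.mk (𝔭 i) (u i)) = 0} : ℝ) :=
        Finset.sum_nonneg fun i _ => Nat.cast_nonneg _
      linarith
  have hq1 : (1 : ℝ) ≤ Nat.card F := by exact_mod_cast Nat.card_pos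
  have hsq : √(Nat.card F : ℝ) ≤ Nat.card F := by
    rw [Real.sqrt_le_left (by linarith)]
    nlinarith
  calc |(S.card : ℝ) - ((∑ i, (A i).card : ℕ) : ℝ)| * √(Nat.card F : ℝ) ≤
      (∑ i, (Nat.card {φ : C ⧸ 𝔭 i →+* F // φ (Ideal.Quotient.mk (𝔭 i) (u i)) = 0} : ℝ)) *
        Nat.card F := by
        refine mul_le_mul h3 hsq (Real.sqrt_nonneg _) (Finset.sum_nonneg fun i _ => Nat.cast_nonneg _)
    _ ≤ (∑ i, K i) * (Nat.card F : ℝ) ^ e := by
        rw [Finset.sum_mul, Finset.sum_mul]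
        exact Finset.sum_le_sum fun i _ => hgood i F (hNF i)

/-- the residue fields of a localisation -/
theorem frac_under {C B L : Type} [CommRing C] [CommRing B] [Algebra C B] (S : Submonoid C)
    [IsLocalization S B] [Field L] (𝔮 : Ideal B) [Algebra (B ⧸ 𝔮) L] [IsFractionRing (B ⧸ 𝔮) L] :
    ∃ _ : Algebra (C ⧸ 𝔮.under C) L, IsFractionRing (C ⧸ 𝔮.under C) L := by
  let j : C ⧸ 𝔮.under C →+* B ⧸ 𝔮 := Ideal.quotientMap 𝔮 (algebraMap C B) le_rfl
  have hj : Function.Injective j := Ideal.quotientMap_injective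
  let _ : Algebra (C ⧸ 𝔮.under C) L := ((algebraMap (B ⧸ 𝔮) L).comp j).toAlgebra
  have hi : Function.Injective (algebraMap (C ⧸ 𝔮.under C) L) :=
    (IsFractionRing.injective (B ⧸ 𝔮) L).comp hj
  have hf : FaithfulSMul (C ⧸ 𝔮.under C) L := (faithfulSMul_iff_algebraMap_injective _ L).2 hi
  refine ⟨inferInstance, IsFractionRing.of_field _ L fun z => ?_⟩
  have hjm : ∀ c : C, algebraMap (C ⧸ 𝔮.under C) L (Ideal.Quotient.mk _ c) =
      algebraMap (B ⧸ 𝔮) L (Ideal.Quotient.mk 𝔮 (algebraMap C B c)) := fun c => rfl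
  obtain ⟨a, b, hb, rfl⟩ := IsFractionRing.div_surjective (A := B ⧸ 𝔮) z
  obtain ⟨a, rfl⟩ := Ideal.Quotient.mk_surjective a
  obtain ⟨b, rfl⟩ := Ideal.Quotient.mk_surjective b
  obtain ⟨⟨x, s⟩, hx⟩ := IsLocalization.surj S a
  obtain ⟨⟨y, t⟩, hy⟩ := IsLocalization.surj S b
  simp only at hx hy
  have hu : ∀ s : S, algebraMap (B ⧸ 𝔮) L (Ideal.Quotient.mk 𝔮 (algebraMap C B s)) ≠ 0 := by
    intro s
    exact (((IsLocalization.map_units B s).map (Ideal.Quotient.mk 𝔮)).map (algebraMap (B ⧸ 𝔮) L)).ne_zero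
  have h1 := congrArg (fun w => algebraMap (B ⧸ 𝔮) L (Ideal.Quotient.mk 𝔮 w)) hx
  have h2 := congrArg (fun w => algebraMap (B ⧸ 𝔮) L (Ideal.Quotient.mk 𝔮 w)) hy
  simp only [map_mul] at h1 h2
  refine ⟨Ideal.Quotient.mk _ (x * t), Ideal.Quotient.mk _ (y * s), ?_⟩
  rw [map_mul, map_mul, map_mul, map_mul, hjm, hjm, hjm, hjm, ← h1, ← h2]
  have e1 := hu s
  have e2 := hu t
  rcases eq_or_ne (algebraMap (B ⧸ 𝔮) L (Ideal.Quotient.mk 𝔮 b)) 0 with h0 | h0
  · rw [h0]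
    simp
  · field_simp

/-- **The number of the zeros of an element.** -/
theorem asy_zeros (S : Submonoid C) {B : Type} [CommRing B] [Algebra C B] [IsLocalization S B] {g s : C}
    (hs : ∀ 𝔭 ∈ (Ideal.span {g}).minimalPrimes, s ∉ 𝔭 ↔ Disjoint (S : Set C) 𝔭) {e : ℕ}
    (hd : ∀ 𝔮 ∈ (Ideal.span {algebraMap C B g}).minimalPrimes, ∃ (L : Type) (_ : Field L)
      (_ : CharZero L) (_ : Algebra (B ⧸ 𝔮) L) (_ : IsFractionRing (B ⧸ 𝔮) L), Algebra.trdeg ℚ L = e) :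
    Asy (fun F _ _ => (Nat.card {ψ : C →+* F // ψ s ≠ 0 ∧ ψ g = 0} : ℝ)) e
      ((Ideal.span {algebraMap C B g}).minimalPrimes.ncard : ℕ) := by
  classical
  have hN : IsNoetherianRing C := Algebra.FiniteType.isNoetherianRing ℤ C
  have hfin : ((Ideal.span {g}).minimalPrimes : Set (Ideal C)).Finite :=
    Ideal.finite_minimalPrimes_of_isNoetherianRing C _
  let ι : Type := {𝔭 : Ideal C // 𝔭 ∈ (Ideal.span {g}).minimalPrimes ∧ s ∉ 𝔭}
  have hfι : Finite ι := (hfin.subset fun 𝔭 (h : 𝔭 ∈ (Ideal.span {g}).minimalPrimes ∧ s ∉ 𝔭) =>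
    h.1).to_subtype
  let _ : Fintype ι := Fintype.ofFinite ι
  have hmap : (Ideal.span {algebraMap C B g}) = (Ideal.span {g}).map (algebraMap C B) := by
    rw [Ideal.map_span, Set.image_singleton]
  have hmin : ∀ 𝔮 : Ideal B, 𝔮 ∈ (Ideal.span {algebraMap C B g}).minimalPrimes ↔
      𝔮.under C ∈ (Ideal.span {g}).minimalPrimes := by
    intro 𝔮
    rw [hmap, IsLocalization.minimalPrimes_map S B]
    rfl
  have hdis : ∀ 𝔮 ∈ (Ideal.span {algebraMap C B g}).minimalPrimes, Disjoint (S : Set C) (𝔮.under C) := by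
    intro 𝔮 h𝔮
    exact ((IsLocalization.isPrime_iff_isPrime_disjoint S B 𝔮).1 h𝔮.1.1).2
  let E : {𝔮 : Ideal B // 𝔮 ∈ (Ideal.span {algebraMap C B g}).minimalPrimes} ≃ ι :=
    { toFun := fun 𝔮 => ⟨𝔮.1.under C, (hmin _).1 𝔮.2, (hs _ ((hmin _).1 𝔮.2)).2 (hdis _ 𝔮.2)⟩
      invFun := fun 𝔭 => ⟨𝔭.1.map (algebraMap C B), (hmin _).2 (by
        have : 𝔭.1.IsPrime := 𝔭.2.1.1.1
        rw [IsLocalization.under_map_of_isPrime_disjoint S B this ((hs _ 𝔭.2.1).1 𝔭.2.2)]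
        exact 𝔭.2.1)⟩
      left_inv := fun 𝔮 => Subtype.ext (IsLocalization.map_under S B 𝔮.1)
      right_inv := fun 𝔭 => Subtype.ext (by
        have : 𝔭.1.IsPrime := 𝔭.2.1.1.1
        exact IsLocalization.under_map_of_isPrime_disjoint S B this ((hs _ 𝔭.2.1).1 𝔭.2.2)) }
  have hcard : (Ideal.span {algebraMap C B g}).minimalPrimes.ncard = Fintype.card ι := by
    rw [← Nat.card_coe_set_eq, Nat.card_congr E, Nat.card_eq_fintype_card]
  have h1 := asy_primes (fun i : ι => i.1) (fun i => i.2.1.1.1) (fun i j hij => by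
    apply Subtype.ext
    have hj : Minimal (fun q : Ideal C => q.IsPrime ∧ Ideal.span {g} ≤ q) j.1 := j.2.1
    exact (hj.eq_of_le i.2.1.1 hij)) (e := e) (fun i => by
    obtain ⟨𝔮, rfl⟩ := E.surjective i
    obtain ⟨L, _, _, _, _, hL⟩ := hd 𝔮.1 𝔮.2
    obtain ⟨h2, h3⟩ := frac_under (L := L) S 𝔮.1
    exact ⟨L, inferInstance, inferInstance, h2, h3, hL⟩) s (fun i => i.2.2)
  rw [hcard]
  refine h1.congr 1 one_ne_zero fun F _ _ _ => ?_
  congr 1
  refine Nat.card_congr (Equiv.subtypeEquivRight fun ψ => and_congr_right fun hψ => ?_)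
  constructor
  · intro h
    have hk : (RingHom.ker ψ).IsPrime := RingHom.ker_isPrime ψ
    have hle : Ideal.span {g} ≤ RingHom.ker ψ := by
      rw [Ideal.span_singleton_le_iff_mem]
      exact h
    obtain ⟨𝔭, h2, h3⟩ := Ideal.exists_minimalPrimes_le hle
    exact ⟨⟨𝔭, h2, fun h4 => hψ (h3 h4)⟩, h3⟩
  · rintro ⟨i, hi⟩
    exact hi (i.2.1.1.2 (Ideal.mem_span_singleton_self g))

end

end Pool.Agent.Run7.h954.CP
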