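import Pool.Agent.Run7.h954.CP.Lem
import Pool.Agent.Run7.h954.CP.Dis
import Pool.Agent.Run7.h954.CP.Cab
import Pool.Agent.Run7.h954.CP.Cnt
import Pool.Agent.Run7.h954.CP.Zr

/-!
# The asymptotic value of the sum of the traces
-/

set_option autoImplicit false
set_option linter.all false
set_option maxHeartbeats 1000000

open Polynomial

namespace Pool.Agent.Run7.h954.CP

open Pool.Agent.R410.NG (Asy Ff)
open Pool.Agent.R410.LW (ft_int)

/-- the zeros of a polynomial in several variables -/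
theorem asy_mv {M A₀ : Type} [Field M] [CharZero M] [CommRing A₀] [IsDomain A₀] [Algebra.FiniteType ℤ A₀]
    [Algebra A₀ M] [IsFractionRing A₀ M] {d k : ℕ} (hd : Algebra.trdeg ℚ M = d)
    {g : MvPolynomial (Fin (k + 1)) A₀} (hg : g ≠ 0) {s : A₀} (hs0 : s ≠ 0)
    (hs : ∀ 𝔭 ∈ (Ideal.span {g}).minimalPrimes, (∃ a : A₀, a ≠ 0 ∧ MvPolynomial.C a ∈ 𝔭) →
      MvPolynomial.C s ∈ 𝔭) :
    Asy (fun F _ _ => (Nat.card {χ : MvPolynomial (Fin (k + 1)) A₀ →+* F //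
      χ (MvPolynomial.C s) ≠ 0 ∧ χ g = 0} : ℝ)) (d + k)
      ((Ideal.span {MvPolynomial.map (algebraMap A₀ M) g}).minimalPrimes.ncard : ℕ) := by
  have hA : Function.Injective (algebraMap A₀ M) := IsFractionRing.injective A₀ M
  let μ : MvPolynomial (Fin (k + 1)) A₀ →+* MvPolynomial (Fin (k + 1)) M :=
    MvPolynomial.map (algebraMap A₀ M)
  let S : Submonoid (MvPolynomial (Fin (k + 1)) A₀) := (nonZeroDivisors A₀).map MvPolynomial.C
  have hloc : IsLoc S μ := (isLoc_iff.2 (inferInstance : IsFractionRing A₀ M)).mv (Fin (k + 1))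
  letI : Algebra (MvPolynomial (Fin (k + 1)) A₀) (MvPolynomial (Fin (k + 1)) M) := μ.toAlgebra
  have hloc' : IsLocalization S (MvPolynomial (Fin (k + 1)) M) := hloc
  have hft : @Algebra.FiniteType ℤ (MvPolynomial (Fin (k + 1)) A₀) _ _ (Ring.toIntAlgebra _) := by
    have h1 : Algebra.FiniteType A₀ (MvPolynomial (Fin (k + 1)) A₀) := inferInstance
    exact ft_int _ (Algebra.FiniteType.trans (inferInstance : Algebra.FiniteType ℤ A₀) h1)
  refine asy_zeros (C := MvPolynomial (Fin (k + 1)) A₀) S (B := MvPolynomial (Fin (k + 1)) M) (g := g)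
    (s := MvPolynomial.C s) ?_ ?_
  · intro 𝔭 h𝔭
    constructor
    · intro h
      rw [Set.disjoint_left]
      rintro _ ⟨a, ha, rfl⟩ h1
      exact h (hs 𝔭 h𝔭 ⟨a, nonZeroDivisors.ne_zero ha, h1⟩)
    · intro h h1
      exact (Set.disjoint_left.1 h) ⟨s, mem_nonZeroDivisors_of_ne_zero hs0, rfl⟩ h1
  · intro 𝔮 h𝔮
    have hg' : μ g ≠ 0 := (map_ne_zero_iff _ (MvPolynomial.map_injective _ hA)).2 hg
    exact trdeg_hyp hd hg' 𝔮 h𝔮

section
variable {M K E A₀ : Type} [Field M] [CharZero M] [Field K] [CharZero K] [Field E] [Algebra M K]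
  [CommRing A₀] [IsDomain A₀] [Algebra.FiniteType ℤ A₀] [Algebra A₀ M] [IsFractionRing A₀ M]
  {d k : ℕ} {w : Fin (k + 1) → K} {n m : ℕ}
  {H₀ : (MvPolynomial (Fin (k + 1)) A₀)[X][X]} {H : K[X][X]}

/-- the zeros of an element of the coordinate ring of the family of curves -/
theorem asy_cv (hd : Algebra.trdeg ℚ M = d) (hw : AlgebraicIndependent M w)
    (hK : IntermediateField.adjoin M (Set.range w) = ⊤) (hn : 0 < n) (hcop : n.Coprime m)
    (hH₀ : IsCab n m H₀) (hH : H₀.map (mapRingHom (evw A₀ M w)) = H) [IsDedekindDomain (AdjoinRoot H)]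
    {f : AdjoinRoot H₀} (hf : f ≠ 0) {r : MvPolynomial (Fin (k + 1)) A₀} (hr0 : r ≠ 0)
    (hr : ∀ (P' : Type) [CommRing P'] [Nontrivial P'] (φ : MvPolynomial (Fin (k + 1)) A₀ →+* P')
      (H' : P'[X][X]) (hH' : H₀.map (mapRingHom φ) = H') (q : P'),
      cst H' q ∣ rootMap (mapRingHom φ) H₀ H' hH' f → q ∣ φ r) {s : A₀} (hs0 : s ≠ 0)
    (hs : ∀ 𝔭 ∈ (Ideal.span {f}).minimalPrimes, (∃ a : A₀, a ≠ 0 ∧
      ((cst H₀).comp MvPolynomial.C) a ∈ 𝔭) → ((cst H₀).comp MvPolynomial.C) s ∈ 𝔭) :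
    Asy (fun F _ _ => (Nat.card {ψ : AdjoinRoot H₀ →+* F //
      ψ (cst H₀ (r * MvPolynomial.C s)) ≠ 0 ∧ ψ f = 0} : ℝ)) (d + (k + 1))
      ((Ideal.span {rootMap (mapRingHom (evw A₀ M w)) H₀ H hH f}).minimalPrimes.ncard : ℕ) := by
  have hA : Function.Injective (algebraMap A₀ M) := IsFractionRing.injective A₀ M
  have hlocK := evw_loc (A₀ := A₀) hw hK
  let ι := rootMap (mapRingHom (evw A₀ M w)) H₀ H hH
  let S : Submonoid (AdjoinRoot H₀) :=
    ((nonZeroDivisors (MvPolynomial (Fin (k + 1)) A₀)).map C).map (AdjoinRoot.of H₀)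
  have hSC : (nonZeroDivisors (MvPolynomial (Fin (k + 1)) A₀)).map
      (C : MvPolynomial (Fin (k + 1)) A₀ →+* (MvPolynomial (Fin (k + 1)) A₀)[X]) ≤
      nonZeroDivisors (MvPolynomial (Fin (k + 1)) A₀)[X] := by
    rintro _ ⟨s, hs, rfl⟩
    exact mem_nonZeroDivisors_of_ne_zero fun h => nonZeroDivisors.ne_zero hs (C_eq_zero.1 h)
  have hm₀ := (hH₀.monic hn).1
  have hloc : IsLoc S ι := (hlocK.poly).root hSC H₀ hm₀ H hH
  letI : Algebra (AdjoinRoot H₀) (AdjoinRoot H) := ι.toAlgebra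
  have hloc' : IsLocalization S (AdjoinRoot H) := hloc
  have hft : @Algebra.FiniteType ℤ (AdjoinRoot H₀) _ _ (Ring.toIntAlgebra _) := by
    have h1 : Algebra.FiniteType A₀ (MvPolynomial (Fin (k + 1)) A₀) := inferInstance
    have h2 : Algebra.FiniteType ℤ (MvPolynomial (Fin (k + 1)) A₀) :=
      ft_int _ (Algebra.FiniteType.trans (inferInstance : Algebra.FiniteType ℤ A₀) h1)
    have h3 : Algebra.FiniteType ℤ (AdjoinRoot H₀) := inferInstance
    exact ft_int _ h3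
  have hinj : Function.Injective ι := rootMap_inj _ (Polynomial.map_injective _
    (evw_inj hA hw)) H₀ hm₀ H hH
  have hf' : ι f ≠ 0 := (map_ne_zero_iff _ hinj).2 hf
  have hnoe : IsNoetherianRing (MvPolynomial (Fin (k + 1)) M) := inferInstance
  refine asy_zeros (C := AdjoinRoot H₀) S (B := AdjoinRoot H) (g := f)
    (s := cst H₀ (r * MvPolynomial.C s)) ?_ ?_
  · intro 𝔭 h𝔭
    have hp : 𝔭.IsPrime := h𝔭.1.1
    constructor
    · intro h
      rw [map_mul] at h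
      have h1 : cst H₀ r ∉ 𝔭 := fun h2 => h (𝔭.mul_mem_right _ h2)
      have h2 : cst H₀ (MvPolynomial.C s) ∉ 𝔭 := fun h2 => h (𝔭.mul_mem_left _ h2)
      have h3 := prime_dis (P := MvPolynomial (Fin (k + 1)) M) (S := (nonZeroDivisors A₀).map MvPolynomial.C)
        (μ := MvPolynomial.map (algebraMap A₀ M))
        ((isLoc_iff.2 (inferInstance : IsFractionRing A₀ M)).mv (Fin (k + 1))) (by
          rintro _ ⟨a, ha, rfl⟩
          exact mem_nonZeroDivisors_of_ne_zero fun h4 => nonZeroDivisors.ne_zero ha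
            (MvPolynomial.C_injective _ _ (by rw [h4, map_zero]))) hn hcop hH₀ rfl (f := f) (r := r)
        (fun q hq => hr _ _ _ rfl q hq) 𝔭 h𝔭 (by
          rintro _ ⟨a, ha, rfl⟩ h4
          exact h2 (hs 𝔭 h𝔭 ⟨a, nonZeroDivisors.ne_zero ha, h4⟩)) h1
      rw [Set.disjoint_left]
      rintro _ ⟨_, ⟨p, hp, rfl⟩, rfl⟩ h4
      exact h3 p (nonZeroDivisors.ne_zero hp) h4
    · intro h h1
      refine (Set.disjoint_left.1 h) ⟨_, ⟨r * MvPolynomial.C s, mem_nonZeroDivisors_of_ne_zero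
        (mul_ne_zero hr0 fun h4 => hs0 (MvPolynomial.C_injective _ _ (by rw [h4, map_zero]))), rfl⟩,
        rfl⟩ h1
  · intro 𝔮 h𝔮
    have hq : 𝔮.IsPrime := h𝔮.1.1
    have h1 : ι f ∈ 𝔮 := h𝔮.1.2 (Ideal.mem_span_singleton_self _)
    have hne : 𝔮 ≠ ⊥ := by
      rintro rfl
      exact hf' h1
    have hmax : 𝔮.IsMaximal := hq.isMaximal hne
    have hftK : Algebra.FiniteType K (AdjoinRoot H) :=
      Algebra.FiniteType.of_surjective ((Ideal.Quotient.mkₐ K (Ideal.span {H})) : K[X][X] →ₐ[K] _)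
        Ideal.Quotient.mk_surjective
    exact trdeg_pt (K := K) (A := AdjoinRoot H) (trdeg_rat hw hK hd) 𝔮 hmax

/-- **The asymptotic value of the sum of the traces.** -/
theorem asy_core (hd : Algebra.trdeg ℚ M = d) (hw : AlgebraicIndependent M w)
    (hK : IntermediateField.adjoin M (Set.range w) = ⊤) (hn : 0 < n) (hcop : n.Coprime m)
    (hH₀ : IsCab n m H₀) (hH : H₀.map (mapRingHom (evw A₀ M w)) = H) [IsDedekindDomain (AdjoinRoot H)]
    [Algebra (AdjoinRoot H₀) E] [Algebra (MvPolynomial (Fin (k + 2)) A₀) E]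
    (iC : Function.Injective (algebraMap (AdjoinRoot H₀) E))
    (iT : Function.Injective (algebraMap (MvPolynomial (Fin (k + 2)) A₀) E))
    (hcomp : ∀ a : A₀, algebraMap (AdjoinRoot H₀) E (cst H₀ (MvPolynomial.C a)) =
      algebraMap (MvPolynomial (Fin (k + 2)) A₀) E (MvPolynomial.C a))
    {f : AdjoinRoot H₀} (hf : f ≠ 0) {r : MvPolynomial (Fin (k + 1)) A₀} (hr0 : r ≠ 0)
    {g : MvPolynomial (Fin (k + 2)) A₀} (hg : g ≠ 0) (haw : aw E (f * cst H₀ r) = aw E g)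
    (hr : ∀ (P' : Type) [CommRing P'] [Nontrivial P'] (φ : MvPolynomial (Fin (k + 1)) A₀ →+* P')
      (H' : P'[X][X]) (hH' : H₀.map (mapRingHom φ) = H') (q : P'),
      cst H' q ∣ rootMap (mapRingHom φ) H₀ H' hH' f → q ∣ φ r) :
    ∃ N : MvPolynomial (Fin (k + 1)) A₀, N ≠ 0 ∧ Asy (fun F _ _ => sC H₀ N F) (d + (k + 1))
      ((((Ideal.span {MvPolynomial.map (algebraMap A₀ M) g}).minimalPrimes.ncard : ℕ) : ℝ) -
        ((Ideal.span {MvPolynomial.map (algebraMap A₀ M) r}).minimalPrimes.ncard : ℕ) -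
        ((Ideal.span {rootMap (mapRingHom (evw A₀ M w)) H₀ H hH f}).minimalPrimes.ncard : ℕ)) := by
  classical
  have hftP : ∀ j : ℕ, @Algebra.FiniteType ℤ (MvPolynomial (Fin j) A₀) _ _ (Ring.toIntAlgebra _) := by
    intro j
    have h1 : Algebra.FiniteType A₀ (MvPolynomial (Fin j) A₀) := inferInstance
    exact ft_int _ (Algebra.FiniteType.trans (inferInstance : Algebra.FiniteType ℤ A₀) h1)
  have hftC : @Algebra.FiniteType ℤ (AdjoinRoot H₀) _ _ (Ring.toIntAlgebra _) := by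
    have h1 : Algebra.FiniteType A₀ (MvPolynomial (Fin (k + 1)) A₀) := inferInstance
    have h2 : Algebra.FiniteType ℤ (MvPolynomial (Fin (k + 1)) A₀) :=
      Algebra.FiniteType.trans (inferInstance : Algebra.FiniteType ℤ A₀) h1
    have h3 : Algebra.FiniteType ℤ (AdjoinRoot H₀) := inferInstance
    exact ft_int _ h3
  have hftP1 := hftP (k + 1)
  have hftP2 := hftP (k + 2)
  have hNC : IsNoetherianRing (AdjoinRoot H₀) := Algebra.FiniteType.isNoetherianRing ℤ _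
  have hNP : IsNoetherianRing (MvPolynomial (Fin (k + 1)) A₀) := Algebra.FiniteType.isNoetherianRing ℤ _
  have hNT : IsNoetherianRing (MvPolynomial (Fin (k + 2)) A₀) := Algebra.FiniteType.isNoetherianRing ℤ _
  obtain ⟨s1, h10, h1⟩ := exists_s (MvPolynomial.C : A₀ →+* MvPolynomial (Fin (k + 2)) A₀)
    (Ideal.span {g}).minimalPrimes (Ideal.finite_minimalPrimes_of_isNoetherianRing _ _)
  obtain ⟨s2, h20, h2⟩ := exists_s (MvPolynomial.C : A₀ →+* MvPolynomial (Fin (k + 1)) A₀)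
    (Ideal.span {r}).minimalPrimes (Ideal.finite_minimalPrimes_of_isNoetherianRing _ _)
  obtain ⟨s3, h30, h3⟩ := exists_s ((cst H₀).comp MvPolynomial.C : A₀ →+* AdjoinRoot H₀)
    (Ideal.span {f}).minimalPrimes (Ideal.finite_minimalPrimes_of_isNoetherianRing _ _)
  obtain ⟨s, hs⟩ : ∃ s, s = s1 * s2 * s3 := ⟨_, rfl⟩
  have hs0 : s ≠ 0 := by
    rw [hs]
    exact mul_ne_zero (mul_ne_zero h10 h20) h30
  have g1 := asy_mv (M := M) hd hg hs0 (fun 𝔭 h𝔭 h => by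
    rw [hs, map_mul, map_mul]
    exact 𝔭.mul_mem_right _ (𝔭.mul_mem_right _ (h1 𝔭 h𝔭 h)))
  have g2 := asy_mv (M := M) hd hr0 hs0 (fun 𝔭 h𝔭 h => by
    rw [hs, map_mul, map_mul]
    exact 𝔭.mul_mem_right _ (𝔭.mul_mem_left _ (h2 𝔭 h𝔭 h)))
  have g3 := asy_cv hd hw hK hn hcop hH₀ hH hf hr0 hr hs0 (fun 𝔭 h𝔭 h => by
    rw [hs, map_mul]
    exact 𝔭.mul_mem_left _ (h3 𝔭 h𝔭 h))
  refine ⟨r * MvPolynomial.C s, mul_ne_zero hr0 fun h4 => hs0 (MvPolynomial.C_injective _ _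
    (by rw [h4, map_zero])), ?_⟩
  have g4 := (g1.add (g2.mulq).neg).add g3.neg
  have e1 : ∀ x y z : ℝ, x + -y + -z = x - y - z := fun x y z => by ring
  rw [e1] at g4
  refine g4.congr 1 one_ne_zero fun F _ _ _ => ?_
  have hF1 : Finite (MvPolynomial (Fin (k + 1)) A₀ →+* F) := Pool.Agent.TH958.An.finite_hom F
  have c1 := count_abs iC iT (MvPolynomial.C : A₀ →+* MvPolynomial (Fin (k + 1)) A₀)
    (MvPolynomial.C : A₀ →+* MvPolynomial (Fin (k + 2)) A₀) (cst H₀) (f := f) (r := r) (g := g)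
    (by
      have hA : Function.Injective (algebraMap A₀ M) := IsFractionRing.injective A₀ M
      have hd₀ : IsDomain (AdjoinRoot H₀) := cab_domain hn hcop hH₀
      exact mul_ne_zero hf ((map_ne_zero_iff _ (cst_inj hn hH₀)).2 hr0)) hg haw hcomp s F
  have c2 := card_split (fun φ : MvPolynomial (Fin (k + 1)) A₀ →+* F => φ (MvPolynomial.C s) ≠ 0)
    (fun φ => φ r = 0)
  have c3 : Nat.card {φ : MvPolynomial (Fin (k + 1)) A₀ →+* F // φ (r * MvPolynomial.C s) ≠ 0} =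
      Nat.card {φ : MvPolynomial (Fin (k + 1)) A₀ →+* F // φ (MvPolynomial.C s) ≠ 0 ∧ ¬ φ r = 0} := by
    refine Nat.card_congr (Equiv.subtypeEquivRight fun φ => ?_)
    rw [map_mul, mul_ne_zero_iff]
    tauto
  have c4 := card_mv (F := F) (k := k + 1) s
  have c5 := card_mv (F := F) (k := k + 2) s
  rw [sC_eq]
  have c1' : ((Nat.card {ψ : AdjoinRoot H₀ →+* F // ψ (cst H₀ (r * MvPolynomial.C s)) ≠ 0} : ℕ) : ℝ) +
      (Nat.card {χ : MvPolynomial (Fin (k + 2)) A₀ →+* F // χ (MvPolynomial.C s) ≠ 0 ∧ χ g = 0} : ℕ) =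
      (Nat.card {χ : MvPolynomial (Fin (k + 2)) A₀ →+* F // χ (MvPolynomial.C s) ≠ 0} : ℕ) +
      (Nat.card {ψ : AdjoinRoot H₀ →+* F // ψ (cst H₀ (r * MvPolynomial.C s)) ≠ 0 ∧ ψ f = 0} : ℕ) := by
    exact_mod_cast c1
  have c2' : ((Nat.card {φ : MvPolynomial (Fin (k + 1)) A₀ →+* F // φ (MvPolynomial.C s) ≠ 0} : ℕ) : ℝ) =
      (Nat.card {φ : MvPolynomial (Fin (k + 1)) A₀ →+* F // φ (MvPolynomial.C s) ≠ 0 ∧ φ r = 0} : ℕ) +
      (Nat.card {φ : MvPolynomial (Fin (k + 1)) A₀ →+* F // φ (r * MvPolynomial.C s) ≠ 0} : ℕ) := by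
    rw [c3]
    exact_mod_cast c2
  have c4' : ((Nat.card {φ : MvPolynomial (Fin (k + 1)) A₀ →+* F // φ (MvPolynomial.C s) ≠ 0} : ℕ) : ℝ) =
      (Nat.card {φ : A₀ →+* F // φ s ≠ 0} : ℕ) * (Nat.card F : ℝ) ^ (k + 1) := by
    exact_mod_cast c4
  have c5' : ((Nat.card {φ : MvPolynomial (Fin (k + 2)) A₀ →+* F // φ (MvPolynomial.C s) ≠ 0} : ℕ) : ℝ) =
      (Nat.card {φ : A₀ →+* F // φ s ≠ 0} : ℕ) * (Nat.card F : ℝ) ^ (k + 2) := by
    exact_mod_cast c5
  have c6 : (Nat.card F : ℝ) * (Nat.card {φ : MvPolynomial (Fin (k + 1)) A₀ →+* F //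
      φ (MvPolynomial.C s) ≠ 0} : ℕ) = (Nat.card {χ : MvPolynomial (Fin (k + 2)) A₀ →+* F //
        χ (MvPolynomial.C s) ≠ 0} : ℕ) := by
    rw [c4', c5']
    ring
  show (Nat.card F : ℝ) * (Nat.card {φ : MvPolynomial (Fin (k + 1)) A₀ →+* F //
      φ (r * MvPolynomial.C s) ≠ 0} : ℕ) -
    (Nat.card {ψ : AdjoinRoot H₀ →+* F // ψ (cst H₀ (r * MvPolynomial.C s)) ≠ 0} : ℕ) = _
  rw [c2'] at c6
  linear_combination c6 - c1'

end

end Pool.Agent.Run7.h954.CP
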