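import Pool.Agent.Run7.h954.CP.RkA

/-!
# Rank of the class group: the formula
-/

set_option autoImplicit false

namespace Pool.Agent.Run7.h954.CP

open IsDedekindDomain FractionalIdeal
open scoped nonZeroDivisors

/-! ### minimal primes of a principal ideal -/

section

variable {R : Type} [CommRing R] [IsDomain R] [UniqueFactorizationMonoid R]

omit [IsDomain R] in
theorem exists_factor {g : R} (hg : g ≠ 0) {𝔪 : Ideal R} (h𝔪 : 𝔪.IsPrime) (hg𝔪 : g ∈ 𝔪) :
    ∃ q ∈ UniqueFactorizationMonoid.factors g, q ∈ 𝔪 := by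
  rw [← Ideal.IsPrime.multiset_prod_mem_iff_exists_mem h𝔪]
  obtain ⟨u, hu⟩ := UniqueFactorizationMonoid.factors_prod hg
  have : (UniqueFactorizationMonoid.factors g).prod = g * ((u⁻¹ : Rˣ) : R) := by
    conv_rhs => rw [← hu, mul_assoc, Units.mul_inv, mul_one]
  rw [this]
  exact 𝔪.mul_mem_right _ hg𝔪

omit [IsDomain R] in
theorem minp_factor {g : R} (hg : g ≠ 0) {𝔪 : Ideal R} (h : 𝔪 ∈ (Ideal.span {g}).minimalPrimes) :
    ∃ q ∈ UniqueFactorizationMonoid.factors g, 𝔪 = Ideal.span {q} := by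
  have h𝔪 : 𝔪.IsPrime := h.1.1
  have hle : Ideal.span {g} ≤ 𝔪 := h.1.2
  obtain ⟨q, hq, hq𝔪⟩ := exists_factor hg h𝔪 (hle (Ideal.mem_span_singleton_self g))
  refine ⟨q, hq, ?_⟩
  have hqp := UniqueFactorizationMonoid.prime_of_factor q hq
  have h1 : Ideal.span {q} ≤ 𝔪 := by rwa [Ideal.span_singleton_le_iff_mem]
  refine le_antisymm ?_ h1
  refine h.2 ⟨?_, ?_⟩ h1
  · exact (Ideal.span_singleton_prime hqp.ne_zero).2 hqp
  · rw [Ideal.span_singleton_le_span_singleton]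
    exact UniqueFactorizationMonoid.dvd_of_mem_factors hq

theorem minp_iff {g : R} (hg : g ≠ 0) (𝔪 : Ideal R) :
    𝔪 ∈ (Ideal.span {g}).minimalPrimes ↔ ∃ q, Prime q ∧ q ∣ g ∧ 𝔪 = Ideal.span {q} := by
  constructor
  · intro h
    obtain ⟨q, hq, h1⟩ := minp_factor hg h
    exact ⟨q, UniqueFactorizationMonoid.prime_of_factor q hq,
      UniqueFactorizationMonoid.dvd_of_mem_factors hq, h1⟩
  · rintro ⟨q, hq, hqg, rfl⟩
    refine ⟨⟨(Ideal.span_singleton_prime hq.ne_zero).2 hq, ?_⟩, ?_⟩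
    · rwa [Ideal.span_singleton_le_span_singleton]
    · rintro 𝔭 ⟨h𝔭, hg𝔭⟩ hle
      obtain ⟨q', hq', hq'𝔭⟩ := exists_factor hg h𝔭 (hg𝔭 (Ideal.mem_span_singleton_self g))
      have h1 : q ∣ q' := Ideal.mem_span_singleton.1 (hle hq'𝔭)
      have h2 : Associated q q' :=
        hq.associated_of_dvd (UniqueFactorizationMonoid.prime_of_factor q' hq') h1
      rw [Ideal.span_singleton_le_iff_mem]
      exact 𝔭.mem_of_dvd h2.symm.dvd hq'𝔭

theorem minp_finite {g : R} (hg : g ≠ 0) : (Ideal.span {g}).minimalPrimes.Finite := by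
  classical
  refine (((UniqueFactorizationMonoid.factors g).toFinset.finite_toSet).image
    fun q => Ideal.span {q}).subset ?_
  intro 𝔪 h
  obtain ⟨q, hq, h1⟩ := minp_factor hg h
  exact ⟨q, by simpa using hq, h1.symm⟩

end

/-! ### the subgroup generated by a subgroup and a finite family -/

/-- the subgroup generated by `U` and the `g j` -/
def Sp {G : Type} [CommGroup G] {ι : Type} [Fintype ι] (U : Subgroup G) (g : ι → G) : Subgroup G where
  carrier := {e | ∃ (ε : G) (x : ι → ℤ), ε ∈ U ∧ e = ε * ∏ j, g j ^ x j}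
  one_mem' := ⟨1, 0, U.one_mem, by simp⟩
  mul_mem' := by
    rintro _ _ ⟨ε, x, hε, rfl⟩ ⟨ε', x', hε', rfl⟩
    refine ⟨ε * ε', x + x', U.mul_mem hε hε', ?_⟩
    have : ∏ j, g j ^ (x + x') j = (∏ j, g j ^ x j) * ∏ j, g j ^ x' j := by
      rw [← Finset.prod_mul_distrib]
      exact Finset.prod_congr rfl fun j _ => by rw [Pi.add_apply, zpow_add]
    rw [this]
    exact mul_mul_mul_comm _ _ _ _
  inv_mem' := by
    rintro _ ⟨ε, x, hε, rfl⟩
    refine ⟨ε⁻¹, -x, U.inv_mem hε, ?_⟩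
    have : ∏ j, g j ^ (-x) j = (∏ j, g j ^ x j)⁻¹ := by
      rw [← Finset.prod_inv_distrib]
      exact Finset.prod_congr rfl fun j _ => by rw [Pi.neg_apply, zpow_neg]
    rw [this, mul_inv]

section

variable {G : Type} [CommGroup G] {ι : Type} [Fintype ι] {U : Subgroup G} {g : ι → G}

theorem mem_Sp {e : G} : e ∈ Sp U g ↔ ∃ (ε : G) (x : ι → ℤ), ε ∈ U ∧ e = ε * ∏ j, g j ^ x j := Iff.rfl

theorem U_le_Sp : U ≤ Sp U g := fun ε hε => ⟨ε, 0, hε, by simp⟩

theorem g_mem_Sp (j : ι) : g j ∈ Sp U g := by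
  classical
  refine ⟨1, Pi.single j 1, U.one_mem, ?_⟩
  rw [one_mul, Finset.prod_eq_single j]
  · rw [Pi.single_eq_same, zpow_one]
  · intro b _ hb
    rw [Pi.single_eq_of_ne hb, zpow_zero]
  · intro h; exact absurd (Finset.mem_univ _) h

theorem Sp_mono {U' : Subgroup G} (h : U ≤ U') : Sp U g ≤ Sp U' g := by
  rintro _ ⟨ε, x, hε, rfl⟩
  exact ⟨ε, x, h hε, rfl⟩

end

/-! ### factorial subrings of a field -/

/-- the units of the ring, as a subgroup -/
def UU (R E : Type) [CommRing R] [Field E] [Algebra R E] : Subgroup Eˣ :=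
  (Units.map (algebraMap R E : R →* E)).range

section

variable {R E : Type} [CommRing R] [IsDomain R] [UniqueFactorizationMonoid R] [Field E] [Algebra R E]

/-- a nonzero element as a unit of the field -/
noncomputable def eu (hinj : Function.Injective (algebraMap R E)) (t : R) (ht : t ≠ 0) : Eˣ :=
  Units.mk0 (algebraMap R E t) (fun h0 => ht (hinj (by rw [h0, map_zero])))

variable (hinj : Function.Injective (algebraMap R E))

omit [IsDomain R] [UniqueFactorizationMonoid R] in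
theorem eu_val (t : R) (ht : t ≠ 0) : (eu hinj t ht : E) = algebraMap R E t := rfl

omit [IsDomain R] [UniqueFactorizationMonoid R] in
theorem eu_mul (s t : R) (hs : s ≠ 0) (ht : t ≠ 0) (hst : s * t ≠ 0) :
    eu hinj (s * t) hst = eu hinj s hs * eu hinj t ht := by
  ext
  rw [Units.val_mul, eu_val, eu_val, eu_val, map_mul]

omit [IsDomain R] [UniqueFactorizationMonoid R] in
theorem eu_unit (t : R) (ht : t ≠ 0) (hu : IsUnit t) : eu hinj t ht ∈ UU R E := by
  obtain ⟨u, rfl⟩ := hu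
  exact ⟨u, by ext; rfl⟩

/-- generators of the minimal primes -/
noncomputable def gq {g : R} (hg : g ≠ 0) (j : ↥(Ideal.span {g}).minimalPrimes) : R :=
  Classical.choose ((minp_iff hg j.1).1 j.2)

theorem gq_prime {g : R} (hg : g ≠ 0) (j : ↥(Ideal.span {g}).minimalPrimes) : Prime (gq hg j) :=
  (Classical.choose_spec ((minp_iff hg j.1).1 j.2)).1

theorem gq_dvd {g : R} (hg : g ≠ 0) (j : ↥(Ideal.span {g}).minimalPrimes) : gq hg j ∣ g :=
  (Classical.choose_spec ((minp_iff hg j.1).1 j.2)).2.1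

theorem gq_span {g : R} (hg : g ≠ 0) (j : ↥(Ideal.span {g}).minimalPrimes) :
    j.1 = Ideal.span {gq hg j} :=
  (Classical.choose_spec ((minp_iff hg j.1).1 j.2)).2.2

theorem gq_inj {g : R} (hg : g ≠ 0) {i j : ↥(Ideal.span {g}).minimalPrimes}
    (h : gq hg i ∣ gq hg j) : i = j := by
  apply Subtype.ext
  rw [gq_span hg i, gq_span hg j, Ideal.span_singleton_eq_span_singleton]
  exact (gq_prime hg i).associated_of_dvd (gq_prime hg j) h

theorem gq_surj {g : R} (hg : g ≠ 0) {q : R} (hq : Prime q) (hqg : q ∣ g) :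
    ∃ j : ↥(Ideal.span {g}).minimalPrimes, Associated (gq hg j) q := by
  refine ⟨⟨Ideal.span {q}, (minp_iff hg _).2 ⟨q, hq, hqg, rfl⟩⟩, ?_⟩
  rw [← Ideal.span_singleton_eq_span_singleton]
  exact (gq_span hg _).symm

theorem eu_mem_Sp {g : R} (hg : g ≠ 0) [Fintype ↥(Ideal.span {g}).minimalPrimes] (t : R) (ht : t ≠ 0)
    (h : ∀ q, Prime q → q ∣ t → q ∣ g) :
    eu hinj t ht ∈ Sp (UU R E) (fun j => eu hinj (gq hg j) (gq_prime hg j).ne_zero) := by
  revert ht h
  induction t using UniqueFactorizationMonoid.induction_on_prime with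
  | h₁ => intro ht; exact absurd rfl ht
  | h₂ t hu =>
    intro ht _
    exact U_le_Sp (eu_unit hinj t ht hu)
  | h₃ t q ht0 hq ih =>
    intro ht h
    rw [eu_mul hinj q t hq.ne_zero ht0]
    refine Subgroup.mul_mem _ ?_ (ih ht0 fun q' hq' hq't => h q' hq' (hq't.mul_left _))
    obtain ⟨j, u, hu⟩ := gq_surj hg hq (h q hq (dvd_mul_right q t))
    have h1 : eu hinj q hq.ne_zero = eu hinj (gq hg j) (gq_prime hg j).ne_zero *
        eu hinj (u : R) u.ne_zero := by
      ext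
      rw [Units.val_mul, eu_val, eu_val, eu_val, ← map_mul, hu]
    rw [h1]
    exact Subgroup.mul_mem _ (g_mem_Sp (g := fun j => eu hinj (gq hg j) (gq_prime hg j).ne_zero) j)
      (U_le_Sp (eu_unit hinj _ _ u.isUnit))

theorem prod_gq_unit {g : R} (hg : g ≠ 0) [Fintype ↥(Ideal.span {g}).minimalPrimes]
    (x : ↥(Ideal.span {g}).minimalPrimes → ℤ)
    (h : ∏ j, eu hinj (gq hg j) (gq_prime hg j).ne_zero ^ x j ∈ UU R E) : x = 0 := by
  classical
  obtain ⟨u, hu⟩ := h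
  set G : ↥(Ideal.span {g}).minimalPrimes → Eˣ := fun j => eu hinj (gq hg j) (gq_prime hg j).ne_zero with hG
  have h1 : ∏ j, G j ^ (x j).toNat = Units.map (algebraMap R E : R →* E) u * ∏ j, G j ^ (-x j).toNat := by
    rw [hu, ← Finset.prod_mul_distrib]
    refine Finset.prod_congr rfl fun j _ => ?_
    rw [← zpow_natCast, ← zpow_natCast, ← zpow_add]
    congr 1
    omega
  have h2 : ∏ j, gq hg j ^ (x j).toNat = (u : R) * ∏ j, gq hg j ^ (-x j).toNat := by
    apply hinj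
    have := congrArg (Units.val : Eˣ → E) h1
    rw [Units.coe_prod, Units.val_mul, Units.coe_prod] at this
    rw [map_mul, map_prod, map_prod]
    simp only [map_pow]
    simpa only [Units.val_pow_eq_pow_val, hG, eu_val, Units.coe_map, MonoidHom.coe_coe] using this
  have key : ∀ (i : ↥(Ideal.span {g}).minimalPrimes) (n : ↥(Ideal.span {g}).minimalPrimes → ℕ),
      gq hg i ∣ ∏ j, gq hg j ^ n j → n i ≠ 0 := by
    intro i n hd hn
    obtain ⟨j, _, hj⟩ := (gq_prime hg i).exists_mem_finset_dvd hd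
    have h3 := (gq_prime hg i).dvd_of_dvd_pow hj
    have h4 := gq_inj hg h3
    subst h4
    rw [hn, pow_zero] at hj
    exact (gq_prime hg i).not_isUnit (isUnit_of_dvd_one hj)
  have key2 : ∀ (i : ↥(Ideal.span {g}).minimalPrimes) (n : ↥(Ideal.span {g}).minimalPrimes → ℕ),
      n i ≠ 0 → gq hg i ∣ ∏ j, gq hg j ^ n j := by
    intro i n hn
    exact (dvd_pow_self _ hn).trans (Finset.dvd_prod_of_mem _ (Finset.mem_univ i))
  funext i
  by_contra hx
  have hx' : x i ≠ 0 := hx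
  rcases lt_or_gt_of_ne hx' with hlt | hgt
  · have h3 : gq hg i ∣ ∏ j, gq hg j ^ (x j).toNat := by
      rw [h2]
      exact (key2 i (fun j => (-x j).toNat) (by show (-x i).toNat ≠ 0; omega)).mul_left _
    exact key i (fun j => (x j).toNat) h3 (by show (x i).toNat = 0; omega)
  · have h3 : gq hg i ∣ (u : R) * ∏ j, gq hg j ^ (-x j).toNat := by
      rw [← h2]
      exact key2 i (fun j => (x j).toNat) (by show (x i).toNat ≠ 0; omega)
    rcases (gq_prime hg i).dvd_or_dvd h3 with h4 | h4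
    · exact (gq_prime hg i).not_isUnit (isUnit_of_dvd_unit h4 u.isUnit)
    · exact key i (fun j => (-x j).toNat) h4 (by show (-x i).toNat = 0; omega)

end

section
variable {P T C A E : Type} [CommRing P] [IsDomain P] [UniqueFactorizationMonoid P]
    [CommRing T] [IsDomain T] [UniqueFactorizationMonoid T] [CommRing C] [IsDomain C]
    [CommRing A] [IsDedekindDomain A] [Field E] [Algebra P C] [Algebra P A] [Algebra C A] [Algebra P E]
    [Algebra C E] [Algebra A E] [Algebra T E] {f : C} {r : P} {g : T}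

namespace Sit

variable (h : Sit P T C A E f r g)

include h

theorem UU_eq : UU T E = UU P E := by
  ext e
  constructor
  · rintro ⟨u, rfl⟩
    obtain ⟨p, hp, hpt⟩ := h.unitT u u.isUnit
    obtain ⟨v, rfl⟩ := hp
    exact ⟨v, by ext; exact hpt⟩
  · rintro ⟨u, rfl⟩
    obtain ⟨t, ht, hpt⟩ := h.unitP u u.isUnit
    obtain ⟨v, rfl⟩ := ht
    exact ⟨v, by ext; exact hpt.symm⟩

end Sit

/-- the quotients of elements of `P` -/
def UK (P E : Type) [CommRing P] [IsDomain P] [Field E] [Algebra P E] : Subgroup Eˣ where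
  carrier := {e | ∃ a b : P, a ≠ 0 ∧ b ≠ 0 ∧ (e : E) * algebraMap P E b = algebraMap P E a}
  one_mem' := ⟨1, 1, one_ne_zero, one_ne_zero, by simp⟩
  mul_mem' := by
    rintro e e' ⟨a, b, ha, hb, hab⟩ ⟨a', b', ha', hb', hab'⟩
    refine ⟨a * a', b * b', mul_ne_zero ha ha', mul_ne_zero hb hb', ?_⟩
    rw [Units.val_mul, map_mul, map_mul, ← hab, ← hab']
    ring
  inv_mem' := by
    rintro e ⟨a, b, ha, hb, hab⟩
    refine ⟨b, a, hb, ha, ?_⟩
    rw [← hab, ← mul_assoc, Units.inv_mul, one_mul]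

namespace Sit

variable (h : Sit P T C A E f r g)

include h

theorem UU_le : UU T E ≤ UK P E := by
  rw [h.UU_eq]
  rintro _ ⟨u, rfl⟩
  exact ⟨u, 1, u.ne_zero, one_ne_zero, by simp⟩

/-- the units of `D` -/
theorem unitD [Fintype ↥(Ideal.span {g}).minimalPrimes] {e : Eˣ} (he : (e : E) ∈ Loc T E g)
    (he' : (e : E)⁻¹ ∈ Loc T E g) :
    e ∈ Sp (UU T E) (fun j => eu h.injTE (gq h.g0 j) (gq_prime h.g0 j).ne_zero) := by
  obtain ⟨k, t, ht⟩ := he
  obtain ⟨l, t', ht'⟩ := he'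
  have h1 : t * t' = g ^ (k + l) := by
    apply h.injTE
    rw [map_mul, ht, ht', map_pow, pow_add]
    field_simp
  have hg : g ^ (k + l) ≠ 0 := pow_ne_zero _ h.g0
  have ht0 : t ≠ 0 := by
    rintro rfl
    rw [zero_mul] at h1
    exact hg h1.symm
  have hdiv : ∀ q : T, Prime q → q ∣ t → q ∣ g := by
    intro q hq hqt
    exact hq.dvd_of_dvd_pow ((hqt.trans (dvd_mul_right t t')).trans h1.dvd)
  have h2 : e = eu h.injTE t ht0 * (eu h.injTE g h.g0 ^ k)⁻¹ := by
    rw [eq_mul_inv_iff_mul_eq]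
    ext
    rw [Units.val_mul, Units.val_pow_eq_pow_val, eu_val, eu_val, ht]
  rw [h2]
  exact Subgroup.mul_mem _ (eu_mem_Sp h.injTE h.g0 t ht0 hdiv) (Subgroup.inv_mem _
    (Subgroup.pow_mem _ (eu_mem_Sp h.injTE h.g0 g h.g0 fun _ _ hq => hq) _))

/-- an element with nonnegative valuation outside `f` is in `A_f` -/
theorem mem_Af [IsFractionRing A E] {e : Eˣ} (he : ∀ 𝔮 : HeightOneSpectrum A,
    algebraMap C A f ∉ 𝔮.asIdeal → 0 ≤ vv 𝔮 e) : (e : E) ∈ Loc A E (algebraMap C A f) := by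
  classical
  have hfE : algebraMap A E (algebraMap C A f) ≠ 0 := by rw [← h.algCE]; exact h.fE0
  set F := (finite_mem h.fA0).toFinset with hF
  set N := ∑ 𝔮 ∈ F, (vv 𝔮 e).natAbs with hN
  have h1 : ∀ 𝔮 : HeightOneSpectrum A, 0 ≤ vv 𝔮 (e * Units.mk0 _ hfE ^ (N : ℤ)) := by
    intro 𝔮
    rw [vv_mul, vv_zpow]
    by_cases h𝔮 : algebraMap C A f ∈ 𝔮.asIdeal
    · have h2 : 0 < vv 𝔮 (Units.mk0 _ hfE) := (vv_pos_iff_mem 𝔮 (Units.val_mk0 hfE)).2 h𝔮
      have h3 : (vv 𝔮 e).natAbs ≤ N :=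
        Finset.single_le_sum (f := fun 𝔮 => (vv 𝔮 e).natAbs) (fun _ _ => Nat.zero_le _)
          (by rw [hF, Set.Finite.mem_toFinset]; exact h𝔮)
      have h4 : (N : ℤ) * 1 ≤ N * vv 𝔮 (Units.mk0 _ hfE) :=
        mul_le_mul_of_nonneg_left (by omega) (by positivity)
      omega
    · rw [vv_zero_of_not_mem 𝔮 (Units.val_mk0 hfE) h𝔮, mul_zero, add_zero]
      exact he 𝔮 h𝔮
  obtain ⟨a, ha⟩ := mem_of_vv_nonneg _ h1
  refine ⟨N, a, ?_⟩
  rw [ha, Units.val_mul, zpow_natCast, Units.val_pow_eq_pow_val, Units.val_mk0]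

theorem P_mem' (p : P) : algebraMap P E p ∈ Loc C E (f * algebraMap P C r) := by
  rw [h.algPE]
  exact alg_mem_Loc _

theorem invf_mem' : (algebraMap C E f)⁻¹ ∈ Loc C E (f * algebraMap P C r) :=
  inv_mem_Loc_of_dvd h.sE0 (dvd_mul_right _ _)

theorem invP_mem' {q : P} (hq : q ∣ r) : (algebraMap P E q)⁻¹ ∈ Loc C E (f * algebraMap P C r) := by
  rw [h.algPE]
  exact inv_mem_Loc_of_dvd h.sE0 ((map_dvd (algebraMap P C) hq).mul_left _)

/-- clear denominators in `P` -/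
theorem Af_clear {e : E} (he : e ∈ Loc A E (algebraMap C A f)) :
    ∃ p : P, p ≠ 0 ∧ e * algebraMap P E p ∈ Loc C E (f * algebraMap P C r) := by
  have := h.loc
  obtain ⟨k, a, ha⟩ := he
  obtain ⟨⟨c, ⟨_, p, hp, rfl⟩⟩, hc⟩ :=
    IsLocalization.surj (Algebra.algebraMapSubmonoid C (nonZeroDivisors P)) a
  have hc' : a * algebraMap C A (algebraMap P C p) = algebraMap C A c := hc
  refine ⟨p, nonZeroDivisors.ne_zero hp, ?_⟩
  have h1 : e * algebraMap P E p = algebraMap C E c * (algebraMap C E f)⁻¹ ^ k := by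
    have h2 := congrArg (algebraMap A E) hc'
    rw [map_mul, ha, ← h.algCE, ← h.algCE, ← h.algCE, ← h.algPE] at h2
    rw [← h2, inv_pow, mul_right_comm e, mul_inv_cancel_right₀]
    exact pow_ne_zero _ h.fE0
  rw [h1]
  exact Subring.mul_mem _ (alg_mem_Loc c) (Subring.pow_mem _ h.invf_mem' _)

theorem not_dvd_s {q : P} (hq : Prime q) (hqr : ¬ q ∣ r) :
    ¬ algebraMap P C q ∣ f * algebraMap P C r := by
  intro hd
  rcases (h.prime q hq.irreducible).dvd_or_dvd hd with h1 | h1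
  · exact h.vert q hq.irreducible hqr h1
  · exact hqr (h.dvd q r hq.irreducible h1)

/-- a prime of `P` which does not divide `r` is a prime element of `D` -/
theorem primeD {q : P} (hq : Prime q) (hqr : ¬ q ∣ r) {x y : E}
    (hx : x ∈ Loc C E (f * algebraMap P C r)) (hy : y ∈ Loc C E (f * algebraMap P C r))
    (hxy : x * y * (algebraMap P E q)⁻¹ ∈ Loc C E (f * algebraMap P C r)) :
    x * (algebraMap P E q)⁻¹ ∈ Loc C E (f * algebraMap P C r) ∨
      y * (algebraMap P E q)⁻¹ ∈ Loc C E (f * algebraMap P C r) := by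
  obtain ⟨k, c₁, h1⟩ := hx
  obtain ⟨l, c₂, h2⟩ := hy
  obtain ⟨m, c₃, h3⟩ := hxy
  have hqE : algebraMap P E q ≠ 0 := h.PE0 hq.ne_zero
  have h4 : c₁ * c₂ * (f * algebraMap P C r) ^ m =
      algebraMap P C q * (c₃ * (f * algebraMap P C r) ^ (k + l)) := by
    apply h.injCE
    simp only [map_mul, map_pow] at h1 h2 h3 ⊢
    rw [h1, h2, h3, ← h.algPE, ← h.algPE]
    field_simp
    ring
  have hqp := h.prime q hq.irreducible
  have h5 : algebraMap P C q ∣ c₁ * c₂ * (f * algebraMap P C r) ^ m := ⟨_, h4⟩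
  have key : ∀ (z : E) (k : ℕ) (c : C), algebraMap C E c = z * algebraMap C E (f * algebraMap P C r) ^ k →
      algebraMap P C q ∣ c → z * (algebraMap P E q)⁻¹ ∈ Loc C E (f * algebraMap P C r) := by
    rintro z k _ hz ⟨c, rfl⟩
    refine ⟨k, c, ?_⟩
    rw [map_mul, ← h.algPE] at hz
    rw [mul_right_comm, ← hz]
    field_simp
  rcases hqp.dvd_or_dvd h5 with h6 | h6
  · rcases hqp.dvd_or_dvd h6 with h7 | h7
    · exact Or.inl (key x k c₁ h1 h7)
    · exact Or.inr (key y l c₂ h2 h7)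
  · exact absurd (hqp.dvd_of_dvd_pow h6) (h.not_dvd_s hq hqr)

theorem dvdD {q : P} (hq : Prime q) (hqr : ¬ q ∣ r) {b : P}
    (hb : algebraMap P E b * (algebraMap P E q)⁻¹ ∈ Loc C E (f * algebraMap P C r)) : q ∣ b := by
  obtain ⟨m, c, hc⟩ := hb
  have hqE : algebraMap P E q ≠ 0 := h.PE0 hq.ne_zero
  have h4 : algebraMap P C b * (f * algebraMap P C r) ^ m = algebraMap P C q * c := by
    apply h.injCE
    rw [map_mul, map_mul, hc, map_pow, ← h.algPE, ← h.algPE]
    field_simp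
  have hqp := h.prime q hq.irreducible
  rcases hqp.dvd_or_dvd ⟨_, h4⟩ with h6 | h6
  · exact h.dvd q b hq.irreducible h6
  · exact absurd (hqp.dvd_of_dvd_pow h6) (h.not_dvd_s hq hqr)

/-- a divisor in `D` of an element of `P` is a unit times an element of `P` -/
theorem divP (p : P) (hp : p ≠ 0) (δ δ' : E) (hδ : δ ∈ Loc C E (f * algebraMap P C r))
    (hδ' : δ' ∈ Loc C E (f * algebraMap P C r)) (heq : δ * δ' = algebraMap P E p) :
    ∃ (κ : P) (η : E), κ ≠ 0 ∧ η ≠ 0 ∧ η ∈ Loc C E (f * algebraMap P C r) ∧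
      η⁻¹ ∈ Loc C E (f * algebraMap P C r) ∧ δ = algebraMap P E κ * η := by
  revert hp δ δ'
  induction p using UniqueFactorizationMonoid.induction_on_prime with
  | h₁ => intro hp; exact absurd rfl hp
  | h₂ p hu =>
    intro hp δ δ' hδ hδ' heq
    have hpE := h.PE0 hp
    have hδ0 : δ ≠ 0 := by
      rintro rfl
      rw [zero_mul] at heq
      exact hpE heq.symm
    refine ⟨1, δ, one_ne_zero, hδ0, hδ, ?_, by rw [map_one, one_mul]⟩
    obtain ⟨v, hv⟩ := hu.exists_left_inv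
    have : δ⁻¹ = δ' * algebraMap P E v := by
      apply inv_eq_of_mul_eq_one_right
      rw [← mul_assoc, heq, ← map_mul, mul_comm, hv, map_one]
    rw [this]
    exact Subring.mul_mem _ hδ' (h.P_mem' v)
  | h₃ p q hp0 hq ih =>
    intro hp δ δ' hδ hδ' heq
    have hqE : algebraMap P E q ≠ 0 := h.PE0 hq.ne_zero
    rw [map_mul] at heq
    by_cases hqr : q ∣ r
    · refine ih hp0 δ (δ' * (algebraMap P E q)⁻¹) hδ (Subring.mul_mem _ hδ' (h.invP_mem' hqr)) ?_
      rw [← mul_assoc, heq]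
      field_simp
    · have h1 : δ * δ' * (algebraMap P E q)⁻¹ ∈ Loc C E (f * algebraMap P C r) := by
        have : δ * δ' * (algebraMap P E q)⁻¹ = algebraMap P E p := by
          rw [heq]
          field_simp
        rw [this]
        exact h.P_mem' p
      rcases h.primeD hq hqr hδ hδ' h1 with h2 | h2
      · obtain ⟨κ, η, hκ, hη, hη1, hη2, h3⟩ := ih hp0 (δ * (algebraMap P E q)⁻¹) δ' h2 hδ' (by
          rw [mul_right_comm, heq]
          field_simp)
        refine ⟨q * κ, η, mul_ne_zero hq.ne_zero hκ, hη, hη1, hη2, ?_⟩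
        rw [map_mul, mul_assoc, ← h3]
        field_simp
      · refine ih hp0 δ (δ' * (algebraMap P E q)⁻¹) hδ h2 ?_
        rw [← mul_assoc, heq]
        field_simp

/-- a quotient of elements of `P` which is a unit of `D` -/
theorem UK_unitD [Fintype ↥(Ideal.span {r}).minimalPrimes] {κ : Eˣ} (hκ : κ ∈ UK P E)
    (h1 : (κ : E) ∈ Loc C E (f * algebraMap P C r)) (h2 : (κ : E)⁻¹ ∈ Loc C E (f * algebraMap P C r)) :
    κ ∈ Sp (UU T E) (fun i => eu h.injPE (gq h.r0 i) (gq_prime h.r0 i).ne_zero) := by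
  rw [h.UU_eq]
  obtain ⟨a₀, b₀, ha₀, hb₀, hab₀⟩ := hκ
  obtain ⟨a, b, c, hrel, rfl, rfl⟩ := UniqueFactorizationMonoid.exists_reduced_factors a₀ ha₀ b₀
  have ha : a ≠ 0 := right_ne_zero_of_mul ha₀
  have hb : b ≠ 0 := right_ne_zero_of_mul hb₀
  have hc : c ≠ 0 := left_ne_zero_of_mul hb₀
  have hcE := h.PE0 hc
  have hab : (κ : E) * algebraMap P E b = algebraMap P E a := by
    rw [map_mul, map_mul] at hab₀
    apply mul_left_cancel₀ hcE
    rw [← hab₀]
    ring
  have hdiva : ∀ q : P, Prime q → q ∣ a → q ∣ r := by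
    intro q hq hqa
    by_contra hqr
    obtain ⟨a', rfl⟩ := hqa
    have hqE : algebraMap P E q ≠ 0 := h.PE0 hq.ne_zero
    have h3 : algebraMap P E b * (algebraMap P E q)⁻¹ = (κ : E)⁻¹ * algebraMap P E a' := by
      rw [map_mul] at hab
      field_simp
      linear_combination hab
    have h4 : q ∣ b := h.dvdD hq hqr (by
      rw [h3]
      exact Subring.mul_mem _ h2 (h.P_mem' a'))
    exact hq.not_isUnit (hrel (dvd_mul_right q a') h4)
  have hdivb : ∀ q : P, Prime q → q ∣ b → q ∣ r := by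
    intro q hq hqb
    by_contra hqr
    obtain ⟨b', rfl⟩ := hqb
    have hqE : algebraMap P E q ≠ 0 := h.PE0 hq.ne_zero
    have h3 : algebraMap P E a * (algebraMap P E q)⁻¹ = (κ : E) * algebraMap P E b' := by
      rw [← hab, map_mul]
      field_simp
    have h4 : q ∣ a := h.dvdD hq hqr (by
      rw [h3]
      exact Subring.mul_mem _ h1 (h.P_mem' b'))
    exact hq.not_isUnit (hrel h4 (dvd_mul_right q b'))
  have h5 : κ = eu h.injPE a ha * (eu h.injPE b hb)⁻¹ := by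
    rw [eq_mul_inv_iff_mul_eq]
    ext
    rw [Units.val_mul, eu_val, eu_val, hab]
  rw [h5]
  exact Subgroup.mul_mem _ (eu_mem_Sp h.injPE h.r0 a ha hdiva)
    (Subgroup.inv_mem _ (eu_mem_Sp h.injPE h.r0 b hb hdivb))

end Sit

/-- the minimal primes of `(f)` in a Dedekind domain -/
theorem minp_dedekind {A : Type} [CommRing A] [IsDedekindDomain A] {a : A} (ha : a ≠ 0) :
    (Ideal.span {a}).minimalPrimes =
      (fun 𝔭 : HeightOneSpectrum A => 𝔭.asIdeal) '' {𝔭 : HeightOneSpectrum A | a ∈ 𝔭.asIdeal} := by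
  ext 𝔪
  constructor
  · intro h𝔪
    have hp : 𝔪.IsPrime := h𝔪.1.1
    have ha𝔪 : a ∈ 𝔪 := h𝔪.1.2 (Ideal.mem_span_singleton_self a)
    exact ⟨⟨𝔪, hp, fun h0 => ha (by rwa [h0, Ideal.mem_bot] at ha𝔪)⟩, ha𝔪, rfl⟩
  · rintro ⟨𝔭, ha𝔭, rfl⟩
    refine ⟨⟨𝔭.isPrime, ?_⟩, ?_⟩
    · show Ideal.span {a} ≤ 𝔭.asIdeal
      rw [Ideal.span_singleton_le_iff_mem]
      exact ha𝔭
    · rintro J ⟨hJ, haJ⟩ hle
      have hJ0 : J ≠ ⊥ := by
        rintro rfl
        exact ha (by simpa using haJ (Ideal.mem_span_singleton_self a))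
      exact ((hJ.isMaximal hJ0).eq_of_le 𝔭.isPrime.ne_top hle).ge

/-- Piece RKB: the rank of the class group. -/
theorem rank_rel (h : Sit P T C A E f r g) :
    Module.rank ℤ (Additive (ClassGroup A)) + (((Ideal.span {g}).minimalPrimes.ncard : ℕ) : Cardinal) =
      (((Ideal.span {algebraMap C A f}).minimalPrimes.ncard : ℕ) : Cardinal) +
        (((Ideal.span {r}).minimalPrimes.ncard : ℕ) : Cardinal) := by
  classical
  have frA := h.frA
  have fT : Fintype ↥(Ideal.span {g}).minimalPrimes := (minp_finite h.g0).fintype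
  have fP : Fintype ↥(Ideal.span {r}).minimalPrimes := (minp_finite h.r0).fintype
  have fI : Fintype {𝔭 : HeightOneSpectrum A // algebraMap C A f ∈ 𝔭.asIdeal} :=
    (finite_mem h.fA0).fintype
  have hrange : Set.range (Subtype.val : {𝔭 : HeightOneSpectrum A // algebraMap C A f ∈ 𝔭.asIdeal} →
      HeightOneSpectrum A) = {𝔭 | algebraMap C A f ∈ 𝔭.asIdeal} := Subtype.range_coe
  have hnot : ∀ 𝔮 : HeightOneSpectrum A, 𝔮 ∉ Set.range (Subtype.val :
      {𝔭 : HeightOneSpectrum A // algebraMap C A f ∈ 𝔭.asIdeal} → HeightOneSpectrum A) ↔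
      algebraMap C A f ∉ 𝔮.asIdeal := by
    intro 𝔮
    rw [hrange]
    rfl
  have hgD : ∀ j, (algebraMap T E (gq h.g0 j))⁻¹ ∈ Loc T E g := fun j =>
    inv_mem_Loc_of_dvd h.gE0 (gq_dvd h.g0 j)
  have key := rank_lattice (E := E)
    (Subtype.val : {𝔭 : HeightOneSpectrum A // algebraMap C A f ∈ 𝔭.asIdeal} → HeightOneSpectrum A)
    Subtype.val_injective
    (fun j : ↥(Ideal.span {g}).minimalPrimes => eu h.injTE (gq h.g0 j) (gq_prime h.g0 j).ne_zero)
    (fun i : ↥(Ideal.span {r}).minimalPrimes => eu h.injPE (gq h.r0 i) (gq_prime h.r0 i).ne_zero)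
    (UK P E) (UU T E) h.UU_le ?_ ?_ ?_ ?_ ?_ ?_ ?_ ?_ ?_
  · rw [minp_dedekind h.fA0, Set.ncard_image_of_injective _ (fun a b hab => HeightOneSpectrum.ext hab)]
    have e1 : {𝔭 : HeightOneSpectrum A | algebraMap C A f ∈ 𝔭.asIdeal}.ncard =
        Fintype.card {𝔭 : HeightOneSpectrum A // algebraMap C A f ∈ 𝔭.asIdeal} := by
      rw [← Nat.card_eq_fintype_card, ← Nat.card_coe_set_eq]
      rfl
    have e2 : (Ideal.span {g}).minimalPrimes.ncard = Fintype.card ↥(Ideal.span {g}).minimalPrimes := by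
      rw [← Nat.card_eq_fintype_card, ← Nat.card_coe_set_eq]
    have e3 : (Ideal.span {r}).minimalPrimes.ncard = Fintype.card ↥(Ideal.span {r}).minimalPrimes := by
      rw [← Nat.card_eq_fintype_card, ← Nat.card_coe_set_eq]
    rw [e1, e2, e3]
    exact key
  · -- a1
    intro 𝔮
    obtain ⟨k, hk, hk'⟩ := class_gen h 𝔮
    refine ⟨k, hk, ?_⟩
    have : (Set.range fun i : {𝔭 : HeightOneSpectrum A // algebraMap C A f ∈ 𝔭.asIdeal} => cl i.1) =
        {c | ∃ 𝔭 : IsDedekindDomain.HeightOneSpectrum A, algebraMap C A f ∈ 𝔭.asIdeal ∧ c = cl 𝔭} := by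
      ext c
      constructor
      · rintro ⟨⟨𝔭, h𝔭⟩, rfl⟩
        exact ⟨𝔭, h𝔭, rfl⟩
      · rintro ⟨𝔭, h𝔭, rfl⟩
        exact ⟨⟨𝔭, h𝔭⟩, rfl⟩
    rw [this]
    exact hk'
  · -- a2
    intro j 𝔮 h𝔮
    rw [hnot] at h𝔮
    apply h.vv_Af0 h𝔮 (h.T_mem _)
    apply h.D_le
    rw [h.Deq]
    exact hgD j
  · -- a3
    intro e he
    have he1 : ∀ 𝔮 : HeightOneSpectrum A, algebraMap C A f ∉ 𝔮.asIdeal → vv 𝔮 e = 0 := by
      intro 𝔮 h𝔮
      exact he 𝔮 ((hnot 𝔮).2 h𝔮)
    have h1 : (e : E) ∈ Loc A E (algebraMap C A f) := h.mem_Af fun 𝔮 h𝔮 => (he1 𝔮 h𝔮).ge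
    have h2 : ((e⁻¹ : Eˣ) : E) ∈ Loc A E (algebraMap C A f) := h.mem_Af fun 𝔮 h𝔮 => by
      rw [vv_inv, he1 𝔮 h𝔮, neg_zero]
    obtain ⟨p, hp, hp'⟩ := h.Af_clear h1
    obtain ⟨q, hq, hq'⟩ := h.Af_clear h2
    obtain ⟨κ, η, hκ, hη0, hη1, hη2, h3⟩ := h.divP (p * q) (mul_ne_zero hp hq) _ _ hp' hq' (by
      rw [map_mul, mul_mul_mul_comm, Units.mul_inv, one_mul])
    have h4 : e = (eu h.injPE κ hκ * (eu h.injPE p hp)⁻¹) * Units.mk0 η hη0 := by
      rw [mul_right_comm, eq_mul_inv_iff_mul_eq]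
      ext
      rw [Units.val_mul, Units.val_mul, eu_val, eu_val, Units.val_mk0, h3]
    rw [← mem_Sp, h4]
    refine Subgroup.mul_mem _ (U_le_Sp ?_) (Sp_mono h.UU_le (h.unitD ?_ ?_))
    · refine ⟨κ, p, hκ, hp, ?_⟩
      rw [Units.val_mul, Units.val_inv_eq_inv_val, eu_val, eu_val, inv_mul_cancel_right₀ (h.PE0 hp)]
    · rw [← h.Deq]; exact hη1
    · rw [← h.Deq]; exact hη2
  · -- a4
    rintro κ ⟨a, b, ha, hb, hab⟩ 𝔮
    have h1 : ∀ (p : P) (hp : p ≠ 0), vv 𝔮 (eu h.injPE p hp) = 0 := by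
      intro p hp
      obtain ⟨a, ha⟩ := h.unitPA hp
      apply vv_zero_of_not_mem 𝔮 (a := algebraMap P A p)
      · rw [eu_val, h.algPE']
      · intro hmem
        apply 𝔮.isPrime.ne_top
        rw [Ideal.eq_top_iff_one, ← ha]
        exact 𝔮.asIdeal.mul_mem_left _ hmem
    have h2 : κ = eu h.injPE a ha * (eu h.injPE b hb)⁻¹ := by
      rw [eq_mul_inv_iff_mul_eq]
      ext
      rw [Units.val_mul, eu_val, eu_val, hab]
    rw [h2, vv_mul, vv_inv, h1, h1]
    rfl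
  · -- a5
    intro e he
    obtain ⟨a, ha⟩ := mem_of_vv_nonneg e fun 𝔮 => (he 𝔮).ge
    obtain ⟨b, hb⟩ := mem_of_vv_nonneg (A := A) e⁻¹ fun 𝔮 => by rw [vv_inv, he 𝔮, neg_zero]
    have hab : a * b = 1 := by
      apply h.injAE
      rw [map_mul, ha, hb, Units.mul_inv, map_one]
    obtain ⟨p, q, hp, hq, hpq⟩ := h.unitA a (IsUnit.of_mul_eq_one b hab)
    refine ⟨p, q, hp, hq, ?_⟩
    rw [h.algPE', h.algPE', ← ha, ← map_mul, hpq]
  · -- a6
    intro x hx
    refine h.UK_unitD hx ?_ ?_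
    · rw [h.Deq, Units.coe_prod]
      refine Subring.prod_mem _ fun j _ => ?_
      have h1 : ∀ n : ℤ, ((eu h.injTE (gq h.g0 j) (gq_prime h.g0 j).ne_zero ^ n : Eˣ) : E) ∈ Loc T E g := by
        intro n
        obtain ⟨m, rfl | rfl⟩ := n.eq_nat_or_neg
        · rw [zpow_natCast, Units.val_pow_eq_pow_val]
          exact Subring.pow_mem _ (alg_mem_Loc _) _
        · rw [zpow_neg, zpow_natCast, ← inv_pow, Units.val_pow_eq_pow_val, Units.val_inv_eq_inv_val]
          exact Subring.pow_mem _ (hgD j) _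
      exact h1 _
    · rw [h.Deq, ← Units.val_inv_eq_inv_val, ← Finset.prod_inv_distrib, Units.coe_prod]
      refine Subring.prod_mem _ fun j _ => ?_
      have h1 : ∀ n : ℤ, ((eu h.injTE (gq h.g0 j) (gq_prime h.g0 j).ne_zero ^ n : Eˣ) : E) ∈ Loc T E g := by
        intro n
        obtain ⟨m, rfl | rfl⟩ := n.eq_nat_or_neg
        · rw [zpow_natCast, Units.val_pow_eq_pow_val]
          exact Subring.pow_mem _ (alg_mem_Loc _) _
        · rw [zpow_neg, zpow_natCast, ← inv_pow, Units.val_pow_eq_pow_val, Units.val_inv_eq_inv_val]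
          exact Subring.pow_mem _ (hgD j) _
      rw [← zpow_neg]
      exact h1 _
  · -- a7
    intro i
    refine ⟨⟨gq h.r0 i, 1, (gq_prime h.r0 i).ne_zero, one_ne_zero, by rw [map_one, mul_one]; rfl⟩, ?_⟩
    refine h.unitD ?_ ?_
    · rw [← h.Deq]
      exact h.P_mem' _
    · rw [← h.Deq]
      exact h.invP_mem' (gq_dvd h.r0 i)
  · -- a8
    intro x hx
    exact prod_gq_unit h.injTE h.g0 x hx
  · -- a9
    intro y hy
    rw [h.UU_eq] at hy
    exact prod_gq_unit h.injPE h.r0 y hy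

end

end Pool.Agent.Run7.h954.CP
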