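import Mathlib

/-!
# Weights of polynomials in two variables, and the polynomials `y^n - x^m + ...`
-/

set_option autoImplicit false

open Polynomial

namespace Pool.Agent.Run7.h954.CP

section
variable {R : Type*} [CommRing R] (n m : ℕ)

/-- the substitution `x ↦ x t^n`, `y ↦ y t^m` -/
noncomputable def ph : R[X][X] →+* R[X][X][X] :=
  eval₂RingHom (eval₂RingHom ((C : R[X][X] →+* R[X][X][X]).comp ((C : R[X] →+* R[X][X]).comp C))
    (C (C X) * X ^ n : R[X][X][X])) (C X * X ^ m : R[X][X][X])

theorem ph_mono (i j : ℕ) (r : R) : ph n m (monomial j (monomial i r)) =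
    monomial (n * i + m * j) (monomial j (monomial i r)) := by
  have e1 : (monomial j (monomial i r) : R[X][X]) = C (C r) * C X ^ i * X ^ j := by
    rw [← C_mul_X_pow_eq_monomial, ← C_mul_X_pow_eq_monomial, C_mul, C_pow]
  have e2 : ∀ a : R, (ph n m) (C (C a)) = C (C (C a)) := by
    intro a
    simp [ph]
  have e3 : (ph n m) (C X : R[X][X]) = C (C X) * X ^ n := by
    simp [ph]
  have e4 : (ph n m) (X : R[X][X]) = C X * X ^ m := by
    simp [ph]
  rw [← C_mul_X_pow_eq_monomial (a := (monomial j (monomial i r) : R[X][X])), e1, map_mul, map_mul,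
    map_pow, map_pow, e2, e3, e4]
  simp only [C_mul, C_pow, pow_add, pow_mul]
  ring

theorem ph_coeff (P : R[X][X]) (N i j : ℕ) : (((ph n m P).coeff N).coeff j).coeff i =
    if n * i + m * j = N then (P.coeff j).coeff i else 0 := by
  induction P using Polynomial.induction_on' with
  | add p q hp hq =>
    rw [map_add]
    simp only [coeff_add]
    rw [hp, hq]
    split_ifs
    · rfl
    · rw [add_zero]
  | monomial a p =>
    induction p using Polynomial.induction_on' with
    | add p q hp hq =>
      rw [map_add, map_add]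
      simp only [coeff_add]
      rw [hp, hq]
      split_ifs
      · rfl
      · rw [add_zero]
    | monomial b r =>
      rw [ph_mono]
      simp only [coeff_monomial]
      by_cases h1 : n * b + m * a = N
      · rw [if_pos h1]
        by_cases h2 : a = j
        · subst h2
          rw [coeff_monomial, if_pos rfl, coeff_monomial]
          by_cases h3 : b = i
          · subst h3
            rw [if_pos rfl, if_pos h1]
          · rw [if_neg h3]
            split_ifs <;> rfl
        · rw [coeff_monomial, if_neg h2, coeff_zero]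
          split_ifs <;> rfl
      · rw [if_neg h1]
        simp only [coeff_zero]
        by_cases h2 : a = j
        · subst h2
          rw [if_pos rfl, coeff_monomial]
          by_cases h3 : b = i
          · subst h3
            rw [if_neg h1]
          · rw [if_neg h3]
            split_ifs <;> rfl
        · rw [if_neg h2, coeff_zero]
          split_ifs <;> rfl

theorem ph_inj : Function.Injective (ph n m : R[X][X] →+* R[X][X][X]) := by
  intro P Q h
  ext j i
  have h1 := ph_coeff n m P (n * i + m * j) i j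
  have h2 := ph_coeff n m Q (n * i + m * j) i j
  rw [if_pos rfl] at h1 h2
  rw [← h1, ← h2, h]

/-- the weighted degree -/
noncomputable def wd (P : R[X][X]) : ℕ := (ph n m P).natDegree

/-- the leading form -/
noncomputable def lf (P : R[X][X]) : R[X][X] := (ph n m P).leadingCoeff

theorem lf_coeff (P : R[X][X]) (i j : ℕ) : ((lf n m P).coeff j).coeff i =
    if n * i + m * j = wd n m P then (P.coeff j).coeff i else 0 := ph_coeff n m P _ i j

variable {n m}

theorem lf_ne {P : R[X][X]} (h : P ≠ 0) : lf n m P ≠ 0 := by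
  unfold lf
  rw [Ne, leadingCoeff_eq_zero, map_eq_zero_iff _ (ph_inj n m)]
  exact h

theorem le_wd {P : R[X][X]} {i j : ℕ} (h : (P.coeff j).coeff i ≠ 0) : n * i + m * j ≤ wd n m P := by
  apply le_natDegree_of_ne_zero
  intro h0
  have h1 := ph_coeff n m P (n * i + m * j) i j
  rw [if_pos rfl, h0] at h1
  exact h h1.symm

theorem wd_le {P : R[X][X]} {N : ℕ} (h : ∀ i j, (P.coeff j).coeff i ≠ 0 → n * i + m * j ≤ N) :
    wd n m P ≤ N := by
  unfold wd
  rw [natDegree_le_iff_coeff_eq_zero]
  intro k hk
  ext j i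
  rw [ph_coeff]
  split_ifs with h1
  · by_contra h2
    have := h i j h2
    omega
  · rfl

theorem wd_mul [IsDomain R] {P Q : R[X][X]} (hP : P ≠ 0) (hQ : Q ≠ 0) : wd n m (P * Q) = wd n m P + wd n m Q := by
  unfold wd
  rw [map_mul, natDegree_mul ((map_ne_zero_iff _ (ph_inj n m)).2 hP)
    ((map_ne_zero_iff _ (ph_inj n m)).2 hQ)]

theorem lf_mul [IsDomain R] (P Q : R[X][X]) : lf n m (P * Q) = lf n m P * lf n m Q := by
  unfold lf
  rw [map_mul, leadingCoeff_mul]

theorem wd_neg (P : R[X][X]) : wd n m (-P) = wd n m P := by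
  unfold wd
  rw [map_neg, natDegree_neg]

theorem lf_neg (P : R[X][X]) : lf n m (-P) = -lf n m P := by
  unfold lf
  rw [map_neg, leadingCoeff_neg]

theorem lf_sub {P Q : R[X][X]} (h : wd n m Q < wd n m P ∨ Q = 0) : lf n m (P - Q) = lf n m P := by
  rcases h with h | rfl
  · unfold lf
    rw [map_sub]
    apply leadingCoeff_sub_of_degree_lt
    exact degree_lt_degree h
  · rw [sub_zero]

end

section
variable {R : Type*} [CommRing R] (n m : ℕ)

/-- all the monomials `x^i y^j` of the polynomial satisfy `n i + m j < n m` -/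
def IsLow (P : R[X][X]) : Prop := ∀ i j, (P.coeff j).coeff i ≠ 0 → n * i + m * j < n * m

/-- the form `y^n - x^m` -/
noncomputable def EE (R : Type*) [CommRing R] (n m : ℕ) : R[X][X] := X ^ n - C (X ^ m)

/-- the polynomials `y^n - x^m + ...` -/
def IsCab (P : R[X][X]) : Prop := IsLow n m (P - EE R n m)

/-- the parametrisation `x = t^n`, `y = t^m` -/
noncomputable def ev : R[X][X] →+* R[X] := eval₂RingHom (expand R n : R[X] →+* R[X]) (X ^ m)

theorem ev_mono (i j : ℕ) (r : R) : ev n m (monomial j (monomial i r) : R[X][X]) =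
    monomial (n * i + m * j) r := by
  unfold ev
  rw [coe_eval₂RingHom, eval₂_monomial]
  simp only [RingHom.coe_coe, expand_monomial]
  rw [← pow_mul, ← C_mul_X_pow_eq_monomial, mul_assoc, ← pow_add, C_mul_X_pow_eq_monomial, mul_comm i n]

theorem ev_EE : ev n m (EE R n m) = 0 := by
  unfold EE
  rw [map_sub, map_pow]
  have e1 : ev n m (X : R[X][X]) = X ^ m := by simp [ev]
  have e2 : ev n m (C (X ^ m) : R[X][X]) = X ^ (n * m) := by
    unfold ev
    rw [coe_eval₂RingHom, eval₂_C]
    simp only [RingHom.coe_coe, map_pow, expand_X]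
    rw [pow_mul]
  rw [e1, e2, ← pow_mul, mul_comm m n, sub_self]

variable {n m}

theorem EE_coeff (hn : 0 < n) (i j : ℕ) (h : ((EE R n m).coeff j).coeff i ≠ 0) :
    n * i + m * j = n * m := by
  unfold EE at h
  rw [coeff_sub, coeff_sub, coeff_X_pow, coeff_C] at h
  by_cases h1 : j = n
  · subst h1
    rw [if_pos rfl, if_neg hn.ne', coeff_zero, sub_zero, coeff_one] at h
    by_cases h2 : i = 0
    · subst h2
      ring
    · rw [if_neg h2] at h
      exact absurd rfl h
  · rw [if_neg h1, coeff_zero, zero_sub, neg_ne_zero] at h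
    by_cases h3 : j = 0
    · subst h3
      rw [if_pos rfl, coeff_X_pow] at h
      by_cases h4 : i = m
      · subst h4
        ring
      · rw [if_neg h4] at h
        exact absurd rfl h
    · rw [if_neg h3, coeff_zero] at h
      exact absurd rfl h

theorem EE_ne [Nontrivial R] (hn : 0 < n) : EE R n m ≠ 0 := by
  intro h
  have h1 := congrArg (fun P : R[X][X] => P.coeff n) h
  simp only [EE, coeff_sub, coeff_X_pow, coeff_C, if_neg hn.ne', coeff_zero, if_true, sub_zero] at h1
  exact one_ne_zero h1

theorem IsCab.le {P : R[X][X]} (h : IsCab n m P) (hn : 0 < n) {i j : ℕ}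
    (hc : (P.coeff j).coeff i ≠ 0) : n * i + m * j ≤ n * m := by
  have h1 : (P.coeff j).coeff i = ((P - EE R n m).coeff j).coeff i + ((EE R n m).coeff j).coeff i := by
    rw [coeff_sub, coeff_sub, sub_add_cancel]
  by_cases h2 : ((EE R n m).coeff j).coeff i ≠ 0
  · exact (EE_coeff hn i j h2).le
  · rw [not_not] at h2
    rw [h2, add_zero] at h1
    rw [h1] at hc
    exact (h i j hc).le

theorem IsCab.wd_eq [Nontrivial R] {P : R[X][X]} (h : IsCab n m P) (hn : 0 < n) :
    wd n m P = n * m ∧ lf n m P = EE R n m := by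
  have h1 : (ph n m P).coeff (n * m) = EE R n m := by
    ext j i
    rw [ph_coeff]
    by_cases h2 : n * i + m * j = n * m
    · rw [if_pos h2]
      have h3 : ((P - EE R n m).coeff j).coeff i = 0 := by
        by_contra h4
        have := h i j h4
        omega
      rw [coeff_sub, coeff_sub, sub_eq_zero] at h3
      exact h3
    · rw [if_neg h2]
      by_contra h4
      exact h2 (EE_coeff hn i j (Ne.symm h4))
  have h2 : wd n m P = n * m := by
    apply le_antisymm
    · exact wd_le fun i j hc => h.le hn hc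
    · apply le_natDegree_of_ne_zero
      rw [h1]
      exact EE_ne hn
  refine ⟨h2, ?_⟩
  unfold lf leadingCoeff
  have h3 : (ph n m P).natDegree = n * m := h2
  rw [h3, h1]

theorem IsLow.coeff_zero {P : R[X][X]} (h : IsLow n m P) {j : ℕ} (hj : n ≤ j) : P.coeff j = 0 := by
  ext i
  rw [Polynomial.coeff_zero]
  by_contra h1
  have h2 := h i j h1
  have h3 : n * m ≤ m * j := by
    rw [mul_comm n m]
    exact Nat.mul_le_mul_left m hj
  omega

theorem IsLow.natDegree_lt {P : R[X][X]} (h : IsLow n m P) (hn : 0 < n) : P.natDegree < n := by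
  by_contra h1
  push Not at h1
  have h2 := h.coeff_zero h1
  have h3 : P.leadingCoeff = 0 := h2
  rw [leadingCoeff_eq_zero] at h3
  rw [h3, natDegree_zero] at h1
  omega

theorem EE_monic [Nontrivial R] (hn : 0 < n) : (EE R n m).Monic ∧ (EE R n m).natDegree = n := by
  unfold EE
  exact ⟨monic_X_pow_sub_C _ hn.ne', natDegree_X_pow_sub_C⟩

theorem IsCab.monic [Nontrivial R] {P : R[X][X]} (h : IsCab n m P) (hn : 0 < n) :
    P.Monic ∧ P.natDegree = n := by
  obtain ⟨h1, h2⟩ := EE_monic (R := R) (m := m) hn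
  have h3 : P = EE R n m + (P - EE R n m) := by ring
  have h4 : (P - EE R n m).degree < (EE R n m).degree := by
    rw [degree_eq_natDegree h1.ne_zero, h2]
    rw [degree_lt_iff_coeff_zero]
    intro j hj
    exact h.coeff_zero hj
  refine ⟨?_, ?_⟩
  · rw [h3]
    exact h1.add_of_left h4
  · rw [h3, natDegree_eq_of_degree_eq (degree_add_eq_left_of_degree_lt h4), h2]

theorem IsLow.map {S : Type*} [CommRing S] {P : R[X][X]} (h : IsLow n m P) (f : R →+* S) :
    IsLow n m (P.map (mapRingHom f)) := by
  intro i j hc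
  apply h i j
  intro h0
  apply hc
  rw [coeff_map, coe_mapRingHom, coeff_map, h0, map_zero]

theorem EE_map {S : Type*} [CommRing S] (f : R →+* S) : (EE R n m).map (mapRingHom f) = EE S n m := by
  unfold EE
  simp

theorem IsCab.map {S : Type*} [CommRing S] {P : R[X][X]} (h : IsCab n m P) (f : R →+* S) :
    IsCab n m (P.map (mapRingHom f)) := by
  have h1 := IsLow.map h f
  rw [Polynomial.map_sub, EE_map] at h1
  exact h1

theorem IsLow.of_map {S : Type*} [CommRing S] {P : R[X][X]} (f : R →+* S) (hf : Function.Injective f)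
    (h : IsLow n m (P.map (mapRingHom f))) : IsLow n m P := by
  intro i j hc
  apply h i j
  rw [coeff_map, coe_mapRingHom, coeff_map]
  exact (map_ne_zero_iff f hf).2 hc

theorem IsCab.of_map {S : Type*} [CommRing S] {P : R[X][X]} (f : R →+* S) (hf : Function.Injective f)
    (h : IsCab n m (P.map (mapRingHom f))) : IsCab n m P := by
  apply IsLow.of_map f hf
  rw [Polynomial.map_sub, EE_map]
  exact h

theorem IsLow.add {P Q : R[X][X]} (h : IsLow n m P) (h' : IsLow n m Q) : IsLow n m (P + Q) := by
  intro i j hc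
  rw [coeff_add, coeff_add] at hc
  by_cases h1 : (P.coeff j).coeff i = 0
  · rw [h1, zero_add] at hc
    exact h' i j hc
  · exact h i j h1

theorem IsLow.smul {P : R[X][X]} (h : IsLow n m P) (r : R) : IsLow n m (C (C r) * P) := by
  intro i j hc
  rw [coeff_C_mul, coeff_C_mul] at hc
  exact h i j (right_ne_zero_of_mul hc)

theorem IsCab.add_low {P Q : R[X][X]} (h : IsCab n m P) (h' : IsLow n m Q) : IsCab n m (P + Q) := by
  have h1 := IsLow.add h h'
  have e : P - EE R n m + Q = P + Q - EE R n m := by ring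
  rw [e] at h1
  exact h1

end

section
variable {k : Type*} [CommRing k] {n m : ℕ}

/-- a reduced leading form is a monomial -/
theorem ev_lf_ne (hn : 0 < n) (hcop : n.Coprime m) {P : k[X][X]} (hP : P ≠ 0) (hd : P.natDegree < n) :
    ev n m (lf n m P) ≠ 0 := by
  have h0 : lf n m P ≠ 0 := lf_ne hP
  obtain ⟨j, i, hji⟩ : ∃ j i, ((lf n m P).coeff j).coeff i ≠ 0 := by
    by_contra h
    push Not at h
    apply h0
    ext j i
    exact h j i
  have key : ∀ {j' i' : ℕ}, ((lf n m P).coeff j').coeff i' ≠ 0 → n * i' + m * j' = wd n m P ∧ j' < n := by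
    intro j' i' h
    rw [lf_coeff] at h
    split_ifs at h with h1
    · refine ⟨h1, lt_of_le_of_lt (le_natDegree_of_ne_zero ?_) hd⟩
      intro h2
      rw [h2] at h
      exact h rfl
    · exact absurd rfl h
  obtain ⟨h1, h2⟩ := key hji
  have h3 : lf n m P = monomial j (monomial i (((lf n m P).coeff j).coeff i)) := by
    ext j' i'
    rw [coeff_monomial]
    by_cases h4 : ((lf n m P).coeff j').coeff i' = 0
    · rw [h4]
      by_cases h5 : j = j'
      · subst h5
        rw [if_pos rfl, coeff_monomial]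
        split_ifs with h6
        · rw [h6, h4]
        · rfl
      · rw [if_neg h5, coeff_zero]
    · obtain ⟨h5, h6⟩ := key h4
      have h7 : j = j' := by
        have h8 : n * i + m * j = n * i' + m * j' := by omega
        have h9 : (m * j) ≡ (m * j') [MOD n] := by
          have e1 : (n * i + m * j) ≡ (m * j) [MOD n] := by
            unfold Nat.ModEq
            rw [Nat.mul_add_mod]
          have e2 : (n * i' + m * j') ≡ (m * j') [MOD n] := by
            unfold Nat.ModEq
            rw [Nat.mul_add_mod]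
          rw [h8] at e1
          exact e1.symm.trans e2
        have h10 : j ≡ j' [MOD n] := Nat.ModEq.cancel_left_of_coprime hcop h9
        unfold Nat.ModEq at h10
        rwa [Nat.mod_eq_of_lt h2, Nat.mod_eq_of_lt h6] at h10
      subst h7
      have h8 : i = i' := by
        have : n * i = n * i' := by omega
        exact Nat.eq_of_mul_eq_mul_left hn this
      subst h8
      rw [if_pos rfl, coeff_monomial, if_pos rfl]
  rw [h3, ev_mono]
  rw [Ne, monomial_eq_zero_iff]
  exact hji

/-- **The weights are additive.** -/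
theorem red_mul [IsDomain k] (hn : 0 < n) (hcop : n.Coprime m) {H P Q S : k[X][X]} (hH : IsCab n m H)
    (hP : P ≠ 0) (hQ : Q ≠ 0) (dP : P.natDegree < n) (dQ : Q.natDegree < n) (dS : S.natDegree < n)
    (hd : H ∣ P * Q - S) : S ≠ 0 ∧ wd n m S = wd n m P + wd n m Q := by
  obtain ⟨U, hU⟩ := hd
  obtain ⟨-, hlf⟩ := hH.wd_eq hn
  have hPQ : P * Q ≠ 0 := mul_ne_zero hP hQ
  have hne : ev n m (lf n m P) * ev n m (lf n m Q) ≠ 0 :=
    mul_ne_zero (ev_lf_ne hn hcop hP dP) (ev_lf_ne hn hcop hQ dQ)
  have hzero : ev n m (lf n m (H * U)) = 0 := by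
    rw [lf_mul, hlf, map_mul, ev_EE, zero_mul]
  by_cases hS : S = 0
  · exfalso
    rw [hS, sub_zero] at hU
    rw [← hU, lf_mul, map_mul] at hzero
    exact hne hzero
  refine ⟨hS, ?_⟩
  rw [← wd_mul hP hQ]
  rcases lt_trichotomy (wd n m S) (wd n m (P * Q)) with h | h | h
  · exfalso
    have h1 := lf_sub (P := P * Q) (Q := S) (Or.inl h)
    rw [hU] at h1
    rw [h1, lf_mul, map_mul] at hzero
    exact hne hzero
  · exact h
  · exfalso
    have h1 := lf_sub (P := S) (Q := P * Q) (Or.inl h)
    have h2 : S - P * Q = -(H * U) := by rw [← hU]; ring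
    rw [h2, lf_neg] at h1
    have h3 : lf n m (H * U) = -lf n m S := by rw [← h1, neg_neg]
    rw [h3, map_neg, neg_eq_zero] at hzero
    exact ev_lf_ne hn hcop hS dS hzero

theorem dvd_mod (H P Q : k[X][X]) :
    H ∣ P * Q - (P %ₘ H) * (Q %ₘ H) := by
  have e1 := modByMonic_add_div P H
  have e2 := modByMonic_add_div Q H
  refine ⟨(P /ₘ H) * Q + (P %ₘ H) * (Q /ₘ H), ?_⟩
  linear_combination (-Q) * e1 + (-(P %ₘ H)) * e2

/-- **The polynomial is prime.** -/
theorem cab_prime [IsDomain k] (hn : 0 < n) (hcop : n.Coprime m) {H : k[X][X]} (hH : IsCab n m H) : Prime H := by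
  obtain ⟨hm, hdeg⟩ := hH.monic hn
  refine ⟨hm.ne_zero, ?_, ?_⟩
  · intro h
    rw [hm.isUnit_iff] at h
    rw [h, natDegree_one] at hdeg
    omega
  · intro P Q h
    have hlt : ∀ Z : k[X][X], (Z %ₘ H).natDegree < n := by
      intro Z
      have h1 := natDegree_modByMonic_lt Z hm (by
        intro h3
        rw [h3, natDegree_one] at hdeg
        omega)
      rwa [hdeg] at h1
    by_contra hcon
    push Not at hcon
    rw [← modByMonic_eq_zero_iff_dvd hm, ← modByMonic_eq_zero_iff_dvd hm] at hcon
    have h1 : H ∣ (P %ₘ H) * (Q %ₘ H) - 0 := by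
      rw [sub_zero]
      have h2 := dvd_sub h (dvd_mod H P Q)
      rwa [sub_sub_cancel] at h2
    exact (red_mul hn hcop hH hcon.1 hcon.2 (hlt P) (hlt Q) (by rw [natDegree_zero]; exact hn) h1).1 rfl

end

section
variable {k : Type*} [Field k] {n m : ℕ}

theorem wd_zero_const (hn : 0 < n) (hm : 0 < m) {P : k[X][X]} (h : wd n m P = 0) :
    ∃ r : k, P = C (C r) := by
  refine ⟨(P.coeff 0).coeff 0, ?_⟩
  ext j i
  rw [coeff_C]
  by_cases h1 : (P.coeff j).coeff i = 0
  · rw [h1]
    split_ifs with h2
    · subst h2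
      rw [coeff_C]
      split_ifs with h3
      · subst h3
        rw [h1]
      · rfl
    · rw [coeff_zero]
  · have h2 := le_wd (n := n) (m := m) h1
    rw [h] at h2
    have h3 : n * i = 0 := by omega
    have h4 : m * j = 0 := by omega
    rw [Nat.mul_eq_zero] at h3 h4
    have h5 : i = 0 := by omega
    have h6 : j = 0 := by omega
    subst h5 h6
    rw [if_pos rfl, coeff_C_zero]

/-- **The units are constants.** -/
theorem unit_const (hn : 0 < n) (hm : 0 < m) (hcop : n.Coprime m) {H : k[X][X]} (hH : IsCab n m H)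
    {a : AdjoinRoot H} (ha : IsUnit a) : ∃ r : k, r ≠ 0 ∧ a = AdjoinRoot.of H (C r) := by
  obtain ⟨hmon, hdeg⟩ := hH.monic hn
  have hlt : ∀ Z : k[X][X], (Z %ₘ H).natDegree < n := by
    intro Z
    have h1 := natDegree_modByMonic_lt Z hmon (by
      intro h3
      rw [h3, natDegree_one] at hdeg
      omega)
    rwa [hdeg] at h1
  have hmk : ∀ Z : k[X][X], AdjoinRoot.mk H (Z %ₘ H) = AdjoinRoot.mk H Z := by
    intro Z
    rw [AdjoinRoot.mk_eq_mk]
    have e1 := modByMonic_add_div Z H
    exact ⟨-(Z /ₘ H), by linear_combination e1⟩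
  obtain ⟨b, hb⟩ := ha.exists_right_inv
  obtain ⟨P, rfl⟩ := AdjoinRoot.mk_surjective a
  obtain ⟨Q, rfl⟩ := AdjoinRoot.mk_surjective b
  have hprime := cab_prime hn hcop hH
  have h1 : H ∣ (P %ₘ H) * (Q %ₘ H) - 1 := by
    rw [← AdjoinRoot.mk_eq_mk, map_mul, hmk, hmk, hb, map_one]
  have hP : P %ₘ H ≠ 0 := by
    intro h
    rw [h, zero_mul, zero_sub] at h1
    exact hprime.not_isUnit (isUnit_of_dvd_one (dvd_neg.1 h1))
  have hQ : Q %ₘ H ≠ 0 := by
    intro h
    rw [h, mul_zero, zero_sub] at h1
    exact hprime.not_isUnit (isUnit_of_dvd_one (dvd_neg.1 h1))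
  obtain ⟨-, h2⟩ := red_mul hn hcop hH hP hQ (hlt P) (hlt Q) (by rw [natDegree_one]; exact hn) h1
  have h3 : wd n m (1 : k[X][X]) = 0 := by
    unfold wd
    rw [map_one, natDegree_one]
  rw [h3] at h2
  obtain ⟨r, hr⟩ := wd_zero_const hn hm (P := P %ₘ H) (by omega)
  refine ⟨r, ?_, ?_⟩
  · rintro rfl
    rw [C_0, C_0] at hr
    exact hP hr
  · rw [← hmk P, hr]
    rfl

end

end Pool.Agent.Run7.h954.CP
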