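import Pool.Agent.R410.LW.Fg
import Pool.Agent.Run7.h954.CP.Lc

/-!
# Fields of rational functions
-/

set_option autoImplicit false
set_option linter.all false

open Polynomial
open scoped IntermediateField.algebraAdjoinAdjoin

namespace Pool.Agent.Run7.h954.CP

open Pool.Agent.R410.LW (frac_of_closure)

theorem isLoc_frac {R K : Type} [CommRing R] [Field K] (φ : R →+* K) (hi : Function.Injective φ)
    (h : Subfield.closure (Set.range φ) = ⊤) : IsLoc (nonZeroDivisors R) φ := by
  letI : Algebra R K := φ.toAlgebra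
  exact frac_of_closure (R := R) (M := K) hi h

theorem isLoc_iff {R K : Type} [CommRing R] [Field K] [Algebra R K] :
    IsLoc (nonZeroDivisors R) (algebraMap R K) ↔ IsFractionRing R K := by
  unfold IsLoc
  have : (algebraMap R K).toAlgebra = (inferInstance : Algebra R K) := by
    ext x y
    exact (Algebra.smul_def x y).symm
  rw [this]

section
variable {A₀ M K : Type} [CommRing A₀] [Field M] [Field K] [Algebra A₀ M] [Algebra M K] {k : ℕ}
  {w : Fin k → K}

/-- the evaluation -/
noncomputable def evw (A₀ M : Type) {K : Type} [CommRing A₀] [Field M] [Field K] [Algebra A₀ M] [Algebra M K]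
    {k : ℕ} (w : Fin k → K) : MvPolynomial (Fin k) A₀ →+* K :=
  ((MvPolynomial.aeval w : MvPolynomial (Fin k) M →ₐ[M] K) : MvPolynomial (Fin k) M →+* K).comp
    (MvPolynomial.map (algebraMap A₀ M))

theorem evw_C (a : A₀) : evw A₀ M w (MvPolynomial.C a) = algebraMap M K (algebraMap A₀ M a) := by
  unfold evw
  rw [RingHom.comp_apply, MvPolynomial.map_C, RingHom.coe_coe, MvPolynomial.aeval_C]

theorem evw_X (i : Fin k) : evw A₀ M w (MvPolynomial.X i) = w i := by
  unfold evw
  rw [RingHom.comp_apply, MvPolynomial.map_X, RingHom.coe_coe, MvPolynomial.aeval_X]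

theorem evw_inj (hA : Function.Injective (algebraMap A₀ M)) (hw : AlgebraicIndependent M w) :
    Function.Injective (evw A₀ M w) := by
  intro p q h
  have h1 : Function.Injective (MvPolynomial.aeval w : MvPolynomial (Fin k) M →ₐ[M] K) := hw
  exact MvPolynomial.map_injective _ hA (h1 h)

theorem closure_evw [IsFractionRing A₀ M] (hK : IntermediateField.adjoin M (Set.range w) = ⊤) :
    Subfield.closure (Set.range (evw A₀ M w)) = ⊤ := by
  set Cf := Subfield.closure (Set.range (evw A₀ M w)) with hCf
  have h0 : ∀ a : A₀, algebraMap M K (algebraMap A₀ M a) ∈ Cf := fun a =>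
    Subfield.subset_closure ⟨MvPolynomial.C a, evw_C a⟩
  have h1 : ∀ a : M, algebraMap M K a ∈ Cf := by
    intro a
    obtain ⟨x, y, -, rfl⟩ := IsFractionRing.div_surjective (A := A₀) a
    rw [map_div₀]
    exact div_mem (h0 x) (h0 y)
  have h2 : ∀ i, w i ∈ Cf := fun i => Subfield.subset_closure ⟨MvPolynomial.X i, evw_X i⟩
  let Ci : IntermediateField M K := { Cf with algebraMap_mem' := h1 }
  have h3 : IntermediateField.adjoin M (Set.range w) ≤ Ci := by
    rw [IntermediateField.adjoin_le_iff]
    rintro _ ⟨i, rfl⟩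
    exact h2 i
  rw [hK] at h3
  rw [eq_top_iff]
  intro z _
  exact h3 (show z ∈ (⊤ : IntermediateField M K) from trivial)

theorem evw_loc [IsFractionRing A₀ M] (hw : AlgebraicIndependent M w)
    (hK : IntermediateField.adjoin M (Set.range w) = ⊤) :
    IsLoc (nonZeroDivisors (MvPolynomial (Fin k) A₀)) (evw A₀ M w) :=
  isLoc_frac _ (evw_inj (IsFractionRing.injective A₀ M) hw) (closure_evw hK)

theorem evw_map (p : MvPolynomial (Fin k) A₀) : evw M M w (MvPolynomial.map (algebraMap A₀ M) p) =
    evw A₀ M w p := by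
  unfold evw
  rw [RingHom.comp_apply, RingHom.comp_apply]
  congr 1
  rw [MvPolynomial.map_map]
  rfl

end

section
variable {M K : Type} [Field M] [Field K] [CharZero M] [CharZero K] [Algebra M K] {k : ℕ} {w : Fin k → K}

/-- the transcendence degree -/
theorem trdeg_rat (hw : AlgebraicIndependent M w) (hK : IntermediateField.adjoin M (Set.range w) = ⊤)
    {d : ℕ} (hd : Algebra.trdeg ℚ M = d) : Algebra.trdeg ℚ K = (d + k : ℕ) := by
  have ht : IsScalarTower ℚ M K := IsScalarTower.of_algebraMap_eq' (Subsingleton.elim _ _)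
  have h1 := trdeg_add_eq ℚ M (A := K)
  have h2 : IsTranscendenceBasis M w := by
    rw [isTranscendenceBasis_iff_algebraicIndependent_isAlgebraic]
    refine ⟨hw, ?_⟩
    have h3 : Algebra.IsAlgebraic (IntermediateField.adjoin M (Set.range w)) K := by
      rw [hK]
      exact ⟨fun x => isAlgebraic_algebraMap (⟨x, trivial⟩ : (⊤ : IntermediateField M K))⟩
    exact (IsFractionRing.comap_isAlgebraic_iff (A := Algebra.adjoin M (Set.range w))
      (K := IntermediateField.adjoin M (Set.range w)) (C := K)).2 h3
  have h3 := h2.lift_cardinalMk_eq_trdeg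
  simp only [Cardinal.lift_id, Cardinal.mk_fin] at h3
  rw [← h1, hd, ← h3]
  push_cast
  rfl

end

end Pool.Agent.Run7.h954.CP
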