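import Mathlib

/-!
# Two rings with the same fraction field
-/

set_option autoImplicit false
set_option linter.all false

namespace Pool.Agent.Run7.h954.CP

section
variable {R E : Type} [CommRing R] [Field E] [Algebra R E]

/-- the ring `R[1/r]` in the field -/
def aw (E : Type) [Field E] [Algebra R E] (r : R) : Subring E where
  carrier := {e | ∃ k : ℕ, e * algebraMap R E r ^ k ∈ (algebraMap R E).range}
  mul_mem' := by
    rintro a b ⟨k, x, hx⟩ ⟨l, y, hy⟩
    exact ⟨k + l, x * y, by rw [map_mul, hx, hy]; ring⟩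
  one_mem' := ⟨0, 1, by rw [map_one, pow_zero, mul_one]⟩
  add_mem' := by
    rintro a b ⟨k, x, hx⟩ ⟨l, y, hy⟩
    exact ⟨k + l, x * r ^ l + y * r ^ k, by
      rw [map_add, map_mul, map_mul, hx, hy, map_pow, map_pow]; ring⟩
  zero_mem' := ⟨0, 0, by rw [map_zero, zero_mul]⟩
  neg_mem' := by
    rintro a ⟨k, x, hx⟩
    exact ⟨k, -x, by rw [map_neg, hx]; ring⟩

theorem mem_aw {r : R} {e : E} : e ∈ aw E r ↔
    ∃ k : ℕ, e * algebraMap R E r ^ k ∈ (algebraMap R E).range := Iff.rfl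

theorem map_mem_aw (r x : R) : algebraMap R E x ∈ aw E r := ⟨0, x, by rw [pow_zero, mul_one]⟩

theorem inv_mem_aw {r x : R} (h : x ∣ r) (hr : algebraMap R E r ≠ 0) :
    (algebraMap R E x)⁻¹ ∈ aw E r := by
  obtain ⟨y, rfl⟩ := h
  rw [map_mul] at hr
  refine ⟨1, y, ?_⟩
  rw [map_mul, pow_one, ← mul_assoc, inv_mul_cancel₀ (left_ne_zero_of_mul hr), one_mul]

theorem aw_le {S : Subring E} {r : R} (hr : algebraMap R E r ≠ 0)
    (h1 : ∀ x : R, algebraMap R E x ∈ S) (h2 : (algebraMap R E r)⁻¹ ∈ S) : aw E r ≤ S := by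
  rintro e ⟨k, x, hx⟩
  have h3 : e = algebraMap R E x * (algebraMap R E r)⁻¹ ^ k := by
    rw [hx, mul_assoc, ← mul_pow, mul_inv_cancel₀ hr, one_pow, mul_one]
  rw [h3]
  exact mul_mem (h1 x) (pow_mem h2 k)

/-- a unit of `R[1/r]` -/
theorem aw_unit {r : R} {e : E} (h : e ∈ aw E r) (h' : e⁻¹ ∈ aw E r) (he : e ≠ 0)
    (hi : Function.Injective (algebraMap R E)) :
    ∃ (k : ℕ) (x : R), algebraMap R E x = e * algebraMap R E r ^ k ∧ ∃ l : ℕ, x ∣ r ^ l := by
  obtain ⟨k, x, hx⟩ := h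
  obtain ⟨l, y, hy⟩ := h'
  refine ⟨k, x, hx, k + l, y, ?_⟩
  apply hi
  rw [map_mul, hx, hy, map_pow, pow_add]
  field_simp

end

section
variable {R B E : Type} [CommRing R] [IsDomain R] [CommRing B] [IsDomain B] [Field E]
  [Algebra R E] [Algebra B E]

theorem pow_den' [IsFractionRing R E] [Algebra.FiniteType ℤ B] :
    ∃ a : R, a ≠ 0 ∧ ∀ b : B, ∃ n : ℕ, algebraMap B E b * algebraMap R E a ^ n ∈
      (algebraMap R E).range := by
  classical
  obtain ⟨G, hG⟩ := (inferInstance : Algebra.FiniteType ℤ B).out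
  have h1 : ∀ b : B, ∃ y : R, y ≠ 0 ∧ algebraMap B E b * algebraMap R E y ∈ (algebraMap R E).range := by
    intro b
    obtain ⟨x, y, hy, hxy⟩ := IsFractionRing.div_surjective (A := R) (algebraMap B E b)
    have hy0 : y ≠ 0 := nonZeroDivisors.ne_zero hy
    refine ⟨y, hy0, x, ?_⟩
    rw [← hxy, div_mul_cancel₀]
    exact (map_ne_zero_iff _ (IsFractionRing.injective R E)).2 hy0
  choose y hy0 hy using h1
  refine ⟨∏ b ∈ G, y b, Finset.prod_ne_zero_iff.2 fun b _ => hy0 b, ?_⟩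
  intro b
  have hb : b ∈ Algebra.adjoin ℤ (G : Set B) := by rw [hG]; trivial
  have key : algebraMap B E b ∈ aw E (∏ b ∈ G, y b) := by
    induction hb using Algebra.adjoin_induction with
    | mem x hx =>
      obtain ⟨c, hc⟩ := hy x
      refine ⟨1, c * ∏ b ∈ G.erase x, y b, ?_⟩
      rw [map_mul, hc, pow_one, ← Finset.mul_prod_erase G y hx, map_mul]
      ring
    | algebraMap n =>
      rw [eq_intCast, map_intCast]
      exact intCast_mem _ n
    | add x z _ _ h1 h2 =>
      rw [map_add]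
      exact add_mem h1 h2
    | mul x z _ _ h1 h2 =>
      rw [map_mul]
      exact mul_mem h1 h2
  exact key

/-- **Two rings of finite type with the same fraction field.** -/
theorem bir_eq [IsFractionRing R E] [IsFractionRing B E] [Algebra.FiniteType ℤ R]
    [Algebra.FiniteType ℤ B] : ∃ (r : R) (b : B), r ≠ 0 ∧ b ≠ 0 ∧ aw E r = aw E b := by
  have iR : Function.Injective (algebraMap R E) := IsFractionRing.injective R E
  have iB : Function.Injective (algebraMap B E) := IsFractionRing.injective B E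
  obtain ⟨a, ha0, ha⟩ := pow_den' (R := R) (B := B) (E := E)
  obtain ⟨a', ha0', ha'⟩ := pow_den' (R := B) (B := R) (E := E)
  obtain ⟨n, x, hx⟩ := ha a'
  obtain ⟨m, y, hy⟩ := ha' a
  have na : algebraMap R E a ≠ 0 := (map_ne_zero_iff _ iR).2 ha0
  have na' : algebraMap B E a' ≠ 0 := (map_ne_zero_iff _ iB).2 ha0'
  have nx : algebraMap R E x ≠ 0 := by
    rw [hx]
    exact mul_ne_zero na' (pow_ne_zero _ na)
  have ny : algebraMap B E y ≠ 0 := by
    rw [hy]
    exact mul_ne_zero na (pow_ne_zero _ na')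
  have hx0 : x ≠ 0 := fun h => nx (by rw [h, map_zero])
  have hy0 : y ≠ 0 := fun h => ny (by rw [h, map_zero])
  have nr : algebraMap R E (a * x) ≠ 0 := (map_ne_zero_iff _ iR).2 (mul_ne_zero ha0 hx0)
  have nb : algebraMap B E (a' * y) ≠ 0 := (map_ne_zero_iff _ iB).2 (mul_ne_zero ha0' hy0)
  refine ⟨a * x, a' * y, mul_ne_zero ha0 hx0, mul_ne_zero ha0' hy0, le_antisymm ?_ ?_⟩
  · have u1 : (algebraMap B E a')⁻¹ ∈ aw E (a' * y) := inv_mem_aw ⟨y, rfl⟩ nb
    have u2 : (algebraMap B E y)⁻¹ ∈ aw E (a' * y) := inv_mem_aw ⟨a', mul_comm _ _⟩ nb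
    have u3 : ∀ z : R, algebraMap R E z ∈ aw E (a' * y) := by
      intro z
      obtain ⟨k, w, hw⟩ := ha' z
      have : algebraMap R E z = algebraMap B E w * (algebraMap B E a')⁻¹ ^ k := by
        rw [hw, mul_assoc, ← mul_pow, mul_inv_cancel₀ na', one_pow, mul_one]
      rw [this]
      exact mul_mem (map_mem_aw _ _) (pow_mem u1 k)
    have u4 : (algebraMap R E a)⁻¹ ∈ aw E (a' * y) := by
      have : (algebraMap R E a)⁻¹ = algebraMap B E a' ^ m * (algebraMap B E y)⁻¹ := by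
        rw [hy]
        field_simp
      rw [this]
      exact mul_mem (pow_mem (map_mem_aw _ _) m) u2
    refine aw_le nr u3 ?_
    rw [map_mul, mul_inv]
    refine mul_mem u4 ?_
    rw [hx, mul_inv, ← inv_pow]
    exact mul_mem u1 (pow_mem u4 n)
  · have u1 : (algebraMap R E a)⁻¹ ∈ aw E (a * x) := inv_mem_aw ⟨x, rfl⟩ nr
    have u2 : (algebraMap R E x)⁻¹ ∈ aw E (a * x) := inv_mem_aw ⟨a, mul_comm _ _⟩ nr
    have u3 : ∀ z : B, algebraMap B E z ∈ aw E (a * x) := by
      intro z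
      obtain ⟨k, w, hw⟩ := ha z
      have : algebraMap B E z = algebraMap R E w * (algebraMap R E a)⁻¹ ^ k := by
        rw [hw, mul_assoc, ← mul_pow, mul_inv_cancel₀ na, one_pow, mul_one]
      rw [this]
      exact mul_mem (map_mem_aw _ _) (pow_mem u1 k)
    have u4 : (algebraMap B E a')⁻¹ ∈ aw E (a * x) := by
      have : (algebraMap B E a')⁻¹ = algebraMap R E a ^ n * (algebraMap R E x)⁻¹ := by
        rw [hx]
        field_simp
      rw [this]
      exact mul_mem (pow_mem (map_mem_aw _ _) n) u2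
    refine aw_le nb u3 ?_
    rw [map_mul, mul_inv]
    refine mul_mem u4 ?_
    rw [hy, mul_inv, ← inv_pow]
    exact mul_mem u1 (pow_mem u4 m)

/-- one more denominator -/
theorem aw_mul (iR : Function.Injective (algebraMap R E)) (iB : Function.Injective (algebraMap B E))
    {r : R} {b : B} (hr : r ≠ 0) (hb : b ≠ 0) (h : aw E r = aw E b) (c : R) (hc : c ≠ 0) :
    ∃ b' : B, b' ≠ 0 ∧ aw E (r * c) = aw E b' := by
  have hcb : algebraMap R E c ∈ aw E b := by rw [← h]; exact map_mem_aw _ _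
  obtain ⟨k, β, hβ⟩ := hcb
  have nr : algebraMap R E r ≠ 0 := (map_ne_zero_iff _ iR).2 hr
  have nc : algebraMap R E c ≠ 0 := (map_ne_zero_iff _ iR).2 hc
  have nb : algebraMap B E b ≠ 0 := (map_ne_zero_iff _ iB).2 hb
  have nβ : algebraMap B E β ≠ 0 := by
    rw [hβ]
    exact mul_ne_zero nc (pow_ne_zero _ nb)
  have nrc : algebraMap R E (r * c) ≠ 0 := by rw [map_mul]; exact mul_ne_zero nr nc
  have nbβ : algebraMap B E (b * β) ≠ 0 := by rw [map_mul]; exact mul_ne_zero nb nβ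
  refine ⟨b * β, fun h0 => nbβ (by rw [h0, map_zero]), ?_⟩
  have l1 : aw E r ≤ aw E (r * c) := aw_le nr (fun x => map_mem_aw _ _) (inv_mem_aw ⟨c, rfl⟩ nrc)
  have l2 : aw E b ≤ aw E (b * β) := aw_le nb (fun x => map_mem_aw _ _) (inv_mem_aw ⟨β, rfl⟩ nbβ)
  apply le_antisymm
  · refine aw_le nrc (fun x => l2 (by rw [← h]; exact map_mem_aw _ _)) ?_
    rw [map_mul, mul_inv]
    refine mul_mem (l2 (by rw [← h]; exact inv_mem_aw dvd_rfl nr)) ?_
    have : (algebraMap R E c)⁻¹ = algebraMap B E b ^ k * (algebraMap B E β)⁻¹ := by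
      rw [hβ]
      field_simp
    rw [this]
    exact mul_mem (pow_mem (map_mem_aw _ _) k) (inv_mem_aw ⟨b, mul_comm _ _⟩ nbβ)
  · refine aw_le nbβ (fun x => l1 (by rw [h]; exact map_mem_aw _ _)) ?_
    rw [map_mul, mul_inv]
    have u : (algebraMap B E b)⁻¹ ∈ aw E (r * c) := l1 (by rw [h]; exact inv_mem_aw dvd_rfl nb)
    refine mul_mem u ?_
    rw [hβ, mul_inv, ← inv_pow]
    exact mul_mem (inv_mem_aw ⟨r, mul_comm _ _⟩ nrc) (pow_mem u k)

end

section
variable {R E : Type} [CommRing R] [Field E] [Algebra R E]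

/-- `R[1/r]` as an algebra -/
noncomputable def awAlg (r : R) : R →+* aw E r :=
  (algebraMap R E).codRestrict (aw E r) fun x => map_mem_aw r x

theorem aw_loc {r : R} (hi : Function.Injective (algebraMap R E)) (hr : r ≠ 0) :
    letI : Algebra R (aw E r) := (awAlg r).toAlgebra
    IsLocalization.Away r (aw E r) := by
  letI : Algebra R (aw E r) := (awAlg r).toAlgebra
  have nr : algebraMap R E r ≠ 0 := (map_ne_zero_iff _ hi).2 hr
  have hcoe : ∀ x : R, ((algebraMap R (aw E r) x : aw E r) : E) = algebraMap R E x := fun x => rfl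
  refine { map_units := ?_, surj := ?_, exists_of_eq := ?_ }
  · rintro ⟨_, n, rfl⟩
    refine IsUnit.of_mul_eq_one ⟨(algebraMap R E r)⁻¹ ^ n, pow_mem (inv_mem_aw dvd_rfl nr) n⟩ ?_
    apply Subtype.ext
    show ((algebraMap R (aw E r) (r ^ n) : aw E r) : E) * (algebraMap R E r)⁻¹ ^ n = 1
    rw [hcoe, map_pow, ← mul_pow, mul_inv_cancel₀ nr, one_pow]
  · rintro ⟨e, k, x, hx⟩
    refine ⟨⟨x, ⟨r ^ k, k, rfl⟩⟩, ?_⟩
    apply Subtype.ext
    show e * ((algebraMap R (aw E r) (r ^ k) : aw E r) : E) = ((algebraMap R (aw E r) x : aw E r) : E)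
    rw [hcoe, hcoe, hx, map_pow]
  · intro x y hxy
    refine ⟨1, ?_⟩
    have h1 := congrArg (fun w : aw E r => (w : E)) hxy
    simp only [hcoe] at h1
    rw [hi h1]

/-- the homomorphisms of `R[1/r]` -/
theorem aw_hom {r : R} (hi : Function.Injective (algebraMap R E)) (hr : r ≠ 0) (F : Type) [Field F] :
    Function.Bijective (fun φ : aw E r →+* F => (⟨φ.comp (awAlg r), by
      intro h
      have nr : algebraMap R E r ≠ 0 := (map_ne_zero_iff _ hi).2 hr
      have h1 : (awAlg r r : aw E r) * ⟨(algebraMap R E r)⁻¹, inv_mem_aw dvd_rfl nr⟩ = 1 :=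
        Subtype.ext (mul_inv_cancel₀ nr)
      have h2 := congrArg φ h1
      rw [map_mul, map_one] at h2
      rw [RingHom.comp_apply] at h
      rw [h, zero_mul] at h2
      exact zero_ne_one h2⟩ : {φ : R →+* F // φ r ≠ 0})) := by
  letI : Algebra R (aw E r) := (awAlg r).toAlgebra
  have hloc : IsLocalization.Away r (aw E r) := aw_loc hi hr
  constructor
  · intro φ φ' h
    refine IsLocalization.ringHom_ext (Submonoid.powers r) ?_
    exact congrArg Subtype.val h
  · rintro ⟨φ, hφ⟩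
    refine ⟨IsLocalization.Away.lift r (S := aw E r) (isUnit_iff_ne_zero.2 hφ), ?_⟩
    apply Subtype.ext
    exact IsLocalization.Away.lift_comp r (isUnit_iff_ne_zero.2 hφ)

end

/-- **The points of two rings with the same localisation.** -/
theorem hom_bij {R B E : Type} [CommRing R] [CommRing B] [Field E] [Algebra R E] [Algebra B E]
    (iR : Function.Injective (algebraMap R E)) (iB : Function.Injective (algebraMap B E))
    {r : R} {b : B} (hr : r ≠ 0) (hb : b ≠ 0) (h : aw E r = aw E b) (F : Type) [Field F] :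
    ∃ e : {φ : R →+* F // φ r ≠ 0} ≃ {χ : B →+* F // χ b ≠ 0},
      ∀ φ x y, algebraMap R E x = algebraMap B E y → φ.1 x = (e φ).1 y := by
  let e1 := Equiv.ofBijective _ (aw_hom iR hr F)
  let e2 := Equiv.ofBijective _ (aw_hom iB hb F)
  let ρ : aw E r ≃+* aw E b := RingEquiv.subringCongr h
  let e3 : (aw E r →+* F) ≃ (aw E b →+* F) :=
    { toFun := fun φ => φ.comp (ρ.symm : aw E b →+* aw E r)
      invFun := fun φ => φ.comp (ρ : aw E r →+* aw E b)
      left_inv := fun φ => RingHom.ext fun x => by simp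
      right_inv := fun φ => RingHom.ext fun x => by simp }
  refine ⟨(e1.symm.trans e3).trans e2, ?_⟩
  intro φ x y hxy
  obtain ⟨ψ, rfl⟩ := e1.surjective φ
  show ψ (awAlg r x) = (e2 (e3 (e1.symm (e1 ψ)))).1 y
  rw [Equiv.symm_apply_apply]
  show ψ (awAlg r x) = ψ (ρ.symm (awAlg b y))
  congr 1
  apply Subtype.ext
  exact hxy

end Pool.Agent.Run7.h954.CP
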