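import Pool.Agent.Run7.h954.CP.SitM
import Pool.Agent.Run7.h954.CP.Asc

/-!
# The rank and the sum of the traces
-/

set_option autoImplicit false
set_option linter.all false
set_option maxHeartbeats 1000000

open Polynomial

namespace Pool.Agent.Run7.h954.CP

open Pool.Agent.R410.NG (Asy Ff)
open Pool.Agent.R410.LW (ft_int)

/-- **The rank and the sum of the traces.** -/
theorem core {M K E A₀ : Type} [Field M] [CharZero M] [Field K] [CharZero K] [Field E] [Algebra M K]
    [Algebra K E] [Algebra M E] [IsScalarTower M K E]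
    [CommRing A₀] [IsDomain A₀] [Algebra.FiniteType ℤ A₀] [Algebra A₀ M] [IsFractionRing A₀ M]
    {d k : ℕ} {w : Fin (k + 1) → K} {z : Fin (k + 2) → E} {n m : ℕ}
    {H₀ : (MvPolynomial (Fin (k + 1)) A₀)[X][X]} {H : K[X][X]}
    (hd : Algebra.trdeg ℚ M = d) (hw : AlgebraicIndependent M w)
    (hK : IntermediateField.adjoin M (Set.range w) = ⊤)
    (hz : AlgebraicIndependent M z) (hE : IntermediateField.adjoin M (Set.range z) = ⊤)
    (hn : 0 < n) (hm : 0 < m) (hcop : n.Coprime m)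
    (hH₀ : IsCab n m H₀) (hH : H₀.map (mapRingHom (evw A₀ M w)) = H) [IsDedekindDomain (AdjoinRoot H)]
    [Algebra (AdjoinRoot H) E] [IsFractionRing (AdjoinRoot H) E] [IsScalarTower K (AdjoinRoot H) E] :
    ∃ (ρ : ℕ) (N : MvPolynomial (Fin (k + 1)) A₀), N ≠ 0 ∧
      Module.rank ℤ (Additive (ClassGroup (AdjoinRoot H))) = ρ ∧
      Asy (fun F _ _ => sC H₀ N F) (d + (k + 1)) (-(ρ : ℝ)) := by
  classical
  have hA : Function.Injective (algebraMap A₀ M) := IsFractionRing.injective A₀ M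
  letI a7 : Algebra (AdjoinRoot H₀) E := ((algebraMap (AdjoinRoot H) E).comp
    (rootMap (mapRingHom (evw A₀ M w)) H₀ H hH)).toAlgebra
  letI a8 : Algebra (MvPolynomial (Fin (k + 2)) A₀) E := (evw A₀ M z).toAlgebra
  have hftP : ∀ j : ℕ, @Algebra.FiniteType ℤ (MvPolynomial (Fin j) A₀) _ _ (Ring.toIntAlgebra _) := by
    intro j
    have h1 : Algebra.FiniteType A₀ (MvPolynomial (Fin j) A₀) := inferInstance
    exact ft_int _ (Algebra.FiniteType.trans (inferInstance : Algebra.FiniteType ℤ A₀) h1)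
  have hftC : @Algebra.FiniteType ℤ (AdjoinRoot H₀) _ _ (Ring.toIntAlgebra _) := by
    have h1 : Algebra.FiniteType A₀ (MvPolynomial (Fin (k + 1)) A₀) := inferInstance
    have h2 : Algebra.FiniteType ℤ (MvPolynomial (Fin (k + 1)) A₀) :=
      Algebra.FiniteType.trans (inferInstance : Algebra.FiniteType ℤ A₀) h1
    have h3 : Algebra.FiniteType ℤ (AdjoinRoot H₀) := inferInstance
    exact ft_int _ h3
  have hftP2 := hftP (k + 2)
  have hd₀ : IsDomain (AdjoinRoot H₀) := cab_domain hn hcop hH₀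
  have hlocK := evw_loc (A₀ := A₀) hw hK
  have hSC : (nonZeroDivisors (MvPolynomial (Fin (k + 1)) A₀)).map
      (C : MvPolynomial (Fin (k + 1)) A₀ →+* (MvPolynomial (Fin (k + 1)) A₀)[X]) ≤
      nonZeroDivisors (MvPolynomial (Fin (k + 1)) A₀)[X] := by
    rintro _ ⟨s, hs, rfl⟩
    exact mem_nonZeroDivisors_of_ne_zero fun h => nonZeroDivisors.ne_zero hs (C_eq_zero.1 h)
  have hm₀ := (hH₀.monic hn).1
  have hloc := (hlocK.poly).root hSC H₀ hm₀ H hH
  have hinj : Function.Injective (rootMap (mapRingHom (evw A₀ M w)) H₀ H hH) :=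
    rootMap_inj _ (Polynomial.map_injective _ (evw_inj hA hw)) H₀ hm₀ H hH
  have hfrC : IsFractionRing (AdjoinRoot H₀) E := loc_frac (E := E) hloc hinj
  have hfrT : IsFractionRing (MvPolynomial (Fin (k + 2)) A₀) E := evw_loc hz hE
  have iC : Function.Injective (algebraMap (AdjoinRoot H₀) E) := IsFractionRing.injective _ _
  have iT : Function.Injective (algebraMap (MvPolynomial (Fin (k + 2)) A₀) E) :=
    IsFractionRing.injective _ _
  obtain ⟨f, g₁, hf, hg₁, haw₁⟩ := bir_eq (R := AdjoinRoot H₀) (B := MvPolynomial (Fin (k + 2)) A₀)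
    (E := E)
  obtain ⟨r, hr0, hr⟩ := exists_coeff hn hH₀ hf
  obtain ⟨g, hg, haw⟩ := aw_mul iC iT hf hg₁ haw₁ (cst H₀ r)
    ((map_ne_zero_iff _ (cst_inj hn hH₀)).2 hr0)
  have hcomp : ∀ a : A₀, algebraMap (AdjoinRoot H₀) E (cst H₀ (MvPolynomial.C a)) =
      algebraMap (MvPolynomial (Fin (k + 2)) A₀) E (MvPolynomial.C a) := by
    intro a
    have e2 : algebraMap (MvPolynomial (Fin (k + 2)) A₀) E (MvPolynomial.C a) =
        algebraMap M E (algebraMap A₀ M a) := evw_C a
    rw [e2]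
    show algebraMap (AdjoinRoot H) E (rootMap (mapRingHom (evw A₀ M w)) H₀ H hH
      (cst H₀ (MvPolynomial.C a))) = _
    have e1 : rootMap (mapRingHom (evw A₀ M w)) H₀ H hH (cst H₀ (MvPolynomial.C a)) =
        algebraMap K (AdjoinRoot H) (algebraMap M K (algebraMap A₀ M a)) := by
      rw [cst_mk, rootMap_mk, map_C, coe_mapRingHom, map_C, evw_C]
      rfl
    rw [e1, ← IsScalarTower.algebraMap_apply K (AdjoinRoot H) E, ← IsScalarTower.algebraMap_apply M K E]
  obtain ⟨N, hN, hasy⟩ := asy_core hd hw hK hn hcop hH₀ hH iC iT hcomp hf hr0 hg haw hr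
  have hrank := rank_m hw hK hz hE hn hm hcop hH₀ hH hf hr0 hg haw hr
  obtain ⟨ρ, hρ⟩ : ∃ ρ : ℕ, Module.rank ℤ (Additive (ClassGroup (AdjoinRoot H))) = ρ := by
    have h0 : Module.rank ℤ (Additive (ClassGroup (AdjoinRoot H))) ≤
        Module.rank ℤ (Additive (ClassGroup (AdjoinRoot H))) +
        (((Ideal.span {MvPolynomial.map (algebraMap A₀ M) g}).minimalPrimes.ncard : ℕ) : Cardinal) :=
      self_le_add_right _ _
    apply Cardinal.lt_aleph0.1
    refine lt_of_le_of_lt h0 ?_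
    rw [hrank, ← Nat.cast_add]
    exact Cardinal.natCast_lt_aleph0
  refine ⟨ρ, N, hN, hρ, ?_⟩
  rw [hρ] at hrank
  have h1 : ρ + (Ideal.span {MvPolynomial.map (algebraMap A₀ M) g}).minimalPrimes.ncard =
      (Ideal.span {rootMap (mapRingHom (evw A₀ M w)) H₀ H hH f}).minimalPrimes.ncard +
      (Ideal.span {MvPolynomial.map (algebraMap A₀ M) r}).minimalPrimes.ncard := by
    exact_mod_cast hrank
  have h2 : (ρ : ℝ) + ((Ideal.span {MvPolynomial.map (algebraMap A₀ M) g}).minimalPrimes.ncard : ℕ) =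
      ((Ideal.span {rootMap (mapRingHom (evw A₀ M w)) H₀ H hH f}).minimalPrimes.ncard : ℕ) +
      ((Ideal.span {MvPolynomial.map (algebraMap A₀ M) r}).minimalPrimes.ncard : ℕ) := by
    exact_mod_cast h1
  have h3 : ((((Ideal.span {MvPolynomial.map (algebraMap A₀ M) g}).minimalPrimes.ncard : ℕ) : ℝ) -
        ((Ideal.span {MvPolynomial.map (algebraMap A₀ M) r}).minimalPrimes.ncard : ℕ) -
        ((Ideal.span {rootMap (mapRingHom (evw A₀ M w)) H₀ H hH f}).minimalPrimes.ncard : ℕ)) =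
        -(ρ : ℝ) := by linarith
  rw [← h3]
  exact hasy

end Pool.Agent.Run7.h954.CP
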