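import Pool.Agent.Run7.h954.CP.Wt

/-!
# Smooth plane curves
-/

set_option autoImplicit false

open Polynomial

namespace Pool.Agent.Run7.h954.CP

section
variable {R : Type*} [CommRing R]

/-- the derivative with respect to the inner variable -/
noncomputable def dx (H : R[X][X]) : R[X][X] := Bivariate.swap (derivative (Bivariate.swap H))

/-- the affine curve `H = 0` is smooth -/
def IsSmooth (H : R[X][X]) : Prop := Ideal.span {H, derivative H, dx H} = ⊤

end

end Pool.Agent.Run7.h954.CP
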