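import Mathlib

/-!
# Transcendence degree of the function field of a hypersurface
-/

set_option autoImplicit false

namespace Pool.Agent.Run7.h954.CP

open MvPolynomial

theorem trdeg_quot {M : Type} [Field M] {k : ℕ} {g : MvPolynomial (Fin (k + 1)) M} (hg : Irreducible g)
    {L : Type} [Field L] [Algebra (MvPolynomial (Fin (k + 1)) M ⧸ Ideal.span {g}) L]
    [IsFractionRing (MvPolynomial (Fin (k + 1)) M ⧸ Ideal.span {g}) L] [Algebra M L]
    [IsScalarTower M (MvPolynomial (Fin (k + 1)) M ⧸ Ideal.span {g}) L] :
    Algebra.trdeg M L = k := by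
  set x : Fin (k + 1) → L := fun i =>
    algebraMap (MvPolynomial (Fin (k + 1)) M ⧸ Ideal.span {g}) L (Ideal.Quotient.mk _ (X i)) with hx
  have haeval : ∀ p : MvPolynomial (Fin (k + 1)) M, aeval x p =
      algebraMap (MvPolynomial (Fin (k + 1)) M ⧸ Ideal.span {g}) L (Ideal.Quotient.mk _ p) := by
    intro p
    induction p using MvPolynomial.induction_on with
    | C a =>
      rw [aeval_C, IsScalarTower.algebraMap_apply M (MvPolynomial (Fin (k + 1)) M ⧸ Ideal.span {g}) L]
      rfl
    | add p q hp hq => rw [map_add, hp, hq, map_add, map_add]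
    | mul_X p i hp => rw [map_mul, hp, aeval_X, map_mul, map_mul]
  have hinj := IsFractionRing.injective (MvPolynomial (Fin (k + 1)) M ⧸ Ideal.span {g}) L
  have hker : ∀ p : MvPolynomial (Fin (k + 1)) M, aeval x p = 0 → g ∣ p := by
    intro p hp
    rw [haeval, map_eq_zero_iff _ hinj, Ideal.Quotient.eq_zero_iff_mem,
      Ideal.mem_span_singleton] at hp
    exact hp
  have hg0 : aeval x g = 0 := by
    rw [haeval, Ideal.Quotient.eq_zero_iff_mem.2 (Ideal.mem_span_singleton_self g), map_zero]
  -- the generators are algebraic generators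
  have hmem : ∀ q : MvPolynomial (Fin (k + 1)) M ⧸ Ideal.span {g},
      algebraMap (MvPolynomial (Fin (k + 1)) M ⧸ Ideal.span {g}) L q ∈
        Algebra.adjoin M (Set.range x) := by
    intro q
    obtain ⟨p, rfl⟩ := Ideal.Quotient.mk_surjective q
    rw [← haeval, Algebra.adjoin_range_eq_range_aeval]
    exact ⟨p, rfl⟩
  have halg : Algebra.IsAlgebraic (Algebra.adjoin M (Set.range x)) L := by
    refine ⟨fun z => ?_⟩
    obtain ⟨a, b, hb, rfl⟩ := IsFractionRing.div_surjective
      (A := MvPolynomial (Fin (k + 1)) M ⧸ Ideal.span {g}) z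
    have h1 : ∀ q : MvPolynomial (Fin (k + 1)) M ⧸ Ideal.span {g},
        IsAlgebraic (Algebra.adjoin M (Set.range x))
          (algebraMap (MvPolynomial (Fin (k + 1)) M ⧸ Ideal.span {g}) L q) := fun q =>
      isAlgebraic_algebraMap (⟨_, hmem q⟩ : Algebra.adjoin M (Set.range x))
    rw [div_eq_mul_inv]
    exact (h1 a).mul (h1 b).inv
  apply le_antisymm
  · -- upper bound
    by_contra hcon
    rw [not_le] at hcon
    have h1 : Cardinal.mk (Fin (k + 1)) ≤ Algebra.trdeg M L := by
      rw [Cardinal.mk_fin]
      push_cast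
      exact Cardinal.natCast_add_one_le_iff.2 hcon
    have h2 := Algebra.IsAlgebraic.isTranscendenceBasis_of_le_trdeg_of_finite M x h1
    have h3 := h2.1
    have h4 : g = 0 := by
      rw [algebraicIndependent_iff_injective_aeval] at h3
      exact h3 (by rw [hg0, map_zero])
    exact hg.ne_zero h4
  · -- lower bound
    obtain ⟨j, hj⟩ : ∃ j, j ∈ g.vars := by
      by_contra hcon
      push Not at hcon
      have h1 : g.vars = ∅ := Finset.eq_empty_of_forall_notMem hcon
      obtain ⟨c, hc⟩ : ∃ c : M, g = C c := by
        refine ⟨coeff 0 g, ?_⟩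
        rw [← MvPolynomial.totalDegree_eq_zero_iff_eq_C, MvPolynomial.totalDegree_eq_zero_iff]
        intro m hm i
        by_contra hmi
        have : i ∈ g.vars := by
          rw [mem_vars]
          exact ⟨m, hm, Finsupp.mem_support_iff.2 hmi⟩
        exact hcon i this
      apply hg.not_isUnit
      rw [hc]
      apply IsUnit.map
      rw [isUnit_iff_ne_zero]
      intro h0
      apply hg.ne_zero
      rw [hc, h0, map_zero]
    have hdeg : 0 < degreeOf j g := by
      rw [Nat.pos_iff_ne_zero]
      intro h0
      rw [mem_vars] at hj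
      obtain ⟨m, hm, hmj⟩ := hj
      have := monomial_le_degreeOf j hm
      exact (Finsupp.mem_support_iff.1 hmj) (by omega)
    have hind : AlgebraicIndependent M (fun i : {i : Fin (k + 1) // i ≠ j} => x i) := by
      rw [algebraicIndependent_iff]
      intro p hp
      by_contra hp0
      have h1 : aeval x (rename (fun i : {i : Fin (k + 1) // i ≠ j} => (i : Fin (k + 1))) p) = 0 := by
        rw [aeval_rename]; exact hp
      obtain ⟨h, hh⟩ := hker _ h1
      have hr0 : rename (fun i : {i : Fin (k + 1) // i ≠ j} => (i : Fin (k + 1))) p ≠ 0 := by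
        rw [Ne, map_eq_zero_iff _ (rename_injective _ Subtype.val_injective)]
        exact hp0
      have hh0 : h ≠ 0 := by
        rintro rfl
        rw [mul_zero] at hh
        exact hr0 hh
      have h2 : degreeOf j (rename (fun i : {i : Fin (k + 1) // i ≠ j} => (i : Fin (k + 1))) p) = 0 := by
        rw [← Nat.le_zero, degreeOf_le_iff]
        intro m hm
        rw [Nat.le_zero]
        by_contra hmj
        have h3 : j ∈ (rename (fun i : {i : Fin (k + 1) // i ≠ j} => (i : Fin (k + 1))) p).vars := by
          rw [mem_vars]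
          exact ⟨m, hm, Finsupp.mem_support_iff.2 hmj⟩
        have h4 := vars_rename (fun i : {i : Fin (k + 1) // i ≠ j} => (i : Fin (k + 1))) p h3
        rw [Finset.mem_image] at h4
        obtain ⟨i, _, hi⟩ := h4
        exact i.2 hi
      rw [hh, degreeOf_mul_eq hg.ne_zero hh0] at h2
      omega
    have h1 := hind.cardinalMk_le_trdeg
    have h2 : Cardinal.mk {i : Fin (k + 1) // i ≠ j} = k := by
      rw [Cardinal.mk_fintype]
      congr 1
      simp
    rw [h2] at h1
    exact h1

end Pool.Agent.Run7.h954.CP
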