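import Pool.Agent.Run7.h954.CP.Bir
import Pool.Agent.Run7.h954.CP.Rat
import Pool.Agent.Run7.h954.CP.TrD

/-!
# Lemmas for the comparison of the ranks and of the points
-/

set_option autoImplicit false
set_option linter.all false

open Polynomial

namespace Pool.Agent.Run7.h954.CP

/-- the fraction field of a localisation -/
theorem loc_frac {R A E : Type} [CommRing R] [CommRing A] [Field E] [Algebra A E] [IsFractionRing A E]
    {S : Submonoid R} {φ : R →+* A} (h : IsLoc S φ) (hi : Function.Injective φ) :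
    IsLoc (nonZeroDivisors R) ((algebraMap A E).comp φ) := by
  letI : Algebra R E := ((algebraMap A E).comp φ).toAlgebra
  show IsFractionRing R E
  have hinj : Function.Injective (algebraMap R E) := (IsFractionRing.injective A E).comp hi
  have hf : FaithfulSMul R E := (faithfulSMul_iff_algebraMap_injective _ E).2 hinj
  refine IsFractionRing.of_field _ E fun z => ?_
  obtain ⟨a, b, hb, rfl⟩ := IsFractionRing.div_surjective (A := A) z
  obtain ⟨s, hs, x, hx⟩ := h.den a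
  obtain ⟨t, ht, y, hy⟩ := h.den b
  have hmap : ∀ c : R, algebraMap R E c = algebraMap A E (φ c) := fun c => rfl
  have hu : ∀ s ∈ S, algebraMap A E (φ s) ≠ 0 := fun s hs => ((h.unit hs).map (algebraMap A E)).ne_zero
  refine ⟨x * t, y * s, ?_⟩
  rw [map_mul, map_mul, hmap, hmap, hmap, hmap, ← hx, ← hy, map_mul, map_mul]
  have e1 := hu s hs
  have e2 := hu t ht
  rcases eq_or_ne (algebraMap A E b) 0 with h0 | h0
  · rw [h0]
    simp
  · field_simp

/-- larger constants -/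
theorem aw_lift_le {R₀ R B₀ B E : Type} [CommRing R₀] [CommRing R] [CommRing B₀] [CommRing B] [Field E]
    [Algebra R₀ E] [Algebra R E] [Algebra B₀ E] [Algebra B E] {S : Submonoid R₀} {φ : R₀ →+* R}
    {ψ : B₀ →+* B} (hφ : IsLoc S φ) (h1 : ∀ x, algebraMap R E (φ x) = algebraMap R₀ E x)
    (h2 : ∀ x, algebraMap B E (ψ x) = algebraMap B₀ E x) {r : R₀} {b : B₀}
    (hr : algebraMap R₀ E r ≠ 0) (hb : algebraMap B₀ E b ≠ 0)
    (hinv : ∀ s ∈ S, (algebraMap R₀ E s)⁻¹ ∈ (algebraMap B E).range) (hle : aw E r ≤ aw E b) :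
    aw E (φ r) ≤ aw E (ψ b) := by
  have l1 : aw E b ≤ aw E (ψ b) := by
    refine aw_le hb (fun x => ?_) ?_
    · rw [← h2]
      exact map_mem_aw _ _
    · rw [← h2]
      exact inv_mem_aw dvd_rfl (by rw [h2]; exact hb)
  refine aw_le (by rw [h1]; exact hr) (fun x => ?_) ?_
  · obtain ⟨s, hs, y, hy⟩ := hφ.den x
    have h3 := congrArg (algebraMap R E) hy
    rw [map_mul, h1, h1] at h3
    have h4 : algebraMap R₀ E s ≠ 0 := by
      rw [← h1]
      exact ((hφ.unit hs).map (algebraMap R E)).ne_zero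
    have h5 : algebraMap R E x = algebraMap R₀ E y * (algebraMap R₀ E s)⁻¹ := by
      rw [← h3, mul_assoc, mul_inv_cancel₀ h4, mul_one]
    rw [h5]
    obtain ⟨c, hc⟩ := hinv s hs
    rw [← hc]
    exact mul_mem (l1 (hle (map_mem_aw _ _))) (map_mem_aw _ _)
  · rw [h1]
    exact l1 (hle (inv_mem_aw dvd_rfl hr))

/-- one constant for finitely many primes -/
theorem exists_s {A₀ C₀ : Type} [CommRing A₀] [IsDomain A₀] [CommRing C₀] (ι : A₀ →+* C₀)
    (Ps : Set (Ideal C₀)) (hfin : Ps.Finite) :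
    ∃ s : A₀, s ≠ 0 ∧ ∀ 𝔭 ∈ Ps, (∃ a : A₀, a ≠ 0 ∧ ι a ∈ 𝔭) → ι s ∈ 𝔭 := by
  classical
  have h1 : ∀ 𝔭 : Ideal C₀, ∃ a : A₀, a ≠ 0 ∧ ((∃ a : A₀, a ≠ 0 ∧ ι a ∈ 𝔭) → ι a ∈ 𝔭) := by
    intro 𝔭
    by_cases h : ∃ a : A₀, a ≠ 0 ∧ ι a ∈ 𝔭
    · obtain ⟨a, h2, h3⟩ := h
      exact ⟨a, h2, fun _ => h3⟩
    · exact ⟨1, one_ne_zero, fun h2 => (h h2).elim⟩
  choose a ha0 ha using h1
  refine ⟨∏ 𝔭 ∈ hfin.toFinset, a 𝔭, Finset.prod_ne_zero_iff.2 fun 𝔭 _ => ha0 𝔭, ?_⟩
  intro 𝔭 hp h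
  rw [← Finset.mul_prod_erase hfin.toFinset a (hfin.mem_toFinset.2 hp), map_mul]
  exact 𝔭.mul_mem_right _ (ha 𝔭 h)

theorem trdeg_up {M L : Type} [Field M] [CharZero M] [Field L] [CharZero L] [Algebra M L] {d k : ℕ}
    (hd : Algebra.trdeg ℚ M = d) (h : Algebra.trdeg M L = k) : Algebra.trdeg ℚ L = (d + k : ℕ) := by
  have ht : IsScalarTower ℚ M L := IsScalarTower.of_algebraMap_eq' (Subsingleton.elim _ _)
  have h2 := trdeg_add_eq ℚ M (A := L)
  rw [← h2, hd, h]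
  push_cast
  rfl

section
variable {M : Type} [Field M] [CharZero M]

/-- the transcendence degree of the function fields of the components of a hypersurface -/
theorem trdeg_hyp {d k : ℕ} (hd : Algebra.trdeg ℚ M = d) {g : MvPolynomial (Fin (k + 1)) M} (hg : g ≠ 0)
    (𝔮 : Ideal (MvPolynomial (Fin (k + 1)) M)) (h𝔮 : 𝔮 ∈ (Ideal.span {g}).minimalPrimes) :
    ∃ (L : Type) (_ : Field L) (_ : CharZero L) (_ : Algebra (MvPolynomial (Fin (k + 1)) M ⧸ 𝔮) L)
      (_ : IsFractionRing (MvPolynomial (Fin (k + 1)) M ⧸ 𝔮) L), Algebra.trdeg ℚ L = (d + k : ℕ) := by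
  classical
  have hp : 𝔮.IsPrime := h𝔮.1.1
  have hgq : g ∈ 𝔮 := h𝔮.1.2 (Ideal.mem_span_singleton_self g)
  obtain ⟨q, hq, hqm, hqg⟩ : ∃ q : MvPolynomial (Fin (k + 1)) M, Irreducible q ∧ q ∈ 𝔮 ∧ q ∣ g := by
    obtain ⟨f, hf, u, hu⟩ := WfDvdMonoid.exists_factors g hg
    have h2 : f.prod ∈ 𝔮 := by
      have h1 : f.prod * (u : MvPolynomial (Fin (k + 1)) M) ∈ 𝔮 := by rw [hu]; exact hgq
      exact (hp.mem_or_mem h1).resolve_right fun h => hp.ne_top (Ideal.eq_top_of_isUnit_mem _ h u.isUnit)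
    obtain ⟨q, h3, h4⟩ := (Ideal.IsPrime.multiset_prod_mem_iff_exists_mem hp f).1 h2
    exact ⟨q, hf q h3, h4, (Multiset.dvd_prod h3).trans ⟨u, hu.symm⟩⟩
  have hqp : (Ideal.span {q}).IsPrime :=
    (Ideal.span_singleton_prime hq.ne_zero).2 (UniqueFactorizationMonoid.irreducible_iff_prime.1 hq)
  have heq : Ideal.span {q} = 𝔮 := by
    have hm : Minimal (fun I : Ideal (MvPolynomial (Fin (k + 1)) M) => I.IsPrime ∧ Ideal.span {g} ≤ I) 𝔮 :=
      h𝔮
    refine hm.eq_of_le ⟨hqp, ?_⟩ ?_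
    · rw [Ideal.span_singleton_le_span_singleton]
      exact hqg
    · rw [Ideal.span_singleton_le_iff_mem]
      exact hqm
  subst heq
  let B := MvPolynomial (Fin (k + 1)) M ⧸ Ideal.span {q}
  have hdom : IsDomain B := Ideal.Quotient.isDomain _
  let L := FractionRing B
  have hML : Function.Injective (algebraMap M L) := (algebraMap M L).injective
  have hc : CharZero L := charZero_of_injective_algebraMap hML
  refine ⟨L, inferInstance, hc, inferInstance, inferInstance, ?_⟩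
  have h1 : Algebra.trdeg M L = k := trdeg_quot hq
  exact trdeg_up hd h1

end

section
variable {K A : Type} [Field K] [CharZero K] [CommRing A] [IsDomain A] [Algebra K A]
  [Algebra.FiniteType K A]

/-- the residue fields of the closed points of a curve -/
theorem trdeg_pt {e : ℕ} (he : Algebra.trdeg ℚ K = e) (𝔮 : Ideal A) (hm : 𝔮.IsMaximal) :
    ∃ (L : Type) (_ : Field L) (_ : CharZero L) (_ : Algebra (A ⧸ 𝔮) L)
      (_ : IsFractionRing (A ⧸ 𝔮) L), Algebra.trdeg ℚ L = e := by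
  letI : Field (A ⧸ 𝔮) := Ideal.Quotient.field 𝔮
  have hft : Algebra.FiniteType K (A ⧸ 𝔮) :=
    Algebra.FiniteType.of_surjective (Ideal.Quotient.mkₐ K 𝔮) Ideal.Quotient.mk_surjective
  have hfin : Module.Finite K (A ⧸ 𝔮) := finite_of_finite_type_of_isJacobsonRing K (A ⧸ 𝔮)
  have hc : CharZero (A ⧸ 𝔮) := charZero_of_injective_algebraMap (algebraMap K (A ⧸ 𝔮)).injective
  refine ⟨A ⧸ 𝔮, inferInstance, hc, Algebra.id _, inferInstance, ?_⟩
  have ht : IsScalarTower ℚ K (A ⧸ 𝔮) := IsScalarTower.of_algebraMap_eq' (Subsingleton.elim _ _)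
  have h2 := trdeg_add_eq ℚ K (A := A ⧸ 𝔮)
  rw [trdeg_eq_zero (R := K) (A := A ⧸ 𝔮), add_zero, he] at h2
  exact h2.symm

end

end Pool.Agent.Run7.h954.CP
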