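import Pool.Agent.Run7.h954.CP.RkC

/-!
# Rank of the class group: the class group is generated up to torsion by the primes containing `f`
-/

set_option autoImplicit false

namespace Pool.Agent.Run7.h954.CP

open IsDedekindDomain FractionalIdeal
open scoped nonZeroDivisors

/-- The situation of the pieces RKA and RKB.  `P` and `T` are factorial, `P ⊆ C ⊆ A ⊆ E ⊇ T`, `A` is the
localisation of `C` at the nonzero elements of `P`, `E` is the fraction field of `A`, `C`, and `T`, and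
`C[1/(f r)] = T[1/g]`. -/
structure Sit (P T C A E : Type) [CommRing P] [IsDomain P] [UniqueFactorizationMonoid P]
    [CommRing T] [IsDomain T] [UniqueFactorizationMonoid T] [CommRing C] [IsDomain C]
    [CommRing A] [IsDedekindDomain A] [Field E] [Algebra P C] [Algebra P A] [Algebra C A] [Algebra P E]
    [Algebra C E] [Algebra A E] [Algebra T E] (f : C) (r : P) (g : T) : Prop where
  tPCA : IsScalarTower P C A
  tCAE : IsScalarTower C A E
  tPCE : IsScalarTower P C E
  inj : Function.Injective (algebraMap P C)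
  loc : IsLocalization (Algebra.algebraMapSubmonoid C (nonZeroDivisors P)) A
  frA : IsFractionRing A E
  frT : IsFractionRing T E
  unitA : ∀ a : A, IsUnit a → ∃ p q : P, p ≠ 0 ∧ q ≠ 0 ∧ a * algebraMap P A q = algebraMap P A p
  unitT : ∀ t : T, IsUnit t → ∃ p : P, IsUnit p ∧ algebraMap P E p = algebraMap T E t
  unitP : ∀ p : P, IsUnit p → ∃ t : T, IsUnit t ∧ algebraMap P E p = algebraMap T E t
  prime : ∀ q : P, Irreducible q → Prime (algebraMap P C q)
  dvd : ∀ q p : P, Irreducible q → algebraMap P C q ∣ algebraMap P C p → q ∣ p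
  f0 : f ≠ 0
  r0 : r ≠ 0
  g0 : g ≠ 0
  eq : ∀ e : E, (∃ k : ℕ, e * algebraMap C E (f * algebraMap P C r) ^ k ∈ (algebraMap C E).range) ↔
    ∃ k : ℕ, e * algebraMap T E g ^ k ∈ (algebraMap T E).range
  vert : ∀ q : P, Irreducible q → ¬ q ∣ r → ¬ algebraMap P C q ∣ f

section

variable {A E : Type} [CommRing A] [IsDedekindDomain A] [Field E] [Algebra A E]
    [IsFractionRing A E]

theorem count_span (𝔮 : HeightOneSpectrum A) {a : A} (ha : a ≠ 0) {e : Eˣ} (h : (e : E) = algebraMap A E a) :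
    vv 𝔮 e = ((Associates.mk 𝔮.asIdeal).count (Associates.mk (Ideal.span {a})).factors : ℤ) := by
  classical
  unfold vv
  rw [h, ← coeIdeal_span_singleton, count_coe]
  rwa [Ne, Ideal.zero_eq_bot, Ideal.span_singleton_eq_bot]

theorem val_eq (𝔮 : HeightOneSpectrum A) (e : Eˣ) :
    𝔮.valuation E (e : E) = WithZero.exp (-(vv 𝔮 e)) := by
  classical
  obtain ⟨a, b, hb, hab⟩ := IsFractionRing.div_surjective (A := A) (e : E)
  have hb0 : b ≠ 0 := nonZeroDivisors.ne_zero hb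
  have hbE : algebraMap A E b ≠ 0 := by
    rwa [Ne, FaithfulSMul.algebraMap_eq_zero_iff]
  have ha0 : a ≠ 0 := by
    rintro rfl
    rw [map_zero, zero_div] at hab
    exact e.ne_zero hab.symm
  have haE : algebraMap A E a ≠ 0 := by
    rwa [Ne, FaithfulSMul.algebraMap_eq_zero_iff]
  have he : e = Units.mk0 _ haE * (Units.mk0 _ hbE)⁻¹ := by
    ext
    rw [Units.val_mul, Units.val_inv_eq_inv_val, Units.val_mk0, Units.val_mk0, ← hab, div_eq_mul_inv]
  have h1 : vv 𝔮 e = ((Associates.mk 𝔮.asIdeal).count (Associates.mk (Ideal.span {a})).factors : ℤ) -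
      ((Associates.mk 𝔮.asIdeal).count (Associates.mk (Ideal.span {b})).factors : ℤ) := by
    conv_lhs => rw [he]
    rw [vv_mul, vv_inv, count_span 𝔮 ha0 (Units.val_mk0 haE), count_span 𝔮 hb0 (Units.val_mk0 hbE)]
    rfl
  rw [h1, ← hab, map_div₀, HeightOneSpectrum.valuation_of_algebraMap,
    HeightOneSpectrum.valuation_of_algebraMap, HeightOneSpectrum.intValuation_if_neg _ ha0,
    HeightOneSpectrum.intValuation_if_neg _ hb0, ← WithZero.exp_sub]
  congr 1
  ring

theorem vv_nonneg_iff (𝔮 : HeightOneSpectrum A) (e : Eˣ) : 0 ≤ vv 𝔮 e ↔ 𝔮.valuation E (e : E) ≤ 1 := by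
  rw [val_eq, ← WithZero.exp_zero, WithZero.exp_le_exp]
  omega

theorem vv_pos_iff (𝔮 : HeightOneSpectrum A) (e : Eˣ) : 0 < vv 𝔮 e ↔ 𝔮.valuation E (e : E) < 1 := by
  rw [val_eq, ← WithZero.exp_zero, WithZero.exp_lt_exp]
  omega

theorem vv_nonneg_of_mem (𝔮 : HeightOneSpectrum A) {a : A} {e : Eˣ} (h : (e : E) = algebraMap A E a) :
    0 ≤ vv 𝔮 e := by
  rw [vv_nonneg_iff, h]
  exact 𝔮.valuation_le_one a

theorem vv_pos_iff_mem (𝔮 : HeightOneSpectrum A) {a : A} {e : Eˣ} (h : (e : E) = algebraMap A E a) :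
    0 < vv 𝔮 e ↔ a ∈ 𝔮.asIdeal := by
  rw [vv_pos_iff, h]
  exact 𝔮.valuation_lt_one_iff_mem a

theorem vv_zero_of_not_mem (𝔮 : HeightOneSpectrum A) {a : A} {e : Eˣ} (h : (e : E) = algebraMap A E a)
    (ha : a ∉ 𝔮.asIdeal) : vv 𝔮 e = 0 := by
  have h1 := vv_nonneg_of_mem 𝔮 h
  have h2 := (vv_pos_iff_mem 𝔮 h).not.2 ha
  omega

theorem mem_of_vv_nonneg (e : Eˣ) (h : ∀ 𝔮 : HeightOneSpectrum A, 0 ≤ vv 𝔮 e) :
    ∃ a : A, algebraMap A E a = e :=
  HeightOneSpectrum.mem_integers_of_valuation_le_one E (e : E) fun 𝔮 => (vv_nonneg_iff 𝔮 e).1 (h 𝔮)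

/-- the primes which contain a given nonzero element -/
theorem finite_mem {a : A} (ha : a ≠ 0) : {𝔮 : HeightOneSpectrum A | a ∈ 𝔮.asIdeal}.Finite := by
  refine (Ideal.finite_factors (I := Ideal.span {a}) ?_).subset ?_
  · rwa [Ne, Ideal.zero_eq_bot, Ideal.span_singleton_eq_bot]
  · intro 𝔮 h
    show 𝔮.asIdeal ∣ _
    rw [Ideal.dvd_span_singleton]
    exact h

/-- a class relation from an element -/
theorem class_rel {a : A} (ha : a ≠ 0) (𝔮 : HeightOneSpectrum A) (h𝔮 : a ∉ 𝔮.asIdeal) (e : Eˣ)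
    (he : ∀ 𝔮' : HeightOneSpectrum A, a ∉ 𝔮'.asIdeal → 𝔮' ≠ 𝔮 → vv 𝔮' e = 0) :
    cl 𝔮 ^ vv 𝔮 e ∈ Subgroup.closure {c | ∃ 𝔭 : HeightOneSpectrum A, a ∈ 𝔭.asIdeal ∧ c = cl 𝔭} := by
  classical
  have : Fintype {𝔭 : HeightOneSpectrum A // a ∈ 𝔭.asIdeal} := (finite_mem ha).fintype
  set 𝔭 : Option {𝔭 : HeightOneSpectrum A // a ∈ 𝔭.asIdeal} → HeightOneSpectrum A :=
    fun o => o.elim 𝔮 Subtype.val with h𝔭
  have hinj : Function.Injective 𝔭 := by
    rintro (_ | ⟨x, hx⟩) (_ | ⟨y, hy⟩) hxy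
    · rfl
    · exact absurd hy (by rw [← show 𝔮 = y from hxy]; exact h𝔮)
    · exact absurd hx (by rw [show x = 𝔮 from hxy]; exact h𝔮)
    · have : x = y := hxy
      subst this
      rfl
  have h1 : ((∏ i, pu E (𝔭 i) ^ vv (𝔭 i) e : (FractionalIdeal A⁰ E)ˣ) : FractionalIdeal A⁰ E) =
      spanSingleton A⁰ (e : E) := by
    apply fi_ext (Units.ne_zero _) (sp_ne _)
    intro 𝔮'
    rw [count_prod_pu]
    show _ = vv 𝔮' e
    by_cases h : 𝔮' ∈ Set.range 𝔭
    · obtain ⟨i, rfl⟩ := h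
      rw [Finset.sum_eq_single i, count_self, mul_one]
      · intro b _ hb
        rw [count_maximal_coprime E (𝔭 i) (fun h => hb (hinj h)), mul_zero]
      · intro h; exact absurd (Finset.mem_univ _) h
    · trans (0 : ℤ)
      · refine Finset.sum_eq_zero fun i _ => ?_
        rw [count_maximal_coprime E 𝔮' (fun h' => h ⟨i, h'⟩), mul_zero]
      · symm
        apply he
        · intro h'
          exact h ⟨some ⟨𝔮', h'⟩, rfl⟩
        · rintro rfl
          exact h ⟨none, rfl⟩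
  have h2 := mk_eq_one' h1
  rw [map_prod, Fintype.prod_option] at h2
  simp only [map_zpow, mk_pu] at h2
  rw [mul_eq_one_iff_eq_inv] at h2
  have h3 : cl (𝔭 none) ^ vv (𝔭 none) e = cl 𝔮 ^ vv 𝔮 e := rfl
  rw [← h3, h2]
  refine Subgroup.inv_mem _ (Subgroup.prod_mem _ fun i _ => Subgroup.zpow_mem _ ?_ _)
  exact Subgroup.subset_closure ⟨_, i.2, rfl⟩

end

/-- The ring `R[1/s]` inside `E`. -/
def Loc (R E : Type) [CommRing R] [Field E] [Algebra R E] (s : R) : Subring E where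
  carrier := {e | ∃ k : ℕ, e * algebraMap R E s ^ k ∈ (algebraMap R E).range}
  one_mem' := ⟨0, 1, by simp⟩
  zero_mem' := ⟨0, 0, by simp⟩
  mul_mem' := by
    rintro a b ⟨k, x, hx⟩ ⟨l, y, hy⟩
    exact ⟨k + l, x * y, by rw [map_mul, hx, hy]; ring⟩
  add_mem' := by
    rintro a b ⟨k, x, hx⟩ ⟨l, y, hy⟩
    exact ⟨k + l, x * s ^ l + y * s ^ k, by simp only [map_mul, map_add, map_pow, hx, hy]; ring⟩
  neg_mem' := by
    rintro a ⟨k, x, hx⟩
    exact ⟨k, -x, by rw [map_neg, hx]; ring⟩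

section

variable {R E : Type} [CommRing R] [Field E] [Algebra R E] {s : R}

theorem mem_Loc {e : E} : e ∈ Loc R E s ↔ ∃ k : ℕ, e * algebraMap R E s ^ k ∈ (algebraMap R E).range :=
  Iff.rfl

theorem alg_mem_Loc (x : R) : algebraMap R E x ∈ Loc R E s := ⟨0, x, by simp⟩

theorem inv_mem_Loc (hs : algebraMap R E s ≠ 0) : (algebraMap R E s)⁻¹ ∈ Loc R E s :=
  ⟨1, 1, by rw [pow_one, inv_mul_cancel₀ hs, map_one]⟩

theorem inv_mem_Loc_of_dvd (hs : algebraMap R E s ≠ 0) {x : R} (hx : x ∣ s) :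
    (algebraMap R E x)⁻¹ ∈ Loc R E s := by
  obtain ⟨y, hy⟩ := hx
  have h0 : algebraMap R E x ≠ 0 := by
    intro h
    apply hs
    rw [hy, map_mul, h, zero_mul]
  have h1 : algebraMap R E y ≠ 0 := by
    intro h
    apply hs
    rw [hy, map_mul, h, mul_zero]
  have : (algebraMap R E x)⁻¹ = (algebraMap R E s)⁻¹ * algebraMap R E y := by
    rw [hy, map_mul]
    field_simp
  rw [this]
  exact (Loc R E s).mul_mem (inv_mem_Loc hs) (alg_mem_Loc y)

end

section
variable {P T C A E : Type} [CommRing P] [IsDomain P] [UniqueFactorizationMonoid P]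
    [CommRing T] [IsDomain T] [UniqueFactorizationMonoid T] [CommRing C] [IsDomain C]
    [CommRing A] [IsDedekindDomain A] [Field E] [Algebra P C] [Algebra P A] [Algebra C A] [Algebra P E]
    [Algebra C E] [Algebra A E] [Algebra T E] {f : C} {r : P} {g : T}

namespace Sit

variable (h : Sit P T C A E f r g)

include h

theorem Deq : Loc C E (f * algebraMap P C r) = Loc T E g := by
  ext e
  exact h.eq e

theorem algPE (p : P) : algebraMap P E p = algebraMap C E (algebraMap P C p) := by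
  have := h.tPCE
  exact IsScalarTower.algebraMap_apply P C E p

theorem algCE (c : C) : algebraMap C E c = algebraMap A E (algebraMap C A c) := by
  have := h.tCAE
  exact IsScalarTower.algebraMap_apply C A E c

theorem algPA (p : P) : algebraMap P A p = algebraMap C A (algebraMap P C p) := by
  have := h.tPCA
  exact IsScalarTower.algebraMap_apply P C A p

theorem algPE' (p : P) : algebraMap P E p = algebraMap A E (algebraMap P A p) := by
  rw [h.algPE, h.algCE, h.algPA]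

theorem injAE : Function.Injective (algebraMap A E) := by
  have := h.frA
  exact IsFractionRing.injective A E

theorem injTE : Function.Injective (algebraMap T E) := by
  have := h.frT
  exact IsFractionRing.injective T E

theorem subm : Algebra.algebraMapSubmonoid C (nonZeroDivisors P) ≤ nonZeroDivisors C := by
  rintro _ ⟨p, hp, rfl⟩
  apply mem_nonZeroDivisors_of_ne_zero
  intro h0
  exact nonZeroDivisors.ne_zero hp (h.inj (by rw [h0, map_zero]))

theorem injCA : Function.Injective (algebraMap C A) := by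
  have := h.loc
  exact IsLocalization.injective A h.subm

theorem injCE : Function.Injective (algebraMap C E) := by
  intro x y hxy
  rw [h.algCE, h.algCE] at hxy
  exact h.injCA (h.injAE hxy)

theorem injPE : Function.Injective (algebraMap P E) := by
  intro x y hxy
  rw [h.algPE, h.algPE] at hxy
  exact h.inj (h.injCE hxy)

theorem fE0 : algebraMap C E f ≠ 0 := fun h0 => h.f0 (h.injCE (by rw [h0, map_zero]))

theorem fA0 : algebraMap C A f ≠ 0 := fun h0 => h.f0 (h.injCA (by rw [h0, map_zero]))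

theorem gE0 : algebraMap T E g ≠ 0 := fun h0 => h.g0 (h.injTE (by rw [h0, map_zero]))

theorem PE0 {p : P} (hp : p ≠ 0) : algebraMap P E p ≠ 0 := fun h0 => hp (h.injPE (by rw [h0, map_zero]))

theorem TE0 {t : T} (ht : t ≠ 0) : algebraMap T E t ≠ 0 := fun h0 => ht (h.injTE (by rw [h0, map_zero]))

theorem PC0 {p : P} (hp : p ≠ 0) : algebraMap P C p ≠ 0 := fun h0 => hp (h.inj (by rw [h0, map_zero]))

theorem sE0 : algebraMap C E (f * algebraMap P C r) ≠ 0 := by
  rw [map_mul, ← h.algPE]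
  exact mul_ne_zero h.fE0 (h.PE0 h.r0)

/-- elements of `P` are units of `A` -/
theorem unitPA {p : P} (hp : p ≠ 0) : ∃ a : A, a * algebraMap P A p = 1 := by
  have := h.loc
  have : IsUnit (algebraMap C A (algebraMap P C p)) :=
    IsLocalization.map_units A
      (⟨algebraMap P C p, p, mem_nonZeroDivisors_of_ne_zero hp, rfl⟩ :
        Algebra.algebraMapSubmonoid C (nonZeroDivisors P))
  obtain ⟨a, ha⟩ := this.exists_left_inv
  exact ⟨a, by rw [h.algPA, ha]⟩

theorem invP_mem {p : P} (hp : p ≠ 0) : (algebraMap P E p)⁻¹ ∈ Loc A E (algebraMap C A f) := by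
  obtain ⟨a, ha⟩ := h.unitPA hp
  have : (algebraMap P E p)⁻¹ = algebraMap A E a := by
    apply inv_eq_of_mul_eq_one_left
    rw [h.algPE', ← map_mul, ha, map_one]
  rw [this]
  exact alg_mem_Loc _

/-- `D ⊆ A_f` -/
theorem D_le : Loc C E (f * algebraMap P C r) ≤ Loc A E (algebraMap C A f) := by
  rintro e ⟨k, c, hc⟩
  have h1 : e * algebraMap A E (algebraMap C A f) ^ k =
      algebraMap C E c * (algebraMap P E r)⁻¹ ^ k := by
    rw [hc, map_mul, ← h.algCE, ← h.algPE, mul_pow, inv_pow, ← mul_assoc, mul_inv_cancel_right₀]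
    exact pow_ne_zero _ (h.PE0 h.r0)
  have hf : algebraMap A E (algebraMap C A f) ≠ 0 := by rw [← h.algCE]; exact h.fE0
  have h2 : e = algebraMap C E c * (algebraMap P E r)⁻¹ ^ k *
      (algebraMap A E (algebraMap C A f))⁻¹ ^ k := by
    rw [← h1, inv_pow, mul_inv_cancel_right₀]
    exact pow_ne_zero _ hf
  rw [h2]
  refine Subring.mul_mem _ (Subring.mul_mem _ ?_ (Subring.pow_mem _ (h.invP_mem h.r0) _))
    (Subring.pow_mem _ (inv_mem_Loc hf) _)
  rw [h.algCE]
  exact alg_mem_Loc _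

theorem T_mem (t : T) : algebraMap T E t ∈ Loc A E (algebraMap C A f) := by
  apply h.D_le
  rw [h.Deq]
  exact alg_mem_Loc t

theorem invg_mem : (algebraMap T E g)⁻¹ ∈ Loc A E (algebraMap C A f) := by
  apply h.D_le
  rw [h.Deq]
  exact inv_mem_Loc h.gE0

theorem C_mem (c : C) : algebraMap C E c ∈ Loc T E g := by
  rw [← h.Deq]
  exact alg_mem_Loc c

/-- every element of `A` is a fraction of elements of `T` -/
theorem rep (a : A) : ∃ t m : T, algebraMap T E m ≠ 0 ∧
    (algebraMap T E m)⁻¹ ∈ Loc A E (algebraMap C A f) ∧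
    algebraMap A E a * algebraMap T E m = algebraMap T E t := by
  have := h.loc
  obtain ⟨⟨c, ⟨_, p, hp, rfl⟩⟩, hc⟩ :=
    IsLocalization.surj (Algebra.algebraMapSubmonoid C (nonZeroDivisors P)) a
  have hp0 : p ≠ 0 := nonZeroDivisors.ne_zero hp
  have hc' : a * algebraMap C A (algebraMap P C p) = algebraMap C A c := hc
  obtain ⟨i, x, hx⟩ := h.C_mem c
  obtain ⟨j, y, hy⟩ := h.C_mem (algebraMap P C p)
  have hyE : algebraMap T E y = algebraMap P E p * algebraMap T E g ^ j := by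
    rw [hy, h.algPE]
  have hxE : algebraMap T E x = algebraMap C E c * algebraMap T E g ^ i := hx
  have hcE : algebraMap A E a * algebraMap P E p = algebraMap C E c := by
    rw [h.algPE, h.algCE, h.algCE, ← hc', map_mul]
  refine ⟨x * g ^ j, y * g ^ i, ?_, ?_, ?_⟩
  · rw [map_mul, map_pow, hyE]
    exact mul_ne_zero (mul_ne_zero (h.PE0 hp0) (pow_ne_zero _ h.gE0)) (pow_ne_zero _ h.gE0)
  · have : (algebraMap T E (y * g ^ i))⁻¹ =
        (algebraMap P E p)⁻¹ * (algebraMap T E g)⁻¹ ^ j * (algebraMap T E g)⁻¹ ^ i := by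
      rw [map_mul, map_pow, hyE, mul_inv, mul_inv, inv_pow, inv_pow]
    rw [this]
    exact Subring.mul_mem _ (Subring.mul_mem _ (h.invP_mem hp0) (Subring.pow_mem _ h.invg_mem _))
      (Subring.pow_mem _ h.invg_mem _)
  · rw [map_mul, map_mul, map_pow, map_pow, hyE, hxE, ← hcE]
    ring

theorem rep' {e : E} (he : e ∈ Loc A E (algebraMap C A f)) : ∃ t m : T, algebraMap T E m ≠ 0 ∧
    (algebraMap T E m)⁻¹ ∈ Loc A E (algebraMap C A f) ∧
    e * algebraMap T E m = algebraMap T E t := by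
  obtain ⟨k, a, ha⟩ := he
  obtain ⟨t, m, hm, hm', htm⟩ := h.rep a
  obtain ⟨i, x, hx⟩ := h.C_mem f
  have hf : algebraMap A E (algebraMap C A f) = algebraMap C E f := by rw [← h.algCE]
  have hxE : algebraMap T E x = algebraMap C E f * algebraMap T E g ^ i := hx
  refine ⟨t * (g ^ i) ^ k, m * x ^ k, ?_, ?_, ?_⟩
  · rw [map_mul, map_pow, hxE]
    exact mul_ne_zero hm (pow_ne_zero _ (mul_ne_zero h.fE0 (pow_ne_zero _ h.gE0)))
  · have : (algebraMap T E (m * x ^ k))⁻¹ =
        (algebraMap T E m)⁻¹ * ((algebraMap A E (algebraMap C A f))⁻¹ * (algebraMap T E g)⁻¹ ^ i) ^ k := by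
      rw [map_mul, map_pow, hxE, mul_inv, inv_pow, hf, ← inv_pow, mul_inv]
    rw [this]
    refine Subring.mul_mem _ hm' (Subring.pow_mem _ (Subring.mul_mem _ ?_ (Subring.pow_mem _ h.invg_mem _)) _)
    apply inv_mem_Loc
    rw [hf]; exact h.fE0
  · rw [map_mul, map_mul, map_pow, map_pow, map_pow, hxE, ← htm, ha, hf]
    ring

/-- the valuation is nonnegative on `A_f` if `f` is not in the prime -/
theorem vv_Af [IsFractionRing A E] {𝔮 : HeightOneSpectrum A} (hf : algebraMap C A f ∉ 𝔮.asIdeal) {e : Eˣ}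
    (he : (e : E) ∈ Loc A E (algebraMap C A f)) : 0 ≤ vv 𝔮 e := by
  obtain ⟨k, a, ha⟩ := he
  have hfE : algebraMap A E (algebraMap C A f) ≠ 0 := by rw [← h.algCE]; exact h.fE0
  have h1 : vv 𝔮 (e * Units.mk0 _ hfE ^ (k : ℤ)) = vv 𝔮 e := by
    rw [vv_mul, vv_zpow, vv_zero_of_not_mem 𝔮 (Units.val_mk0 hfE) hf, mul_zero, add_zero]
  rw [← h1]
  refine vv_nonneg_of_mem 𝔮 (a := a) ?_
  rw [Units.val_mul, zpow_natCast, Units.val_pow_eq_pow_val, Units.val_mk0, ha]

theorem vv_Af0 [IsFractionRing A E] {𝔮 : HeightOneSpectrum A} (hf : algebraMap C A f ∉ 𝔮.asIdeal) {e : Eˣ}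
    (he : (e : E) ∈ Loc A E (algebraMap C A f)) (he' : (e : E)⁻¹ ∈ Loc A E (algebraMap C A f)) :
    vv 𝔮 e = 0 := by
  have h1 := h.vv_Af hf he
  have h2 := h.vv_Af hf (e := e⁻¹) (by rwa [Units.val_inv_eq_inv_val])
  rw [vv_inv] at h2
  omega

/-- a nonzero element of `T` as a unit of `E` -/
noncomputable def tu (t : T) (ht : t ≠ 0) : Eˣ := Units.mk0 (algebraMap T E t) (h.TE0 ht)

theorem tu_val (t : T) (ht : t ≠ 0) : (h.tu t ht : E) = algebraMap T E t := rfl

end Sit

/-- Piece RKA: every class is torsion modulo the classes of the primes which contain `f`. -/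
theorem class_gen (h : Sit P T C A E f r g) (𝔮 : IsDedekindDomain.HeightOneSpectrum A) :
    ∃ k : ℕ, k ≠ 0 ∧ cl 𝔮 ^ k ∈ Subgroup.closure
      {c | ∃ 𝔭 : IsDedekindDomain.HeightOneSpectrum A, algebraMap C A f ∈ 𝔭.asIdeal ∧ c = cl 𝔭} := by
  classical
  by_cases hf : algebraMap C A f ∈ 𝔮.asIdeal
  · exact ⟨1, one_ne_zero, by rw [pow_one]; exact Subgroup.subset_closure ⟨𝔮, hf, rfl⟩⟩
  have frA := h.frA
  -- an element of `T` with positive valuation
  have s1 : ∃ (t : T) (ht : t ≠ 0), 0 < vv 𝔮 (h.tu t ht) := by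
    obtain ⟨a, ha𝔮, ha0⟩ := Submodule.exists_mem_ne_zero_of_ne_bot 𝔮.ne_bot
    obtain ⟨t, m, hm, hm', htm⟩ := h.rep a
    have haE : algebraMap A E a ≠ 0 := fun h0 => ha0 (h.injAE (by rw [h0, map_zero]))
    have ht : t ≠ 0 := by
      rintro rfl
      rw [map_zero] at htm
      exact mul_ne_zero haE hm htm
    refine ⟨t, ht, ?_⟩
    have h1 : h.tu t ht = Units.mk0 _ haE * Units.mk0 _ hm := by
      ext
      rw [Units.val_mul, Units.val_mk0, Units.val_mk0, h.tu_val, htm]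
    have h2 : vv 𝔮 (Units.mk0 _ hm) = 0 := h.vv_Af0 hf (h.T_mem m) hm'
    rw [h1, vv_mul, h2, add_zero]
    exact (vv_pos_iff_mem 𝔮 (Units.val_mk0 haE)).2 ha𝔮
  -- a prime element of `T` with positive valuation
  have s2 : ∃ (t : T) (ht : t ≠ 0), Prime t ∧ 0 < vv 𝔮 (h.tu t ht) := by
    obtain ⟨t, ht, hpos⟩ := s1
    revert ht hpos
    induction t using UniqueFactorizationMonoid.induction_on_prime with
    | h₁ => intro ht; exact absurd rfl ht
    | h₂ t hu =>
      intro ht hpos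
      exfalso
      obtain ⟨u, rfl⟩ := hu
      have : (algebraMap T E (u : T))⁻¹ = algebraMap T E ((u⁻¹ : Tˣ) : T) := by
        apply inv_eq_of_mul_eq_one_left
        rw [← map_mul, Units.inv_mul, map_one]
      have h2 : vv 𝔮 (h.tu (u : T) ht) = 0 := h.vv_Af0 hf (h.T_mem u) (by
        show (algebraMap T E (u : T))⁻¹ ∈ _
        rw [this]
        exact h.T_mem _)
      omega
    | h₃ t q ht0 hq ih =>
      intro ht hpos
      by_cases hq1 : 0 < vv 𝔮 (h.tu q hq.ne_zero)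
      · exact ⟨q, hq.ne_zero, hq, hq1⟩
      · apply ih ht0
        have h1 : h.tu (q * t) ht = h.tu q hq.ne_zero * h.tu t ht0 := by
          ext
          rw [Units.val_mul, h.tu_val, h.tu_val, h.tu_val, map_mul]
        rw [h1, vv_mul] at hpos
        omega
  obtain ⟨g₁, hg0, hg, hpos⟩ := s2
  set γ : E := algebraMap T E g₁ with hγ
  have hγ0 : γ ≠ 0 := h.TE0 hg0
  -- the ideal
  let 𝔥 : Ideal A :=
    { carrier := {a | algebraMap A E a * γ⁻¹ ∈ Loc A E (algebraMap C A f)}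
      zero_mem' := by
        show algebraMap A E 0 * γ⁻¹ ∈ Loc A E (algebraMap C A f)
        rw [map_zero, zero_mul]
        exact Subring.zero_mem _
      add_mem' := by
        intro a b ha hb
        show algebraMap A E (a + b) * γ⁻¹ ∈ Loc A E (algebraMap C A f)
        rw [map_add, add_mul]
        exact Subring.add_mem _ ha hb
      smul_mem' := by
        intro c a ha
        show algebraMap A E (c * a) * γ⁻¹ ∈ Loc A E (algebraMap C A f)
        rw [map_mul, mul_assoc]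
        exact Subring.mul_mem _ (alg_mem_Loc c) ha }
  have mem𝔥 : ∀ a : A, a ∈ 𝔥 ↔ algebraMap A E a * γ⁻¹ ∈ Loc A E (algebraMap C A f) := fun a => Iff.rfl
  have hle : 𝔥 ≤ 𝔮.asIdeal := by
    intro a ha
    by_cases ha0 : a = 0
    · rw [ha0]; exact 𝔮.asIdeal.zero_mem
    have haE : algebraMap A E a ≠ 0 := fun h0 => ha0 (h.injAE (by rw [h0, map_zero]))
    rw [← vv_pos_iff_mem 𝔮 (Units.val_mk0 haE)]
    have h1 : Units.mk0 _ haE = (Units.mk0 _ haE * (h.tu g₁ hg0)⁻¹) * h.tu g₁ hg0 := by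
      rw [inv_mul_cancel_right]
    rw [h1, vv_mul]
    have h2 : 0 ≤ vv 𝔮 (Units.mk0 _ haE * (h.tu g₁ hg0)⁻¹) := by
      apply h.vv_Af hf
      rw [Units.val_mul, Units.val_inv_eq_inv_val, h.tu_val, Units.val_mk0]
      exact ha
    omega
  have hne : 𝔥 ≠ ⊤ := by
    intro h0
    apply 𝔮.isPrime.ne_top
    rw [eq_top_iff, ← h0]
    exact hle
  have hprime : 𝔥.IsPrime := by
    refine ⟨hne, ?_⟩
    intro a b hab
    obtain ⟨ta, ma, hma, hma', hta⟩ := h.rep a
    obtain ⟨tb, mb, hmb, hmb', htb⟩ := h.rep b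
    obtain ⟨t, m, hm, hm', htm⟩ := h.rep' hab
    have h1 : ta * tb * m = g₁ * (t * ma * mb) := by
      apply h.injTE
      simp only [map_mul]
      rw [← hta, ← htb, ← htm, map_mul]
      rw [← hγ]
      field_simp
    have h2 : g₁ ∣ ta * tb * m := ⟨_, h1⟩
    have h3 : ¬ g₁ ∣ m := by
      rintro ⟨m₁, rfl⟩
      have hm0 : m₁ ≠ 0 := by
        rintro rfl
        rw [mul_zero, map_zero] at hm
        exact hm rfl
      have h4 : vv 𝔮 (Units.mk0 _ hm) = 0 := h.vv_Af0 hf (h.T_mem _) hm'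
      have h5 : Units.mk0 _ hm = h.tu g₁ hg0 * h.tu m₁ hm0 := by
        ext
        rw [Units.val_mul, h.tu_val, h.tu_val, Units.val_mk0, map_mul]
      have h6 : 0 ≤ vv 𝔮 (h.tu m₁ hm0) := h.vv_Af hf (h.T_mem _)
      rw [h5, vv_mul] at h4
      omega
    have key : ∀ (a : A) (ta ma : T), algebraMap T E ma ≠ 0 →
        (algebraMap T E ma)⁻¹ ∈ Loc A E (algebraMap C A f) →
        algebraMap A E a * algebraMap T E ma = algebraMap T E ta → g₁ ∣ ta → a ∈ 𝔥 := by
      rintro a _ ma hma hma' hta ⟨t', rfl⟩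
      rw [mem𝔥]
      have : algebraMap A E a * γ⁻¹ = (algebraMap T E ma)⁻¹ * algebraMap T E t' := by
        rw [map_mul, ← hγ] at hta
        field_simp
        rw [hta]
        try ring
      rw [this]
      exact Subring.mul_mem _ hma' (h.T_mem _)
    rcases hg.dvd_or_dvd h2 with h4 | h4
    · rcases hg.dvd_or_dvd h4 with h5 | h5
      · exact Or.inl (key a ta ma hma hma' hta h5)
      · exact Or.inr (key b tb mb hmb hmb' htb h5)
    · exact absurd h4 h3
  have hbot : 𝔥 ≠ ⊥ := by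
    obtain ⟨k, a, ha⟩ := h.T_mem g₁
    have hfE : algebraMap A E (algebraMap C A f) ≠ 0 := by rw [← h.algCE]; exact h.fE0
    intro h0
    have ha𝔥 : a ∈ 𝔥 := by
      rw [mem𝔥, ha, ← hγ, mul_comm, ← mul_assoc, inv_mul_cancel₀ hγ0, one_mul]
      exact Subring.pow_mem _ (alg_mem_Loc _) _
    rw [h0, Ideal.mem_bot] at ha𝔥
    rw [ha𝔥, map_zero] at ha
    exact mul_ne_zero hγ0 (pow_ne_zero _ hfE) ha.symm
  have hmax : 𝔥.IsMaximal := hprime.isMaximal hbot
  have heq : 𝔥 = 𝔮.asIdeal := hmax.eq_of_le 𝔮.isPrime.ne_top hle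
  have hcl := class_rel (E := E) h.fA0 𝔮 hf (h.tu g₁ hg0) (by
    intro 𝔮' hf' hne'
    have h1 : ∃ a ∈ 𝔮.asIdeal, a ∉ 𝔮'.asIdeal := by
      by_contra hcon
      push Not at hcon
      apply hne'
      apply HeightOneSpectrum.ext
      exact (𝔮.isMaximal.eq_of_le 𝔮'.isPrime.ne_top hcon).symm
    obtain ⟨a, ha, ha'⟩ := h1
    have ha0 : a ≠ 0 := by
      rintro rfl
      exact ha' 𝔮'.asIdeal.zero_mem
    have haE : algebraMap A E a ≠ 0 := fun h0 => ha0 (h.injAE (by rw [h0, map_zero]))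
    rw [← heq, mem𝔥] at ha
    have h2 : 0 ≤ vv 𝔮' (Units.mk0 _ haE * (h.tu g₁ hg0)⁻¹) := by
      apply h.vv_Af hf'
      rw [Units.val_mul, Units.val_inv_eq_inv_val, h.tu_val, Units.val_mk0]
      exact ha
    rw [vv_mul, vv_inv, vv_zero_of_not_mem 𝔮' (Units.val_mk0 haE) ha'] at h2
    have h3 : 0 ≤ vv 𝔮' (h.tu g₁ hg0) := h.vv_Af hf' (h.T_mem _)
    omega)
  refine ⟨(vv 𝔮 (h.tu g₁ hg0)).toNat, by omega, ?_⟩
  rw [← zpow_natCast, Int.toNat_of_nonneg hpos.le]
  exact hcl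

end

end Pool.Agent.Run7.h954.CP
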