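import Mathlib

/-!
# Rank of the class group: linear algebra
-/

set_option autoImplicit false

namespace Pool.Agent.Run7.h954.CP

open IsDedekindDomain FractionalIdeal
open scoped nonZeroDivisors

/-- The valuation at a prime of a Dedekind domain. -/
noncomputable def vv {A E : Type} [CommRing A] [IsDedekindDomain A] [Field E] [Algebra A E]
    [IsFractionRing A E] (𝔮 : IsDedekindDomain.HeightOneSpectrum A) (e : Eˣ) : ℤ :=
  FractionalIdeal.count E 𝔮 (FractionalIdeal.spanSingleton (nonZeroDivisors A) (e : E))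

/-- The class of a prime. -/
noncomputable def cl {A : Type} [CommRing A] [IsDedekindDomain A]
    (𝔮 : IsDedekindDomain.HeightOneSpectrum A) : ClassGroup A :=
  ClassGroup.mk0 ⟨𝔮.asIdeal, mem_nonZeroDivisors_of_ne_zero 𝔮.ne_bot⟩

section

variable {A E : Type} [CommRing A] [IsDedekindDomain A] [Field E] [Algebra A E]
    [IsFractionRing A E]

omit [IsDedekindDomain A] in
theorem sp_ne (e : Eˣ) : (spanSingleton A⁰ (e : E) : FractionalIdeal A⁰ E) ≠ 0 := by
  rw [Ne, spanSingleton_eq_zero_iff]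
  exact e.ne_zero

theorem vv_mul (𝔮 : HeightOneSpectrum A) (e e' : Eˣ) : vv 𝔮 (e * e') = vv 𝔮 e + vv 𝔮 e' := by
  unfold vv
  rw [Units.val_mul, ← spanSingleton_mul_spanSingleton, count_mul E 𝔮 (sp_ne e) (sp_ne e')]

theorem vv_one (𝔮 : HeightOneSpectrum A) : vv 𝔮 (1 : Eˣ) = 0 := by
  have := vv_mul 𝔮 (1 : Eˣ) 1
  rw [one_mul] at this
  linarith

/-- the valuation as a homomorphism -/
noncomputable def vvh (𝔮 : HeightOneSpectrum A) : Eˣ →* Multiplicative ℤ where
  toFun e := Multiplicative.ofAdd (vv 𝔮 e)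
  map_one' := by rw [vv_one]; rfl
  map_mul' e e' := by rw [vv_mul]; rfl

theorem vv_inv (𝔮 : HeightOneSpectrum A) (e : Eˣ) : vv 𝔮 e⁻¹ = - vv 𝔮 e := by
  have := vv_mul 𝔮 e e⁻¹
  rw [mul_inv_cancel, vv_one] at this
  linarith

theorem vv_zpow (𝔮 : HeightOneSpectrum A) (e : Eˣ) (n : ℤ) : vv 𝔮 (e ^ n) = n * vv 𝔮 e := by
  have h := map_zpow (vvh (E := E) 𝔮) e n
  have h2 := congrArg Multiplicative.toAdd h
  rw [toAdd_zpow] at h2
  simpa [vvh] using h2

theorem vv_prod (𝔮 : HeightOneSpectrum A) {T : Type} [Fintype T] (g : T → Eˣ) (x : T → ℤ) :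
    vv 𝔮 (∏ j, g j ^ x j) = ∑ j, x j * vv 𝔮 (g j) := by
  classical
  have : ∀ s : Finset T, vv 𝔮 (∏ j ∈ s, g j ^ x j) = ∑ j ∈ s, x j * vv 𝔮 (g j) := by
    intro s
    induction s using Finset.induction_on with
    | empty => rw [Finset.prod_empty, Finset.sum_empty, vv_one]
    | insert a s ha ih => rw [Finset.prod_insert ha, Finset.sum_insert ha, vv_mul, vv_zpow, ih]
  exact this _

theorem fi_ext {J J' : FractionalIdeal A⁰ E} (hJ : J ≠ 0) (hJ' : J' ≠ 0)
    (h : ∀ 𝔮 : HeightOneSpectrum A, count E 𝔮 J = count E 𝔮 J') : J = J' := by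
  rw [← finprod_heightOneSpectrum_factorization' E hJ,
    ← finprod_heightOneSpectrum_factorization' E hJ']
  exact finprod_congr fun 𝔮 => by rw [h]

theorem prod_zpow_sum {G : Type} [CommGroup G] {S : Type} (s : Finset S) (a : G) (f : S → ℤ) :
    ∏ i ∈ s, a ^ f i = a ^ ∑ i ∈ s, f i := by
  classical
  induction s using Finset.induction_on with
  | empty => simp
  | insert b s hb ih => rw [Finset.prod_insert hb, Finset.sum_insert hb, ih, zpow_add]

/-- a prime as a unit fractional ideal -/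
noncomputable def pu (E : Type) [Field E] [Algebra A E] [IsFractionRing A E]
    (𝔮 : HeightOneSpectrum A) : (FractionalIdeal A⁰ E)ˣ :=
  FractionalIdeal.mk0 E ⟨𝔮.asIdeal, mem_nonZeroDivisors_of_ne_zero 𝔮.ne_bot⟩

theorem mk_pu (𝔮 : HeightOneSpectrum A) : ClassGroup.mk E (pu E 𝔮) = cl 𝔮 := by
  unfold pu cl
  rw [ClassGroup.mk_mk0]

variable {I : Type} [Fintype I]

theorem count_prod_pu (𝔭 : I → HeightOneSpectrum A) (x : I → ℤ) (𝔮 : HeightOneSpectrum A) :
    count E 𝔮 ((∏ i, pu E (𝔭 i) ^ x i : (FractionalIdeal A⁰ E)ˣ) : FractionalIdeal A⁰ E) =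
      ∑ i, x i * count E 𝔮 ((𝔭 i).asIdeal : FractionalIdeal A⁰ E) := by
  rw [Units.coe_prod, count_prod]
  · refine Finset.sum_congr rfl fun i _ => ?_
    rw [Units.val_zpow_eq_zpow_val, count_zpow]
    rfl
  · intro i _
    exact Units.ne_zero _

theorem mk_prod_pu (𝔭 : I → HeightOneSpectrum A) (x : I → ℤ) :
    Additive.ofMul (ClassGroup.mk E (∏ i, pu E (𝔭 i) ^ x i)) =
      Fintype.linearCombination ℤ (fun i => Additive.ofMul (cl (𝔭 i))) x := by
  rw [Fintype.linearCombination_apply, map_prod, ofMul_prod]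
  refine Finset.sum_congr rfl fun i _ => ?_
  rw [map_zpow, mk_pu, ofMul_zpow]

theorem mk_eq_one {J : (FractionalIdeal A⁰ E)ˣ} (h : ClassGroup.mk E J = 1) :
    ∃ e : Eˣ, (J : FractionalIdeal A⁰ E) = spanSingleton A⁰ (e : E) := by
  rw [ClassGroup.mk_eq_one_iff] at h
  obtain ⟨x, hx⟩ := h.principal
  have hx' : (J : FractionalIdeal A⁰ E) = spanSingleton A⁰ x := by
    apply Subtype.coe_injective
    simp only [val_eq_coe, hx, coe_spanSingleton]
  refine ⟨Units.mk0 x ?_, hx'⟩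
  rintro rfl
  rw [spanSingleton_zero] at hx'
  exact J.ne_zero hx'

theorem mk_eq_one' {J : (FractionalIdeal A⁰ E)ˣ} {e : Eˣ}
    (h : (J : FractionalIdeal A⁰ E) = spanSingleton A⁰ (e : E)) : ClassGroup.mk E J = 1 := by
  rw [ClassGroup.mk_eq_one_iff]
  refine ⟨⟨e, ?_⟩⟩
  rw [h, coe_spanSingleton]

/-- if all primes are torsion modulo a subgroup, so are all classes -/
theorem tors_of_primes (H : Subgroup (ClassGroup A))
    (h : ∀ 𝔮 : HeightOneSpectrum A, ∃ k : ℕ, k ≠ 0 ∧ cl 𝔮 ^ k ∈ H) (c : ClassGroup A) :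
    ∃ k : ℕ, k ≠ 0 ∧ c ^ k ∈ H := by
  obtain ⟨⟨J, hJ⟩, rfl⟩ := ClassGroup.mk0_surjective c
  have key : ∀ J : Ideal A, ∀ hJ : J ∈ (Ideal A)⁰, ∃ k : ℕ, k ≠ 0 ∧ ClassGroup.mk0 ⟨J, hJ⟩ ^ k ∈ H := by
    intro J
    induction J using UniqueFactorizationMonoid.induction_on_prime with
    | h₁ => intro hJ; exact absurd rfl (nonZeroDivisors.ne_zero hJ)
    | h₂ J hu =>
      intro hJ
      refine ⟨1, one_ne_zero, ?_⟩
      have : (⟨J, hJ⟩ : (Ideal A)⁰) = 1 := by
        apply Subtype.ext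
        show J = 1
        rwa [Ideal.isUnit_iff, ← Ideal.one_eq_top] at hu
      rw [this, map_one, one_pow]
      exact H.one_mem
    | h₃ J Q hJ0 hQ ih =>
      intro hJ
      have hJm : J ∈ (Ideal A)⁰ := mem_nonZeroDivisors_of_ne_zero hJ0
      obtain ⟨k₁, h1, h1'⟩ := ih hJm
      have hQ0 : Q ≠ ⊥ := hQ.ne_zero
      obtain ⟨k₂, h2, h2'⟩ := h ⟨Q, Ideal.isPrime_of_prime hQ, hQ0⟩
      refine ⟨k₁ * k₂, mul_ne_zero h1 h2, ?_⟩
      have : (⟨Q * J, hJ⟩ : (Ideal A)⁰) = ⟨Q, mem_nonZeroDivisors_of_ne_zero hQ0⟩ * ⟨J, hJm⟩ := rfl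
      rw [this, map_mul, mul_pow]
      refine H.mul_mem ?_ ?_
      · rw [mul_comm, pow_mul]
        exact H.pow_mem h2' _
      · rw [pow_mul]
        exact H.pow_mem h1' _
  exact key J hJ

theorem rank_lattice {T P : Type} [Fintype T] [Fintype P]
    (𝔭 : I → IsDedekindDomain.HeightOneSpectrum A) (hinj : Function.Injective 𝔭)
    (g : T → Eˣ) (p : P → Eˣ) (UK U0 : Subgroup Eˣ) (h0K : U0 ≤ UK)
    (a1 : ∀ 𝔮 : IsDedekindDomain.HeightOneSpectrum A, ∃ k : ℕ, k ≠ 0 ∧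
      cl 𝔮 ^ k ∈ Subgroup.closure (Set.range fun i => cl (𝔭 i)))
    (a2 : ∀ j, ∀ 𝔮, 𝔮 ∉ Set.range 𝔭 → vv 𝔮 (g j) = 0)
    (a3 : ∀ e : Eˣ, (∀ 𝔮, 𝔮 ∉ Set.range 𝔭 → vv 𝔮 e = 0) →
      ∃ (κ : Eˣ) (x : T → ℤ), κ ∈ UK ∧ e = κ * ∏ j, g j ^ x j)
    (a4 : ∀ κ ∈ UK, ∀ 𝔮 : IsDedekindDomain.HeightOneSpectrum A, vv 𝔮 κ = 0)
    (a5 : ∀ e : Eˣ, (∀ 𝔮 : IsDedekindDomain.HeightOneSpectrum A, vv 𝔮 e = 0) → e ∈ UK)
    (a6 : ∀ x : T → ℤ, ∏ j, g j ^ x j ∈ UK → ∃ (ε : Eˣ) (y : P → ℤ), ε ∈ U0 ∧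
      ∏ j, g j ^ x j = ε * ∏ i, p i ^ y i)
    (a7 : ∀ i, p i ∈ UK ∧ ∃ (ε : Eˣ) (x : T → ℤ), ε ∈ U0 ∧ p i = ε * ∏ j, g j ^ x j)
    (a8 : ∀ x : T → ℤ, ∏ j, g j ^ x j ∈ U0 → x = 0)
    (a9 : ∀ y : P → ℤ, ∏ i, p i ^ y i ∈ U0 → y = 0) :
    Module.rank ℤ (Additive (ClassGroup A)) + (Fintype.card T : Cardinal) =
      (Fintype.card I : Cardinal) + (Fintype.card P : Cardinal) := by
  classical
  choose hpK ε₀ Yx hε₀ hYx using a7
  set α : (I → ℤ) →ₗ[ℤ] Additive (ClassGroup A) :=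
    Fintype.linearCombination ℤ (fun i => Additive.ofMul (cl (𝔭 i))) with hα
  set W : (T → ℤ) →ₗ[ℤ] (I → ℤ) :=
    Fintype.linearCombination ℤ (fun j => (fun i => vv (𝔭 i) (g j))) with hW
  set Y : (P → ℤ) →ₗ[ℤ] (T → ℤ) := Fintype.linearCombination ℤ Yx with hY
  have hWapp : ∀ (x : T → ℤ) (i : I), W x i = vv (𝔭 i) (∏ j, g j ^ x j) := by
    intro x i
    rw [vv_prod, hW, Fintype.linearCombination_apply, Finset.sum_apply]
    refine Finset.sum_congr rfl fun j _ => ?_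
    rw [Pi.smul_apply, smul_eq_mul]
  -- products of the `p i`
  have hYapp : ∀ y : P → ℤ, ∃ ε ∈ U0, ∏ i, p i ^ y i = ε * ∏ j, g j ^ (Y y) j := by
    intro y
    refine ⟨∏ i, ε₀ i ^ y i, Subgroup.prod_mem _ fun i _ => U0.zpow_mem (hε₀ i) _, ?_⟩
    have h1 : ∀ i, p i ^ y i = ε₀ i ^ y i * ∏ j, g j ^ (y i * Yx i j) := by
      intro i
      conv_lhs => rw [hYx i]
      rw [mul_zpow, ← Finset.prod_zpow]
      congr 1
      refine Finset.prod_congr rfl fun j _ => ?_
      rw [← zpow_mul, mul_comm]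
    rw [Finset.prod_congr rfl fun i _ => h1 i, Finset.prod_mul_distrib, Finset.prod_comm]
    congr 1
    refine Finset.prod_congr rfl fun j _ => ?_
    rw [prod_zpow_sum]
    congr 1
    rw [hY, Fintype.linearCombination_apply, Finset.sum_apply]
    refine Finset.sum_congr rfl fun i _ => ?_
    rw [Pi.smul_apply, smul_eq_mul]
  -- (1)
  have h1 : LinearMap.ker α = LinearMap.range W := by
    ext x
    rw [LinearMap.mem_ker, LinearMap.mem_range]
    constructor
    · intro hx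
      rw [hα, ← mk_prod_pu (E := E)] at hx
      have hx' : ClassGroup.mk E (∏ i, pu E (𝔭 i) ^ x i) = 1 := Additive.ofMul.injective hx
      obtain ⟨e, he⟩ := mk_eq_one hx'
      have hve : ∀ 𝔮, vv 𝔮 e = ∑ i, x i * count E 𝔮 ((𝔭 i).asIdeal : FractionalIdeal A⁰ E) := by
        intro 𝔮
        unfold vv
        rw [← he, count_prod_pu]
      obtain ⟨κ, z, hκ, hez⟩ := a3 e (by
        intro 𝔮 h𝔮
        rw [hve]
        refine Finset.sum_eq_zero fun i _ => ?_
        rw [count_maximal_coprime E 𝔮 (fun h => h𝔮 ⟨i, h⟩), mul_zero])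
      refine ⟨z, ?_⟩
      funext i
      rw [hWapp]
      have h2 : vv (𝔭 i) e = x i := by
        rw [hve, Finset.sum_eq_single i]
        · rw [count_self, mul_one]
        · intro b _ hb
          rw [count_maximal_coprime E (𝔭 i) (fun h => hb (hinj h)), mul_zero]
        · intro h; exact absurd (Finset.mem_univ _) h
      rw [← h2, hez, vv_mul, a4 κ hκ, zero_add]
    · rintro ⟨z, rfl⟩
      rw [hα, ← mk_prod_pu (E := E)]
      have : ClassGroup.mk E (∏ i, pu E (𝔭 i) ^ (W z) i) = 1 := by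
        apply mk_eq_one' (e := ∏ j, g j ^ z j)
        apply fi_ext (Units.ne_zero _) (sp_ne _)
        intro 𝔮
        rw [count_prod_pu]
        show _ = vv 𝔮 (∏ j, g j ^ z j)
        by_cases h𝔮 : 𝔮 ∈ Set.range 𝔭
        · obtain ⟨i, rfl⟩ := h𝔮
          rw [Finset.sum_eq_single i, count_self, mul_one, hWapp]
          · intro b _ hb
            rw [count_maximal_coprime E (𝔭 i) (fun h => hb (hinj h)), mul_zero]
          · intro h; exact absurd (Finset.mem_univ _) h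
        · rw [vv_prod]
          trans (0 : ℤ)
          · refine Finset.sum_eq_zero fun i _ => ?_
            rw [count_maximal_coprime E 𝔮 (fun h => h𝔮 ⟨i, h⟩), mul_zero]
          · symm
            refine Finset.sum_eq_zero fun j _ => ?_
            rw [a2 j 𝔮 h𝔮, mul_zero]
      rw [this]
      rfl
  -- (2)
  have h2 : LinearMap.ker W = LinearMap.range Y := by
    ext x
    rw [LinearMap.mem_ker, LinearMap.mem_range]
    constructor
    · intro hx
      have hK : ∏ j, g j ^ x j ∈ UK := by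
        apply a5
        intro 𝔮
        by_cases h𝔮 : 𝔮 ∈ Set.range 𝔭
        · obtain ⟨i, rfl⟩ := h𝔮
          rw [← hWapp, hx]; rfl
        · rw [vv_prod]
          refine Finset.sum_eq_zero fun j _ => ?_
          rw [a2 j 𝔮 h𝔮, mul_zero]
      obtain ⟨ε, y, hε, hy⟩ := a6 x hK
      obtain ⟨ε', hε', hy'⟩ := hYapp y
      refine ⟨y, ?_⟩
      have h3 : x - Y y = 0 := by
        apply a8
        have : ∏ j, g j ^ (x - Y y) j = ε * ε' := by
          have h4 : ∀ j, g j ^ (x - Y y) j = g j ^ x j * (g j ^ (Y y) j)⁻¹ := by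
            intro j
            rw [Pi.sub_apply, zpow_sub]
          rw [Finset.prod_congr rfl fun j _ => h4 j, Finset.prod_mul_distrib, Finset.prod_inv_distrib,
            hy, hy']
          rw [mul_inv_eq_iff_eq_mul]
          exact (mul_assoc _ _ _).symm
        rw [this]
        exact U0.mul_mem hε hε'
      exact (sub_eq_zero.1 h3).symm
    · rintro ⟨y, rfl⟩
      obtain ⟨ε', hε', hy'⟩ := hYapp y
      funext i
      rw [hWapp]
      have h3 : vv (𝔭 i) (∏ i, p i ^ y i) = 0 :=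
        a4 _ (Subgroup.prod_mem _ fun i _ => UK.zpow_mem (hpK i) _) _
      rw [hy', vv_mul, a4 ε' (h0K hε'), zero_add] at h3
      exact h3
  -- (3)
  have h3 : LinearMap.ker Y = ⊥ := by
    rw [LinearMap.ker_eq_bot']
    intro y hy
    apply a9
    obtain ⟨ε', hε', hy'⟩ := hYapp y
    rw [hy', hy]
    simpa using hε'
  -- (4)
  have h4 : Module.rank ℤ (Additive (ClassGroup A)) = Module.rank ℤ (LinearMap.range α) := by
    rw [← Submodule.rank_quotient_add_rank (LinearMap.range α)]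
    have : Module.rank ℤ (Additive (ClassGroup A) ⧸ LinearMap.range α) = 0 := by
      rw [rank_eq_zero_iff]
      intro c
      obtain ⟨c, rfl⟩ := Submodule.Quotient.mk_surjective _ c
      obtain ⟨k, hk, hck⟩ := tors_of_primes _ a1 (Additive.toMul c)
      refine ⟨k, by exact_mod_cast hk, ?_⟩
      rw [← Submodule.Quotient.mk_smul, Submodule.Quotient.mk_eq_zero]
      have hle : Subgroup.closure (Set.range fun i => cl (𝔭 i)) ≤
          AddSubgroup.toSubgroup' (LinearMap.range α).toAddSubgroup := by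
        rw [Subgroup.closure_le]
        rintro _ ⟨i, rfl⟩
        show Additive.ofMul (cl (𝔭 i)) ∈ LinearMap.range α
        refine ⟨Pi.single i 1, ?_⟩
        rw [hα, Fintype.linearCombination_apply_single, one_smul]
      have h5 := hle hck
      show ((k : ℤ) • c) ∈ LinearMap.range α
      rw [natCast_zsmul]
      exact h5
    rw [this, zero_add]
  have r1 := LinearMap.rank_range_add_rank_ker α
  have r2 := LinearMap.rank_range_add_rank_ker W
  have r3 := LinearMap.rank_range_add_rank_ker Y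
  rw [rank_fun'] at r1 r2 r3
  rw [h3, rank_bot, add_zero] at r3
  rw [h2, r3] at r2
  rw [h1] at r1
  rw [h4, ← r1, ← r2, add_assoc]

end

end Pool.Agent.Run7.h954.CP
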